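import Pool.Agent.Lib.MP_fa98d2_nt.D.Calc

/-! Density theorem with off-diagonal terms: definitions and statements of the modules.
Plan: `fa98_db_PLAN.md` in the team store. Indices run from `0` to `N + 1`. -/

open MeasureTheory Filter Topology Matrix
open scoped ENNReal Real ComplexConjugate

noncomputable section

namespace Pool.Agent.Lib.MP_fa98d2_nt.D

namespace B

variable {k N : ℕ}

/-- integral upper unitriangular matrices -/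
def UZ (k : ℕ) : Subgroup (GZ k) where
  carrier := {δ | IsU (iz δ)}
  mul_mem' := fun {a b} ha hb => by
    change IsU (iz (a * b))
    rw [map_mul]; exact IsU.mul ha hb
  one_mem' := by
    change IsU (iz 1)
    rw [map_one]; exact isU_one
  inv_mem' := fun {a} ha => by
    change IsU (iz a⁻¹)
    rw [map_inv]; exact IsU.inv ha

lemma mem_UZ {δ : GZ k} : δ ∈ UZ k ↔ IsU (iz δ) := Iff.rfl

/-- partition of unity for a subgroup of `GL(k,Z)` -/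
def wS (S : Subgroup (GZ k)) (g : G k) : ℝ≥0∞ := th g / ∑' δ : S, th (iz δ.1 * g)

/-- upper unitriangular with entries in the half open unit interval -/
def Cube (u : G k) : Prop := IsU u ∧ ∀ i j, i < j → 0 ≤ u.val i j ∧ u.val i j < 1

/-- lower triangular -/
def Low (b : G k) : Prop := ∀ i j, i < j → b.val i j = 0

abbrev GQ (k : ℕ) : Type := GL (Fin k) ℚ

/-- rational matrices -/
def iq : GQ k →* G k := Matrix.GeneralLinearGroup.map (Rat.castHom ℝ)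

lemma val_iq (u : GQ k) : (iq u).val = u.val.map (Rat.cast : ℚ → ℝ) := rfl

/-- integral matrices as rational matrices -/
def zq : GZ k →* GQ k := Matrix.GeneralLinearGroup.map (Int.castRingHom ℚ)

lemma val_zq (γ : GZ k) : (zq γ).val = γ.val.map (Int.cast : ℤ → ℚ) := rfl

lemma iq_zq (γ : GZ k) : iq (zq γ) = iz γ := by
  apply Units.ext
  ext i j
  simp [val_iq, val_zq, val_iz]

/-- relevant elements: the character is compatible with conjugation -/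
def Rel (m : Fin k → ℤ) (γ : GZ (k + 1)) : Prop :=
  ∀ u : GQ (k + 1), IsU (iq u) → IsU (iz γ * iq u * (iz γ)⁻¹) →
    psi (zv m) (iz γ * iq u * (iz γ)⁻¹) = psi (zv m) (iq u)

/-- the diagonal element of the localised region -/
def yv (N : ℕ) (T m : ℝ) (i : Fin (N + 2)) : ℝ :=
  if i = 0 then T ^ (N + 1) / m else T ^ (N + 1 - i.val)

/-- size conditions on all rows but the first -/
def Near (e : ℝ) (y : Fin (N + 2) → ℝ) (Z : Mat (N + 2)) : Prop :=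
  ∀ j, j ≠ 0 → (∀ i, i < j → |Z j i| ≤ e * (y j / y i)) ∧ |Z j j - 1| ≤ e ∧
    ∀ i, j < i → |Z j i| ≤ 2

/-- `γ u` is in reduced position -/
def Pos (e : ℝ) (y : Fin (N + 2) → ℝ) (γ : GZ (N + 2)) (u : G (N + 2)) : Prop :=
  Near e y (iz γ * u).val ∧ ∃ u' l, Cube u' ∧ Low l ∧ 0 < l.val 0 0 ∧ iz γ * u = u' * l

/-- the cell of type `(1, n - 2, 1)` with equal moduli -/
def Wst (γ : GZ (N + 2)) : Prop :=
  γ.val (Fin.last (N + 1)) 0 ≠ 0 ∧ ∀ j, j ≠ 0 → j ≠ Fin.last (N + 1) →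
    (∀ i, i < j →
      γ.val (Fin.last (N + 1)) 0 * γ.val j i = γ.val j 0 * γ.val (Fin.last (N + 1)) i) ∧
    γ.val (Fin.last (N + 1)) 0 * γ.val j j =
      γ.val (Fin.last (N + 1)) 0 + γ.val j 0 * γ.val (Fin.last (N + 1)) j

/-! ### Weights and tilings -/

structure TileStmt : Prop where
  meas : ∀ (k : ℕ) (S : Subgroup (GZ k)), Measurable (wS S)
  sum : ∀ (k : ℕ) (S : Subgroup (GZ k)) (g : G k), ∑' δ : S, wS S (iz δ.1 * g) = 1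
  ex : ∀ (k : ℕ) (u : G k), IsU u → ∃ δ ∈ UZ k, Cube (iz δ * u)
  unf : ∀ (k : ℕ) (H : G k → ℝ≥0∞), Measurable H → UZInv H →
    ∫⁻ g, wS (UZ k) g * H g ∂mu k = II k fun g => ∫⁻ y, H (un k y * g) ∂cY k
  unfC : ∀ (k : ℕ) (f : G k → ℂ), Measurable f → UZInv f →
    ∫⁻ g, wS (UZ k) g * ‖f g‖ₑ ∂mu k < ⊤ →
    ∫ g, ((wS (UZ k) g).toReal : ℂ) * f g ∂mu k =
      ∫ x, ∫ y, f (un k y * sg k x) ∂cY k ∂mX k
  fin : ∀ (k : ℕ) (K : Set (G k)), IsCompact K → ∃ M : ℝ≥0∞, M ≠ ⊤ ∧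
    ∀ g, ∑' γ : GZ k, K.indicator (1 : G k → ℝ≥0∞) (iz γ * g) ≤ M

/-! ### Triangular matrices -/

structure TriStmt : Prop where
  vec : ∀ (k : ℕ) (u : G k), IsU u → ∀ d : Fin k → ℤ, (∀ i, |(zv d ᵥ* u.val) i| < 1) → d = 0
  uniq : ∀ (k : ℕ) (δ : GZ k) (u : G k), δ ∈ UZ k → Cube u → Cube (iz δ * u) → δ = 1
  lowU : ∀ (k : ℕ) (b : G k), IsU b → Low b → b = 1
  lowM : ∀ (k : ℕ) (b b' : G k), Low b → Low b' → Low (b * b') ∧ Low b⁻¹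
  lowD : ∀ (k : ℕ) (a : Fin k → ℝ), Low (dg a)
  lowS : ∀ (k : ℕ) (x : X k), Low (sg k x)
  ul : ∀ k : ℕ, ∃ C : ℝ, 1 ≤ C ∧ ∀ δ : ℝ, 0 < δ → C * δ * (2 * k + 2) ≤ 1 → ∀ x ∈ Bl k δ,
    ∃ u b, IsU u ∧ Low b ∧ b ∈ Bl k (C * δ) ∧ x = u * b
  near : ∀ (N : ℕ) (T m δ : ℝ), 1 ≤ T → 0 < m → (N + 2) * δ ≤ 1 → ∀ u x : G (N + 2), Cube u →
    Low x → x ∈ Bl (N + 2) δ →
    Near ((N + 2) * δ) (yv N T m) (u * (dg (yv N T m) * x * (dg (yv N T m))⁻¹)).val ∧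
      0 < (dg (yv N T m) * x * (dg (yv N T m))⁻¹).val 0 0
  cpt : ∀ (k : ℕ) (a : G k) (δ : ℝ), δ * (2 * k + 2) ≤ 1 → ∃ K : Set (G k), IsCompact K ∧
    ∀ u x, Cube u → x ∈ Bl k δ → u * a * x ∈ K

/-! ### Vanishing of the non relevant double cosets -/

/-- abstract vanishing lemma -/
def VanAStmt : Prop :=
  ∀ (k : ℕ) (L L' : Type) [Group L] [Group L'] [Countable L] [Countable L'] (ι : L →* L')
    (s : L' →* G k) (ω ω' : G k → ℝ≥0∞) (j : G k → ℂ) (χ : L' →* ℂ),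
    Measurable ω → Measurable ω' → Measurable j →
    (∀ h, ∑' l : L, ω (s (ι l) * h) = 1) → (∀ h, ∑' l : L', ω' (s l * h) = 1) →
    (∀ l h, j (s l * h) = χ l * j h) → (∀ l, ‖χ l‖ = 1) → (∀ l, χ (ι l) = 1) → (∃ l, χ l ≠ 1) →
    ∫⁻ h, ω h * ‖j h‖ₑ ∂mu k < ⊤ → ∫ h, ((ω h).toReal : ℂ) * j h ∂mu k = 0

/-- the term of `γ` in the norm of the Poincare series -/
def JT (β : G k → ℂ) (γ : GZ k) : ℂ :=
  ∫ h, ((wS (UZ k) (iz γ * h)).toReal : ℂ) * β (iz γ * h) *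
    conj (((wS (UZ k) h).toReal : ℂ) * β h) ∂mu k

/-- its absolute value bound -/
def JA (β : G k → ℂ) (γ : GZ k) : ℝ≥0∞ :=
  ∫⁻ h, wS (UZ k) (iz γ * h) * ‖β (iz γ * h)‖ₑ * (wS (UZ k) h * ‖β h‖ₑ) ∂mu k

open Classical in
structure VanStmt : Prop where
  left : ∀ (k : ℕ) (m : Fin k → ℤ) (γ δ : GZ (k + 1)), δ ∈ UZ (k + 1) →
    (Rel m (δ * γ) ↔ Rel m γ)
  right : ∀ (k : ℕ) (m : Fin k → ℤ) (γ δ : GZ (k + 1)), δ ∈ UZ (k + 1) →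
    (Rel m (γ * δ) ↔ Rel m γ)
  inv : ∀ (k : ℕ) (m : Fin k → ℤ) (γ : GZ (k + 1)), Rel m γ⁻¹ ↔ Rel m γ
  van : ∀ (k : ℕ) (m : Fin k → ℤ) (β : G (k + 1) → ℂ), Measurable β → Eqv (zv m) β →
    ∑' γ, JA β γ ≠ ⊤ → ∑' γ, (if Rel m γ then 0 else JT β γ) = 0

/-! ### Bruhat decomposition and classification -/

/-- weight of the column or row `i` in the character, `1` for the last index -/
def mx (m : Fin k → ℤ) (i : Fin (k + 1)) : ℤ := Fin.lastCases 1 m i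

def BruStmt : Prop :=
  ∀ (k : ℕ) (m : Fin k → ℤ), (∀ i, m i ≠ 0) → ∀ γ : GZ (k + 1), Rel m γ →
    ∃ (q : GQ (k + 1)) (lam : Equiv.Perm (Fin (k + 1))), IsU (iq q) ∧
      (∀ j, (q * zq γ).val j (lam j) ≠ 0) ∧ (∀ j i, i < lam j → (q * zq γ).val j i = 0) ∧
      (∀ j : Fin k, lam j.castSucc < lam j.succ → (lam j.succ).val = (lam j.castSucc).val + 1 ∧
        m j * (q * zq γ).val j.castSucc (lam j.castSucc) =
          mx m (lam j.castSucc) * (q * zq γ).val j.succ (lam j.succ)) ∧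
      (∀ j : Fin k, lam j.succ < lam j.castSucc → ∀ i : Fin (k + 1), j.succ ≤ i →
        (lam i).val + j.val + 1 ≤ k) ∧
      |∏ j, (q * zq γ).val j (lam j)| = 1

def ClsStmt : Prop :=
  ∀ N : ℕ, ∃ c0 : ℝ, 0 < c0 ∧ ∀ T e : ℝ, 0 < e → 2 * e ≤ 1 → 1 ≤ e * T → ∀ m : ℕ+,
    ((m : ℕ) : ℝ) * e ^ (N + 1) ≤ c0 * T ^ (N + 1) → ∀ (γ : GZ (N + 2)) (u : G (N + 2)),
    Rel (zm (m1 N m)) γ → IsU u → Near e (yv N T (m : ℕ)) (iz γ * u).val →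
    γ ∈ UZ (N + 2) ∨ Wst γ

/-! ### Counting -/

open Classical in
/-- the integral over the first entry of one column -/
def OneStmt : Prop :=
  ∀ (N : ℕ) (ε : ℝ), 0 < ε → ∃ C : ℝ, 0 < C ∧ ∀ T : ℝ, 1 ≤ T → ∀ c : ℤ, c ≠ 0 →
    |(c : ℝ)| ≤ T ^ N → ∃ S : ℝ, 0 ≤ S ∧ S ^ N ≤ C * T ^ ε ∧ ∀ e R s : ℝ, 0 < e →
      R ≤ T ^ (2 * N) →
      (∫⁻ t in Set.Ico (0 : ℝ) 1, ∑' z : ℤ, ∑' a : ℤ,
        (if |(a : ℝ)| ≤ R ∧ c ∣ a * z ∧ |c * t + s + z| ≤ e ∧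
          |(a : ℝ)| * |c * t + s + z| ≤ e * |(c : ℝ)| then (1 : ℝ≥0∞) else 0)) ≤
        ENNReal.ofReal (S * e) ∧
      (∫⁻ t in Set.Ico (0 : ℝ) 1, ∑' z : ℤ,
        (if |c * t + s + z - 1| ≤ e then (1 : ℝ≥0∞) else 0)) ≤ ENNReal.ofReal (2 * e)

/-- integration column by column -/
def ColStmt : Prop :=
  ∀ (k : ℕ) (c : ℤ) (f : Fin (k + 1) → ℝ → ℤ → ℝ≥0∞) (b : Fin (k + 1) → ℝ≥0∞),
    (∀ j z, Measurable fun v => f j v z) →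
    (∀ j, j ≠ 0 → ∀ s : ℝ, ∫⁻ t in Set.Ico (0 : ℝ) 1, ∑' z : ℤ, f j (c * t + s + z) z ≤ b j) →
    ∫⁻ y, ∑' ξ : Fin (k + 1) → ℤ, (if ξ 0 = c then 1 else 0) *
      ∏ j ∈ Finset.univ.erase 0, f j ((zv ξ ᵥ* (un (k + 1) y).val) j) (ξ j) ∂cY (k + 1) ≤
      ∏ j ∈ Finset.univ.erase 0, b j

open Classical in
def CntStmt : Prop :=
  ∀ (N : ℕ) (ε : ℝ), 0 < ε → ∃ C : ℝ, 0 < C ∧ ∀ T e m : ℝ, 0 < e → e ≤ 1 → 1 ≤ e * T → 0 < m →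
    m * e ^ (N + 1) ≤ T ^ (N + 1) →
    ∫⁻ y, ∑' γ : GZ (N + 2),
      (if Wst γ ∧ Pos e (yv N T m) γ (un (N + 2) y) then (1 : ℝ≥0∞) else 0) ∂cY (N + 2) ≤
      ENNReal.ofReal (C * T ^ ε)

/-! ### The final statements -/

def InjBStmt : Prop :=
  ∀ (N : ℕ) (ε : ℝ), 0 < ε → ∃ d0 c3 C : ℝ, 0 < d0 ∧ 0 < c3 ∧ 0 < C ∧
    ∀ T : ℝ, 1 ≤ T → ∀ δ : ℝ, 1 / T ≤ δ → δ ≤ d0 → ∀ m : ℕ+,
      ((m : ℕ) : ℝ) ≤ c3 * (T / δ) ^ (N + 1) → ∀ F : G (N + 2) → ℂ, Aut F →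
      ENNReal.ofReal (dl (tm (m1 N m))) * II (N + 2) (fun g =>
        (Om (up (dg (tT (N + 1) T))) δ).indicator 1 g *
          ‖Wf (zm (m1 N m)) F ((dg (tm (m1 N m)))⁻¹ * g)‖ₑ ^ 2) ≤
        ENNReal.ofReal (C * δ * T ^ ε) * N2 F

def FinalBStmt : Prop :=
  ∀ n : ℕ, 2 ≤ n → ∀ ε : ℝ, 0 < ε → ∃ C : ℝ, ∀ p : ℕ, p.Prime → ∀ T : ℝ, 1 ≤ T → ∀ σ : ℝ, 0 ≤ σ →
    ∀ (ι : Type) [Fintype ι] (φ : ι → Mat n → ℂ) (μ : ι → Fin n → ℂ) (α : ι → ℕ → Fin n → ℂ),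
      (∀ j, SphCusp (φ j) (μ j) (α j)) →
      (∀ i j, i ≠ j → ¬ ∃ c : ℂ, ∀ g : Mat n, g.det ≠ 0 → φ j g = c * φ i g) →
      (∀ j l, ‖μ j l‖ ≤ T) → (∀ j, σ ≤ thetaP (α j) p) →
      (Fintype.card ι : ℝ) ≤
        C * (p : ℝ) ^ n * T ^ (((n : ℝ) - 1) * (n + 2) / 2 - 4 * (n - 1) * σ + ε)

end B

end Pool.Agent.Lib.MP_fa98d2_nt.D
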