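import Pool.Agent.Lib.MP_fa98d2_nt.D.Par
import Pool.Agent.Lib.MP_fa98d2_nt.B.Stm

/-! Density theorem with off-diagonal terms: Poincare series. -/

open MeasureTheory Filter Topology Matrix
open scoped ENNReal Real ComplexConjugate

noncomputable section

namespace Pool.Agent.Lib.MP_fa98d2_nt.D

namespace B

variable {k : ℕ}

lemma enorm_toReal_mul {a : ℝ≥0∞} (ha : a ≠ ⊤) (z : ℂ) : ‖((a.toReal : ℝ) : ℂ) * z‖ₑ = a * ‖z‖ₑ := by
  rw [enorm_mul, ← ofReal_norm ((a.toReal : ℝ) : ℂ), Complex.norm_real,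
    Real.norm_of_nonneg ENNReal.toReal_nonneg, ENNReal.ofReal_toReal ha]

lemma enorm_conj (z : ℂ) : ‖conj z‖ₑ = ‖z‖ₑ := by
  rw [← ofReal_norm, Complex.norm_conj, ofReal_norm]

lemma wt_ne_top (g : G k) : wt g ≠ ⊤ := by
  have h := ENNReal.le_tsum (f := fun γ : GZ k => wt (iz γ * g)) 1
  rw [Quot.sum, map_one, one_mul] at h
  exact ne_top_of_le_ne_top ENNReal.one_ne_top h

lemma wS_le (hT : TileStmt) (S : Subgroup (GZ k)) (g : G k) : wS S g ≤ 1 := by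
  have h := ENNReal.le_tsum (f := fun δ : S => wS S (iz δ.1 * g)) 1
  rwa [hT.sum, OneMemClass.coe_one, map_one, one_mul] at h

lemma wS_ne_top (hT : TileStmt) (S : Subgroup (GZ k)) (g : G k) : wS S g ≠ ⊤ :=
  ne_top_of_le_ne_top ENNReal.one_ne_top (wS_le hT S g)

lemma meas_conj {α : Type} [MeasurableSpace α] {f : α → ℂ} (hf : Measurable f) :
    Measurable fun x => conj (f x) := Complex.continuous_conj.measurable.comp hf

lemma meas_toR {α : Type} [MeasurableSpace α] {f : α → ℝ≥0∞} (hf : Measurable f) :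
    Measurable fun x => (((f x).toReal : ℝ) : ℂ) :=
  Complex.measurable_ofReal.comp hf.ennreal_toReal

/-- folding for complex functions -/
lemma cfold {Φ : G k → ℂ} (hΦ : Measurable Φ) (hf : ∫⁻ g, ‖Φ g‖ₑ ∂mu k ≠ ⊤) :
    ∫ g, Φ g ∂mu k = ∫ g, ((wt g).toReal : ℂ) * ∑' γ : GZ k, Φ (iz γ * g) ∂mu k := by
  have hw : Measurable fun g : G k => (((wt g).toReal : ℝ) : ℂ) := meas_toR Quot.meas
  have m1 : ∀ γ : GZ k, Measurable fun g => ((wt g).toReal : ℂ) * Φ (iz γ * g) := fun γ =>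
    hw.mul (hΦ.comp (measurable_const_mul _))
  have m2 : ∀ γ : GZ k, Measurable fun g => ((wt ((iz γ)⁻¹ * g)).toReal : ℂ) * Φ g := fun γ =>
    (hw.comp (measurable_const_mul _)).mul hΦ
  have h1 : ∑' γ : GZ k, ∫⁻ g, ‖((wt g).toReal : ℂ) * Φ (iz γ * g)‖ₑ ∂mu k =
      ∫⁻ g, ‖Φ g‖ₑ ∂mu k := by
    rw [Quot.fold _ hΦ.enorm, QI, ← lintegral_tsum fun γ => (m1 γ).enorm.aemeasurable]
    refine lintegral_congr fun g => ?_
    rw [← ENNReal.tsum_mul_left]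
    exact tsum_congr fun γ => enorm_toReal_mul (wt_ne_top g) _
  have h2 : ∀ γ : GZ k, ∫ g, ((wt g).toReal : ℂ) * Φ (iz γ * g) ∂mu k =
      ∫ g, ((wt ((iz γ)⁻¹ * g)).toReal : ℂ) * Φ g ∂mu k := fun γ => by
    rw [← integral_mul_left_eq_self _ (iz γ)⁻¹]
    simp
  have h3 : ∀ γ : GZ k, ∫⁻ g, ‖((wt g).toReal : ℂ) * Φ (iz γ * g)‖ₑ ∂mu k =
      ∫⁻ g, ‖((wt ((iz γ)⁻¹ * g)).toReal : ℂ) * Φ g‖ₑ ∂mu k := fun γ => by
    rw [← lintegral_mul_left_eq_self _ (iz γ)⁻¹]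
    simp
  simp_rw [← tsum_mul_left]
  rw [integral_tsum (fun γ => (m1 γ).aestronglyMeasurable) (by rw [h1]; exact hf)]
  simp_rw [h2]
  rw [← integral_tsum (fun γ => (m2 γ).aestronglyMeasurable)
    (by simp_rw [← h3]; rw [h1]; exact hf)]
  refine integral_congr_ae (Eventually.of_forall fun g => ?_)
  have h4 : ∑' γ : GZ k, wt ((iz γ)⁻¹ * g) = 1 := by
    rw [← (Equiv.inv (GZ k)).tsum_eq]
    simp [Quot.sum]
  simp only []
  rw [tsum_mul_right, ← Complex.ofReal_tsum, ← ENNReal.tsum_toReal_eq fun _ => wt_ne_top _, h4]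
  simp

lemma enorm_int {α : Type} [MeasurableSpace α] {μ : Measure α} {f : α → ℝ≥0∞} (hf : Measurable f)
    (h : ∫⁻ x, f x ∂μ ≠ ⊤) : ‖∫ x, (((f x).toReal : ℝ) : ℂ) ∂μ‖ₑ = ∫⁻ x, f x ∂μ := by
  rw [integral_complex_ofReal, integral_toReal hf.aemeasurable (ae_lt_top hf h),
    ← ofReal_norm, Complex.norm_real, Real.norm_of_nonneg ENNReal.toReal_nonneg,
    ENNReal.ofReal_toReal h]

lemma enorm_tsum_le {ι : Type} (f : ι → ℂ) : ‖∑' i, f i‖ₑ ≤ ∑' i, ‖f i‖ₑ := enorm_tsum_le_tsum_enorm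

lemma ag {A : ℝ} (hA : 0 < A) (x y : ℂ) :
    ‖x‖ₑ * ‖y‖ₑ ≤ ENNReal.ofReal (A / 2) * ‖x‖ₑ ^ 2 + ENNReal.ofReal (1 / (2 * A)) * ‖y‖ₑ ^ 2 := by
  rw [← ofReal_norm, ← ofReal_norm, ← ENNReal.ofReal_mul (norm_nonneg _),
    ← ENNReal.ofReal_pow (norm_nonneg _), ← ENNReal.ofReal_pow (norm_nonneg _),
    ← ENNReal.ofReal_mul (by positivity), ← ENNReal.ofReal_mul (by positivity),
    ← ENNReal.ofReal_add (by positivity) (by positivity)]
  refine ENNReal.ofReal_le_ofReal ?_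
  have h : A / 2 * ‖x‖ ^ 2 + 1 / (2 * A) * ‖y‖ ^ 2 - ‖x‖ * ‖y‖ = (A * ‖x‖ - ‖y‖) ^ 2 / (2 * A) := by
    field_simp; ring
  have h2 : 0 ≤ (A * ‖x‖ - ‖y‖) ^ 2 / (2 * A) := by positivity
  linarith

/-- the pairing with a Poincare series -/
lemma poinc (hT : TileStmt) {β F : G k → ℂ} (hβ : Measurable β) (hF : Measurable F) (hz : ZInv F)
    {s : G k → ℝ≥0∞} (hs1 : ∀ (γ : GZ k) g, β (iz γ * g) ≠ 0 → 1 ≤ s g)
    (h1 : ∫⁻ g, wS (UZ k) g * ‖F g * conj (β g)‖ₑ ∂mu k ≠ ⊤) (h2 : ∑' γ, JA β γ ≠ ⊤) {A : ℝ}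
    (hA : 0 < A) :
    ‖∫ g, ((wS (UZ k) g).toReal : ℂ) * (F g * conj (β g)) ∂mu k‖ₑ ≤
      ENNReal.ofReal (A / 2) * QI k (fun g => s g * ‖F g‖ₑ ^ 2) +
        ENNReal.ofReal (1 / (2 * A)) * ‖∑' γ, JT β γ‖ₑ := by
  set b : G k → ℂ := fun g => ((wS (UZ k) g).toReal : ℂ) * β g with hb
  have hbm : Measurable b := (meas_toR (hT.meas k _)).mul hβ
  have hbn : ∀ g, ‖b g‖ₑ = wS (UZ k) g * ‖β g‖ₑ := fun g => enorm_toReal_mul (wS_ne_top hT _ g) _
  set P : G k → ℂ := fun g => ∑' γ : GZ k, b (iz γ * g) with hP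
  have hPm : Measurable P := Measurable.tsum fun γ => hbm.comp (measurable_const_mul _)
  have hPz : ∀ (δ : GZ k) g, P (iz δ * g) = P g := fun δ g => by
    simp only [hP]
    rw [← (Equiv.mulRight δ).tsum_eq fun γ => b (iz γ * g)]
    simp [mul_assoc]
  have hcP : ∀ g, ∑' γ : GZ k, conj (b (iz γ * g)) = conj (P g) := fun g =>
    (Complex.conj_tsum _).symm
  have e1 : ∫ g, ((wS (UZ k) g).toReal : ℂ) * (F g * conj (β g)) ∂mu k =
      ∫ g, ((wt g).toReal : ℂ) * (F g * conj (P g)) ∂mu k := by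
    have e : ∀ g, ((wS (UZ k) g).toReal : ℂ) * (F g * conj (β g)) = F g * conj (b g) := fun g => by
      simp only [hb, map_mul, Complex.conj_ofReal]; ring
    have h1' : ∫⁻ g, ‖F g * conj (b g)‖ₑ ∂mu k ≠ ⊤ := by
      simp_rw [← e, enorm_toReal_mul (wS_ne_top hT _ _)]; exact h1
    simp_rw [e]
    rw [cfold (hF.fun_mul (meas_conj hbm)) h1']
    simp only [hz _ _, tsum_mul_left, hcP]
  have hJA : ∀ γ, JA β γ = ∫⁻ h, ‖b (iz γ * h) * conj (b h)‖ₑ ∂mu k := fun γ => by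
    simp only [JA, enorm_mul, enorm_conj, hbn]
  have hm : ∀ γ : GZ k, Measurable fun h => b (iz γ * h) * conj (b h) := fun γ =>
    (hbm.comp (measurable_const_mul _)).mul (meas_conj hbm)
  have e2 : ∑' γ, JT β γ = ∫ h, P h * conj (b h) ∂mu k := by
    simp only [hP, ← tsum_mul_right]
    rw [integral_tsum (fun γ => (hm γ).aestronglyMeasurable) (by simp_rw [← hJA]; exact h2)]
    rfl
  have h3 : ∫⁻ h, ‖P h * conj (b h)‖ₑ ∂mu k ≠ ⊤ := by
    refine ne_top_of_le_ne_top h2 ?_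
    simp_rw [hJA]
    rw [← lintegral_tsum fun γ => (hm γ).enorm.aemeasurable]
    refine lintegral_mono fun h => ?_
    simp only [hP, ← tsum_mul_right]
    exact enorm_tsum_le _
  have hq : Measurable fun g => wt g * ‖P g‖ₑ ^ 2 := Quot.meas.mul (hPm.enorm.pow_const 2)
  have h4 : ∫⁻ g, wt g * ‖P g‖ₑ ^ 2 ∂mu k ≠ ⊤ := by
    refine ne_top_of_le_ne_top h3 ?_
    rw [Quot.fold _ (hPm.fun_mul (meas_conj hbm)).enorm, QI]
    refine lintegral_mono fun g => mul_le_mul_right ?_ _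
    refine le_trans (le_of_eq ?_) (enorm_tsum_le _)
    simp only [hPz, tsum_mul_left, hcP, enorm_mul, enorm_conj, sq]
  have e3 : ‖∑' γ, JT β γ‖ₑ = ∫⁻ g, wt g * ‖P g‖ₑ ^ 2 ∂mu k := by
    rw [e2, cfold (hPm.fun_mul (meas_conj hbm)) h3, ← enorm_int hq h4]
    congr 2
    ext g
    simp only [hPz, tsum_mul_left, hcP, Complex.mul_conj, Complex.normSq_eq_norm_sq,
      ENNReal.toReal_mul, ENNReal.toReal_pow, toReal_enorm]
    push_cast; rfl
  rw [e1, e3, QI, ← lintegral_const_mul' _ _ ENNReal.ofReal_ne_top,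
    ← lintegral_const_mul' _ _ ENNReal.ofReal_ne_top, ← lintegral_add_right _ (hq.const_mul _)]
  refine (enorm_integral_le_lintegral_enorm _).trans (lintegral_mono fun g => ?_)
  simp only []
  rw [enorm_toReal_mul (wt_ne_top g), enorm_mul, enorm_conj, mul_left_comm _ (wt g),
    mul_left_comm _ (wt g), ← mul_add]
  refine mul_le_mul_right ?_ _
  by_cases h0 : P g = 0
  · simp [h0]
  · have : ∃ γ : GZ k, β (iz γ * g) ≠ 0 := by
      by_contra hc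
      push Not at hc
      exact h0 (by simp [hP, hb, hc])
    obtain ⟨γ, hγ⟩ := this
    refine (ag hA _ _).trans (add_le_add_left (mul_le_mul_right ?_ _) _)
    exact le_mul_of_one_le_left' (hs1 γ g hγ)

open Classical in
/-- symmetrisation -/
lemma amgm (hT : TileStmt) {β : G k → ℂ} (hβ : Measurable β) {om : G k → ℝ≥0∞}
    (hom : Measurable om) (h1 : ∀ g, β g ≠ 0 → 1 ≤ om g) (p : GZ k → Prop)
    (hp : ∀ γ, p γ⁻¹ ↔ p γ) :
    ∑' γ, (if p γ then JA β γ else 0) ≤ ∫⁻ h, wS (UZ k) h * (‖β h‖ₑ ^ 2 *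
      ∑' γ : GZ k, if p γ then wS (UZ k) (iz γ * h) * om (iz γ * h) else 0) ∂mu k := by
  have ha := hT.meas k (UZ k)
  set Q : GZ k → ℝ≥0∞ := fun γ => ∫⁻ h, wS (UZ k) h * (‖β h‖ₑ ^ 2 *
    (wS (UZ k) (iz γ * h) * om (iz γ * h))) ∂mu k with hQ
  have hm : ∀ γ : GZ k, Measurable fun h => wS (UZ k) h * (‖β h‖ₑ ^ 2 *
      (wS (UZ k) (iz γ * h) * om (iz γ * h))) := fun γ =>
    ha.mul ((hβ.enorm.pow_const 2).mul ((ha.mul hom).comp (measurable_const_mul _)))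
  have e1 : ∫⁻ h, wS (UZ k) h * (‖β h‖ₑ ^ 2 *
      ∑' γ : GZ k, if p γ then wS (UZ k) (iz γ * h) * om (iz γ * h) else 0) ∂mu k =
      ∑' γ, if p γ then Q γ else 0 := by
    simp_rw [← ENNReal.tsum_mul_left]
    rw [lintegral_tsum fun γ => ?_]
    · refine tsum_congr fun γ => ?_
      split_ifs <;> simp [hQ]
    · split_ifs
      · exact (hm γ).aemeasurable
      · simp
  have e2 : ∀ γ, 2 * JA β γ ≤ Q γ + Q γ⁻¹ := fun γ => by
    have e : Q γ⁻¹ = ∫⁻ h, wS (UZ k) (iz γ * h) * (‖β (iz γ * h)‖ₑ ^ 2 *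
        (wS (UZ k) h * om h)) ∂mu k := by
      simp only [hQ]
      rw [← lintegral_mul_left_eq_self _ (iz γ)]
      simp
    rw [e, JA, ← lintegral_const_mul' _ _ (by simp), hQ, ← lintegral_add_left (hm γ)]
    refine lintegral_mono fun h => ?_
    simp only []
    by_cases h0 : β h = 0
    · simp [h0]
    by_cases h0' : β (iz γ * h) = 0
    · simp [h0']
    have h2 : 2 * (‖β (iz γ * h)‖ₑ * ‖β h‖ₑ) ≤ ‖β h‖ₑ ^ 2 + ‖β (iz γ * h)‖ₑ ^ 2 := by
      have := ag one_pos (β (iz γ * h)) (β h)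
      have e2 : ENNReal.ofReal (1 / 2) = 2⁻¹ := by
        rw [one_div, ENNReal.ofReal_inv_of_pos two_pos, ENNReal.ofReal_ofNat]
      rw [mul_one, e2, ← mul_add] at this
      refine (mul_le_mul_right this _).trans (le_of_eq ?_)
      rw [← mul_assoc, ENNReal.mul_inv_cancel (by simp) (by simp), one_mul, add_comm]
    calc _ = wS (UZ k) h * wS (UZ k) (iz γ * h) * (2 * (‖β (iz γ * h)‖ₑ * ‖β h‖ₑ)) := by ring
      _ ≤ wS (UZ k) h * wS (UZ k) (iz γ * h) *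
          (‖β h‖ₑ ^ 2 * om (iz γ * h) + ‖β (iz γ * h)‖ₑ ^ 2 * om h) :=
        mul_le_mul_right (h2.trans (add_le_add (le_mul_of_one_le_right' (h1 _ h0'))
          (le_mul_of_one_le_right' (h1 _ h0)))) _
      _ = _ := by ring
  have e3 : ∑' γ, (if p γ then Q γ⁻¹ else 0) = ∑' γ, if p γ then Q γ else 0 := by
    rw [← (Equiv.inv (GZ k)).tsum_eq]
    simp [hp]
  rw [e1, ← ENNReal.mul_le_mul_iff_right (a := 2) (by simp) (by simp), two_mul (∑' γ, if p γ then Q γ else 0)]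
  nth_rewrite 2 [← e3]
  rw [← ENNReal.tsum_add, ← ENNReal.tsum_mul_left]
  refine ENNReal.tsum_le_tsum fun γ => ?_
  split_ifs
  · exact e2 γ
  · simp

/-- weighted sums against sums over reduced representatives -/
lemma wsum (hT : TileStmt) (h : G k) (f φ : GZ k → ℝ≥0∞)
    (hf : ∀ γ, f γ ≤ ∑' δ : UZ k, φ (δ.1 * γ)) :
    ∑' γ : GZ k, wS (UZ k) (iz γ * h) * f γ ≤ ∑' γ, φ γ := by
  calc _ ≤ ∑' γ : GZ k, ∑' δ : UZ k, wS (UZ k) (iz γ * h) * φ (δ.1 * γ) :=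
        ENNReal.tsum_le_tsum fun γ => by
          rw [ENNReal.tsum_mul_left]; exact mul_le_mul_right (hf γ) _
    _ = ∑' δ : UZ k, ∑' γ : GZ k, wS (UZ k) (iz (δ⁻¹).1 * (iz γ * h)) * φ γ := by
        rw [ENNReal.tsum_comm]
        refine tsum_congr fun δ => ?_
        rw [← (Equiv.mulLeft δ.1).tsum_eq fun γ => wS (UZ k) (iz (δ⁻¹).1 * (iz γ * h)) * φ γ]
        simp [mul_assoc]
    _ = _ := by
        rw [ENNReal.tsum_comm]
        refine tsum_congr fun γ => ?_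
        have e := (Equiv.inv (UZ k)).tsum_eq fun δ : UZ k => wS (UZ k) (iz δ.1 * (iz γ * h))
        rw [hT.sum] at e
        rw [ENNReal.tsum_mul_right]
        exact (congrArg (· * φ γ) e).trans (one_mul _)

end B

end Pool.Agent.Lib.MP_fa98d2_nt.D
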