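import Pool.Agent.Lib.MP_fa98d2_nt.D.Inj
import Pool.Agent.Lib.MP_fa98d2_nt.B.Poi

/-! Density theorem with off-diagonal terms: the mean square bound on the localised region. -/

open MeasureTheory Filter Topology Matrix
open scoped ENNReal Real ComplexConjugate

noncomputable section

namespace Pool.Agent.Lib.MP_fa98d2_nt.D

namespace B

open Inj

variable {k N : ℕ}

lemma psi_int (m : Fin k → ℤ) (δ : GZ (k + 1)) : psi (zv m) (iz δ) = 1 := by
  have : ∑ i, zv m i * (iz δ).val i.castSucc i.succ =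
      ((∑ i, m i * δ.val i.castSucc i.succ : ℤ) : ℝ) := by
    simp [zv, val_iz]
  rw [psi, this, ee_int]

lemma enorm_psi (m : Fin k → ℝ) (u : G (k + 1)) : ‖psi m u‖ₑ = 1 := by
  rw [← ofReal_norm, psi, norm_ee, ENNReal.ofReal_one]

lemma yv_pos {T m : ℝ} (hT : 0 < T) (hm : 0 < m) (i : Fin (N + 2)) : 0 < yv N T m i := by
  unfold yv; split_ifs <;> positivity

lemma om_conj {T : ℝ} (hT : 0 < T) (m : ℕ+) (δ : ℝ) (g : G (N + 2)) :
    g ∈ Om (up (dg (tT (N + 1) T))) δ ↔
      (dg (tm (m1 N m)))⁻¹ * g ∈ Om (dg (yv N T (m : ℕ))) δ := by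
  have hm : (0 : ℝ) < (m : ℕ) := by exact_mod_cast m.pos
  have han : ∀ i, tm (m1 N m) i ≠ 0 := fun i => (tm_pos m i).ne'
  have e : up (dg (tT (N + 1) T)) = dg (tm (m1 N m)) * dg (yv N T (m : ℕ)) := by
    rw [up_dg (a := tT (N + 1) T) fun i => (pow_pos hT _).ne', dg_mul han fun i => (yv_pos hT hm i).ne']
    congr 1
    ext i
    rw [tm_m1, yv]
    refine Fin.lastCases ?_ (fun i => ?_) i
    · simp [Fin.last_pos.ne']
    · simp only [Fin.snoc_castSucc, tT, Fin.val_castSucc]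
      split_ifs with h0
      · have : i.val = 0 := by simpa using congrArg Fin.val h0
        rw [this, Nat.sub_zero]; field_simp
      · rw [one_mul]
  rw [e]
  constructor
  · rintro ⟨u, hu, x, hx, rfl⟩
    refine ⟨(dg (tm (m1 N m)))⁻¹ * u * dg (tm (m1 N m)), ?_, x, hx, by group⟩
    have := isU_conj (fun i => inv_ne_zero (han i)) hu
    rwa [← dg_inv han, inv_inv] at this
  · rintro ⟨u, hu, x, hx, h⟩
    refine ⟨dg (tm (m1 N m)) * u * (dg (tm (m1 N m)))⁻¹, isU_conj han hu, x, hx, ?_⟩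
    rw [inv_mul_eq_iff_eq_mul] at h
    rw [h]; group

open Classical in
/-- the analytic part: a bound for the number of relevant elements gives the mean square bound -/
lemma core_an (hQ : QuotStmt) (hW : WhStmt) (hTi : TileStmt) (hV : VanStmt)
    (m : Fin k → ℤ) {F : G (k + 1) → ℂ} (hF : Aut F) {Ω K : Set (G (k + 1))}
    (hΩ : MeasurableSet Ω) (hU : ∀ u, IsU u → ∀ g, u * g ∈ Ω ↔ g ∈ Ω) (hK : IsCompact K)
    (hΩK : ∀ g ∈ Ω, ∃ δ ∈ UZ (k + 1), iz δ * g ∈ K) {c c' : ℝ} (hc : 0 < c) (hcc : c ≤ c')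
    (hd : ∀ g ∈ Ω, c ≤ dt g ∧ dt g ≤ c') {A : ℝ} (hA : 0 < A)
    (hn : ∀ x : X (k + 1), sg (k + 1) x ∈ Ω → ∫⁻ y, (∑' γ : GZ (k + 1), if Rel m γ then
      wS (UZ (k + 1)) (iz γ * (un (k + 1) y * sg (k + 1) x)) *
        Ω.indicator 1 (iz γ * (un (k + 1) y * sg (k + 1) x)) else 0) ∂cY (k + 1) ≤
      ENNReal.ofReal A) :
    II (k + 1) (fun g => Ω.indicator 1 g * ‖Wf m F g‖ₑ ^ 2) ≤
      ENNReal.ofReal (A * (Real.log (c' / c) / Real.log 2)) * N2 F := by
  set W := Wf m F with hWd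
  have hWc : Continuous W := hW.cont _ _ _ hF.cont
  have hWe : Eqv (zv m) W := hW.eqv _ m F hF.cont fun γ _ g => hF.zinv γ g
  set β : G (k + 1) → ℂ := Ω.indicator W with hβ
  set om : G (k + 1) → ℝ≥0∞ := Ω.indicator 1 with hom
  set a := wS (UZ (k + 1)) with ha
  have ham : Measurable a := hTi.meas _ _
  have hβm : Measurable β := hWc.measurable.indicator hΩ
  have homm : Measurable om := measurable_one.indicator hΩ
  have hβe : Eqv (zv m) β := fun u hu g => by
    by_cases h : g ∈ Ω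
    · rw [hβ, Set.indicator_of_mem h, Set.indicator_of_mem ((hU u hu g).2 h), hWe u hu]
    · rw [hβ, Set.indicator_of_notMem h, Set.indicator_of_notMem fun h' => h ((hU u hu g).1 h'),
        mul_zero]
  have hβn : ∀ u, IsU u → ∀ g, ‖β (u * g)‖ₑ = ‖β g‖ₑ := fun u hu g => by
    rw [hβe u hu, enorm_mul, enorm_psi, one_mul]
  have hβz : ∀ γ : GZ (k + 1), IsU (iz γ) → ∀ g, β (iz γ * g) = β g := fun γ h g => by
    rw [hβe _ h, psi_int, one_mul]
  have hβ0 : ∀ g, β g ≠ 0 → g ∈ Ω := fun g h => Set.mem_of_indicator_ne_zero h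
  have hβ1 : ∀ g, β g ≠ 0 → 1 ≤ om g := fun g h => by
    rw [hom, Set.indicator_of_mem (hβ0 g h)]; exact le_rfl
  have e0 : ∀ g, om g * ‖W g‖ₑ ^ 2 = ‖β g‖ₑ ^ 2 := fun g => by
    by_cases h : g ∈ Ω <;> simp [hom, hβ, h]
  simp only [e0]
  set I := II (k + 1) fun g => ‖β g‖ₑ ^ 2 with hI
  have hb2 : Measurable fun g => ‖β g‖ₑ ^ 2 := hβm.enorm.pow_const 2
  have eI : ∫⁻ g, a g * ‖β g‖ₑ ^ 2 ∂mu (k + 1) = I := by
    rw [hTi.unf _ _ hb2 fun γ h g => by simp only [hβz γ h]]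
    simp only [hβn _ (isU_un _ _), lintegral_const, measure_univ, mul_one, hI]
  have homK : ∀ g, om g ≤ ∑' δ : UZ (k + 1), K.indicator (1 : G (k + 1) → ℝ≥0∞) (iz δ.1 * g) :=
    fun g => by
      by_cases h : g ∈ Ω
      · obtain ⟨δ, hδ, h'⟩ := hΩK g h
        refine le_trans ?_ (ENNReal.le_tsum (⟨δ, hδ⟩ : UZ (k + 1)))
        simp [hom, h, h']
      · simp [hom, h]
  have hfin : ∫⁻ g, a g * om g ∂mu (k + 1) ≠ ⊤ := by
    refine ne_top_of_le_ne_top (hK.measure_lt_top (μ := mu (k + 1))).ne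
      ((lintegral_mono fun g => mul_le_mul_right (homK g) _).trans (le_of_eq ?_))
    rw [Quot.unfold (fun δ : UZ (k + 1) => iz δ.1) ham (measurable_one.indicator hK.measurableSet),
      ← lintegral_indicator_one hK.measurableSet]
    refine lintegral_congr fun g => ?_
    have e := (Equiv.inv (UZ (k + 1))).tsum_eq fun δ : UZ (k + 1) => a (iz δ.1 * g)
    rw [ha, hTi.sum] at e
    simp only [Equiv.inv_apply, InvMemClass.coe_inv, map_inv] at e
    rw [ha, e, one_mul]
  have hbd : ∀ f : G (k + 1) → ℂ, Continuous f → UZInv f →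
      ∫⁻ g, a g * ‖f g * conj (β g)‖ₑ ∂mu (k + 1) ≠ ⊤ := fun f hf hz => by
    obtain ⟨C, hC⟩ := hK.exists_bound_of_continuousOn
      (hf.mul (Complex.continuous_conj.comp hWc)).continuousOn
    refine ne_top_of_le_ne_top (ENNReal.mul_ne_top (ENNReal.ofReal_ne_top (r := C)) hfin) ?_
    rw [← lintegral_const_mul' _ _ ENNReal.ofReal_ne_top]
    refine lintegral_mono fun g => ?_
    simp only []
    rw [mul_left_comm]
    refine mul_le_mul_right ?_ _
    by_cases h : g ∈ Ω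
    · obtain ⟨δ, hδ, h'⟩ := hΩK g h
      have h2 := hC _ h'
      simp only [Pi.mul_apply, Function.comp_apply] at h2
      rw [hz δ hδ, hWe _ hδ, psi_int, one_mul] at h2
      rw [hom, hβ, Set.indicator_of_mem h, Set.indicator_of_mem h, Pi.one_apply, mul_one,
        ← ofReal_norm]
      exact ENNReal.ofReal_le_ofReal h2
    · simp [hβ, h]
  have hIf : I ≠ ⊤ := by
    have h := hbd W hWc fun γ h g => by rw [hWe _ h, psi_int, one_mul]
    rw [← eI]
    refine ne_top_of_le_ne_top h (lintegral_mono fun g => mul_le_mul_right ?_ _)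
    by_cases h : g ∈ Ω <;> simp [hβ, h, sq]
  have hF1 := hbd F hF.cont fun γ _ g => hF.zinv γ g
  have hJA : ∑' γ, JA β γ ≠ ⊤ := by
    obtain ⟨M, hM, hM'⟩ := hTi.fin _ K hK
    have h := amgm hTi hβm homm hβ1 (fun _ => True) fun _ => Iff.rfl
    simp only [if_true] at h
    refine ne_top_of_le_ne_top (ENNReal.mul_ne_top hIf hM) (h.trans ?_)
    rw [← eI, ← lintegral_mul_const' _ _ hM]
    refine lintegral_mono fun g => ?_
    simp only []
    rw [mul_assoc]
    refine mul_le_mul_right (mul_le_mul_right (le_trans ?_ (hM' g)) _) _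
    exact wsum hTi g _ _ fun γ => by simpa only [map_mul, mul_assoc] using homK (iz γ * g)
  have e1 : ‖∫ g, ((a g).toReal : ℂ) * (F g * conj (β g)) ∂mu (k + 1)‖ₑ = I := by
    rw [hTi.unfC _ _ (hF.cont.measurable.fun_mul (meas_conj hβm))
      (fun γ h g => by simp only [hF.zinv γ g, hβz γ h]) hF1.lt_top, hI, II,
      ← enorm_int (f := fun x => ‖β (sg (k + 1) x)‖ₑ ^ 2) (hb2.comp (measurable_sg _)) hIf]
    congr 2
    ext x
    have : ∀ y, F (un (k + 1) y * sg (k + 1) x) * conj (β (un (k + 1) y * sg (k + 1) x)) =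
        conj (psi (zv m) (un (k + 1) y)) * F (un (k + 1) y * sg (k + 1) x) *
          conj (β (sg (k + 1) x)) := fun y => by
      rw [hβe _ (isU_un _ _), map_mul]; ring
    simp only [this]
    rw [integral_mul_const, ← hW.repr _ m F hF.cont, ← hWd]
    by_cases h : sg (k + 1) x ∈ Ω <;>
      simp [hβ, h, Complex.mul_conj, Complex.normSq_eq_norm_sq]
  have e2 : ‖∑' γ, JT β γ‖ₑ ≤ ENNReal.ofReal A * I := by
    have hJ : ∀ γ, ‖JT β γ‖ₑ ≤ JA β γ := fun γ => by
      refine (enorm_integral_le_lintegral_enorm _).trans (le_of_eq ?_)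
      simp only [JA, enorm_mul (_ * β _), enorm_conj, enorm_toReal_mul (wS_ne_top hTi _ _)]
    have hs : ∀ f : GZ (k + 1) → ℂ, (∀ γ, f γ = JT β γ ∨ f γ = 0) → Summable f := fun f hf => by
      refine Summable.of_enorm (ne_top_of_le_ne_top hJA (ENNReal.tsum_le_tsum fun γ => ?_))
      rcases hf γ with h | h <;> rw [h]
      · exact hJ γ
      · simp
    have e : ∑' γ, JT β γ = ∑' γ, if Rel m γ then JT β γ else 0 := by
      have h0 := hV.van _ m β hβm hβe hJA
      have h1 := hs (fun γ => if Rel m γ then JT β γ else 0) fun γ => by split_ifs <;> simp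
      have h2 := hs (fun γ => if Rel m γ then 0 else JT β γ) fun γ => by split_ifs <;> simp
      have h3 := h1.tsum_add h2
      rw [h0, add_zero] at h3
      rw [← h3]
      refine tsum_congr fun γ => ?_
      split_ifs <;> simp
    set n : G (k + 1) → ℝ≥0∞ := fun h =>
      ∑' γ : GZ (k + 1), if Rel m γ then a (iz γ * h) * om (iz γ * h) else 0 with hnd
    have hnm : Measurable n := Measurable.tsum fun γ => by
      split_ifs
      · exact (ham.mul homm).comp (measurable_const_mul _)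
      · exact measurable_const
    have hnz : UZInv n := fun δ hδ h => by
      simp only [hnd]
      rw [← (Equiv.mulRight δ).tsum_eq fun γ =>
        if Rel m γ then a (iz γ * h) * om (iz γ * h) else 0]
      simp [hV.right _ m _ δ hδ, mul_assoc]
    calc _ ≤ ∑' γ, if Rel m γ then JA β γ else 0 := by
          rw [e]
          refine (enorm_tsum_le _).trans (ENNReal.tsum_le_tsum fun γ => ?_)
          split_ifs
          · exact hJ γ
          · simp
      _ ≤ _ := amgm hTi hβm homm hβ1 _ (hV.inv _ m)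
      _ = II (k + 1) fun g => ∫⁻ y, ‖β (un (k + 1) y * g)‖ₑ ^ 2 * n (un (k + 1) y * g)
          ∂cY (k + 1) := hTi.unf _ (fun h => ‖β h‖ₑ ^ 2 * n h) (hb2.mul hnm) fun γ h g => by
            simp only [hβz γ h, hnz γ h g]
      _ ≤ _ := by
          rw [hI, II, II, ← lintegral_const_mul' _ _ ENNReal.ofReal_ne_top]
          refine lintegral_mono fun x => ?_
          simp only [hβn _ (isU_un _ _)]
          rw [lintegral_const_mul' _ _ (by simp), mul_comm]
          by_cases h : β (sg (k + 1) x) = 0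
          · simp [h]
          · exact mul_le_mul_left (hn x (hβ0 _ h)) _
  have hFm : Measurable fun g => ‖F g‖ₑ ^ 2 := hF.cont.measurable.enorm.pow_const 2
  have key := poinc hTi hβm hF.cont.measurable hF.zinv (s := Shl c c') (fun γ g h => by
    have h2 := hd _ (hβ0 _ h)
    rw [dt_mul, dt_iz, one_mul] at h2
    rw [Shl, if_pos h2]) hF1 hJA hA
  rw [e1, hQ.shell _ _ hFm (fun γ g => by simp only [hF.zinv γ g])
    (fun t ht g => by simp only [hF.sinv t ht g]) _ _ hc hcc] at key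
  have hl : 0 ≤ Real.log (c' / c) / Real.log 2 :=
    div_nonneg (Real.log_nonneg ((one_le_div hc).2 hcc)) (Real.log_pos one_lt_two).le
  have e3 : ENNReal.ofReal (1 / (2 * A)) * (ENNReal.ofReal A * I) = 2⁻¹ * I := by
    rw [← mul_assoc, ← ENNReal.ofReal_mul (by positivity),
      show 1 / (2 * A) * A = 2⁻¹ by field_simp, ENNReal.ofReal_inv_of_pos two_pos,
      ENNReal.ofReal_ofNat]
  have key2 := key.trans (add_le_add_right ((mul_le_mul_right e2 _).trans e3.le) _)
  have e4 : I = 2⁻¹ * I + 2⁻¹ * I := by rw [← add_mul, ENNReal.inv_two_add_inv_two, one_mul]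
  nth_rewrite 1 [e4] at key2
  have key3 := (ENNReal.add_le_add_iff_right (ENNReal.mul_ne_top (by simp) hIf)).1 key2
  calc I = 2 * (2⁻¹ * I) := by
        rw [← mul_assoc, ENNReal.mul_inv_cancel (by simp) (by simp), one_mul]
    _ ≤ _ := mul_le_mul_right key3 _
    _ = _ := by
        rw [← mul_assoc, ← mul_assoc, ← ENNReal.ofReal_ofNat, ← ENNReal.ofReal_mul (by norm_num),
          ← ENNReal.ofReal_mul (by positivity), N2]
        congr 2; ring

open Classical in
theorem injB (hH : HaarStmt) (hQ : QuotStmt) (hW : WhStmt) (hL : Loc0Stmt) (hTi : TileStmt)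
    (hTr : TriStmt) (hV : VanStmt) (hC : ClsStmt) (hN : CntStmt) : InjBStmt := by
  intro N ε hε
  obtain ⟨Cu, hCu, hul⟩ := hTr.ul (N + 2)
  obtain ⟨Cd, hCd0, hCd⟩ := hL.det (N + 2)
  obtain ⟨c0, hc0, hcls⟩ := hC N
  obtain ⟨Cn, hCn, hcnt⟩ := hN N ε hε
  have hl2 : 0 < Real.log 2 := Real.log_pos one_lt_two
  have hN0 : (0 : ℝ) ≤ N := Nat.cast_nonneg N
  set E : ℝ := (N + 2) * (6 * Cu) with hE
  have hE1 : 1 ≤ E := by nlinarith
  refine ⟨1 / (2 * E), min c0 1 / E ^ (N + 1), (1 + Cn) * (2 * Cd / Real.log 2 + 1),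
    by positivity, by positivity, by positivity, fun T hT δ hδ1 hδ2 m hm F hF => ?_⟩
  have hT0 : 0 < T := by linarith
  have hδ0 : 0 < δ := lt_of_lt_of_le (by positivity) hδ1
  rw [le_div_iff₀ (by positivity)] at hδ2
  rw [div_le_iff₀ hT0] at hδ1
  have hm0 : (0 : ℝ) < (m : ℕ) := by exact_mod_cast m.pos
  set e' : ℝ := E * δ with he
  have he0 : 0 < e' := by positivity
  have he2 : 2 * e' ≤ 1 := by linarith
  have heT : 1 ≤ e' * T := by nlinarith
  have hme : ((m : ℕ) : ℝ) * e' ^ (N + 1) ≤ min c0 1 * T ^ (N + 1) := by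
    refine (mul_le_mul_of_nonneg_right hm (by positivity)).trans (le_of_eq ?_)
    rw [he, mul_pow E, div_pow]; field_simp
  have hb2 : 2 * (Cu * δ) * (2 * ((N + 2 : ℕ) : ℝ) + 2) ≤ 1 := by
    have : 0 ≤ Cu * δ := by positivity
    push_cast; nlinarith
  have hb1 : Cu * δ * (2 * ((N + 2 : ℕ) : ℝ) + 2) ≤ 1 := by
    have : 0 ≤ Cu * δ * (2 * ((N + 2 : ℕ) : ℝ) + 2) := by positivity
    linarith
  have hb0 : δ * (2 * ((N + 2 : ℕ) : ℝ) + 2) ≤ 1 := by
    have : 0 ≤ δ * (2 * ((N + 2 : ℕ) : ℝ) + 2) := by positivity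
    nlinarith
  set a := tm (m1 N m) with ha
  have hap : ∀ i, 0 < a i := tm_pos m
  have han : ∀ i, a i ≠ 0 := fun i => (hap i).ne'
  set y := yv N T (m : ℕ) with hy
  set Ω := Om (dg y) δ with hΩ
  have hΩm : MeasurableSet Ω := (hL.opn _ _ _).2.measurableSet
  set H : G (N + 2) → ℝ≥0∞ := fun g => Ω.indicator 1 g * ‖Wf (zm (m1 N m)) F g‖ₑ ^ 2 with hHd
  have hHm : Measurable H :=
    (measurable_one.indicator hΩm).mul ((hW.cont _ _ _ hF.cont).measurable.enorm.pow_const 2)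
  have hHU : UInv H := by
    intro u hu g
    have h1 := hW.eqv _ (zm (m1 N m)) F hF.cont (fun γ _ g => hF.zinv γ g) u hu g
    simp only [hHd, h1, enorm_mul, enorm_psi, one_mul, Set.indicator_apply, hΩ, om_iff hu,
      Pi.one_apply]
  have e1 : (fun g => (Om (up (dg (tT (N + 1) T))) δ).indicator 1 g *
      ‖Wf (zm (m1 N m)) F ((dg a)⁻¹ * g)‖ₑ ^ 2) = fun g => H (dg (fun i => (a i)⁻¹) * g) := by
    ext g
    simp only [hHd, ← dg_inv han, Set.indicator_apply, om_conj hT0 m δ g, Pi.one_apply]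
    rfl
  rw [e1, hH.iil _ H hHm hHU _ fun i => inv_pos.2 (hap i), ← mul_assoc,
    ← ENNReal.ofReal_mul (dl_pos hap).le, dl_inv hap, ENNReal.ofReal_one, one_mul]
  have hdec : ∀ g ∈ Ω, ∃ v b, IsU v ∧ Low b ∧ b ∈ Bl (N + 2) (Cu * δ) ∧ g = v * dg y * b := by
    rintro g ⟨u, hu, x, hx, rfl⟩
    obtain ⟨u', b, hu', hb, hb', rfl⟩ := hul δ hδ0 hb1 x hx
    exact ⟨u * (dg y * u' * (dg y)⁻¹), b, hu.mul (isU_conj (fun i => (yv_pos hT0 hm0 i).ne') hu'),
      hb, hb', by group⟩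
  have hdec2 : ∀ g ∈ Ω, ∃ d ∈ UZ (N + 2), ∃ v b, Cube v ∧ Low b ∧ b ∈ Bl (N + 2) (Cu * δ) ∧
      iz d * g = v * dg y * b := fun g hg => by
    obtain ⟨v, b, hv, hb, hb', rfl⟩ := hdec g hg
    obtain ⟨d, hd, hc⟩ := hTi.ex _ v hv
    exact ⟨d, hd, _, b, hc, hb, hb', by group⟩
  obtain ⟨K, hK, hK'⟩ := hTr.cpt _ (dg y) (Cu * δ) hb1
  have hTe : 1 ≤ T ^ ε := Real.one_le_rpow hT hε.le
  have hD := dt_pos (dg y)
  have hCδ : 0 ≤ Cd * δ := by positivity
  refine (core_an hQ hW hTi hV _ hF hΩm (fun u hu g => om_iff hu) hK (fun g hg => ?_)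
    (c := dt (dg y) * Real.exp (-(Cd * δ))) (c' := dt (dg y) * Real.exp (Cd * δ))
    (by positivity) (by gcongr; linarith) ?_ (A := 1 + Cn * T ^ ε) (by positivity)
    fun x hx => ?_).trans (mul_le_mul_left (ENNReal.ofReal_le_ofReal ?_) _)
  · obtain ⟨d, hd, v, b, hv, -, hb, e⟩ := hdec2 g hg
    exact ⟨d, hd, e ▸ hK' v b hv hb⟩
  · rintro g ⟨u, hu, x, hx, rfl⟩
    have h2 := abs_le.1 (hCd δ hb0 x hx)
    have h3 : Real.exp (-(Cd * δ)) ≤ dt x := (Real.le_log_iff_exp_le (dt_pos x)).1 h2.1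
    have h4 : dt x ≤ Real.exp (Cd * δ) := (Real.log_le_iff_le_exp (dt_pos x)).1 h2.2
    rw [dt_mul, dt_mul, hu.dt, one_mul]
    exact ⟨by gcongr, by gcongr⟩
  · obtain ⟨v, b, hv, hb, hb', e⟩ := hdec _ hx
    have hv1 : v = 1 := by
      refine hTr.lowU _ v hv ?_
      have : v = sg (N + 2) x * (dg y * b)⁻¹ := by rw [e]; group
      rw [this]
      have h1 := hTr.lowM _ _ _ (hTr.lowD _ y) hb
      exact (hTr.lowM _ _ _ (hTr.lowS _ x) (hTr.lowM _ _ _ h1.1 hb).2).1
    rw [hv1, one_mul] at e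
    rw [ENNReal.ofReal_add zero_le_one (by positivity), ENNReal.ofReal_one]
    refine le_trans ?_ (add_le_add_right (hcnt T e' (m : ℕ) he0 (by linarith) heT hm0
      (hme.trans (mul_le_of_le_one_left (by positivity) (min_le_right _ _)))) 1)
    refine le_trans (lintegral_mono fun z => ?_) ((lintegral_add_left (f := fun _ => 1)
      measurable_const _).trans (congrArg (· + _) (by simp))).le
    simp only []
    set u := un (N + 2) z with hu
    have huU : IsU u := isU_un _ _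
    refine (le_of_eq (tsum_congr fun γ => ?_)).trans ((wsum hTi (u * sg (N + 2) x)
      (fun γ => if Rel (zm (m1 N m)) γ then Ω.indicator 1 (iz γ * (u * sg (N + 2) x)) else 0)
      (fun γ => if Rel (zm (m1 N m)) γ ∧ Pos e' y γ u then 1 else 0) fun γ => ?_).trans ?_)
    · split_ifs <;> simp
    · split_ifs with hR
      swap
      · exact zero_le
      by_cases hγ : iz γ * (u * sg (N + 2) x) ∈ Ω
      swap
      · simp [hγ]
      obtain ⟨d, hd, v, b', hv, hb2', hb3, e2⟩ := hdec2 _ hγ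
      refine le_trans ?_ (ENNReal.le_tsum (⟨d, hd⟩ : UZ (N + 2)))
      have hxi := (hL.mul _ _ _ hb1 hb1 b hb' b hb').2
      have hxx := (hL.mul _ _ _ hb1 hb2 b' hb3 _ hxi).1
      have hlow : Low (b' * b⁻¹) := (hTr.lowM _ _ _ hb2' (hTr.lowM _ _ _ hb hb).2).1
      rw [show 2 * (Cu * δ + 2 * (Cu * δ)) = 6 * Cu * δ by ring] at hxx
      have hn := hTr.near N T (m : ℕ) (6 * Cu * δ) hT hm0 (by nlinarith) v _ hv hlow hxx
      have e3 : iz (d * γ) * u = v * (dg y * (b' * b⁻¹) * (dg y)⁻¹) := by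
        have : iz (d * γ) * u = iz d * (iz γ * (u * sg (N + 2) x)) * (dg y * b)⁻¹ := by
          rw [e, map_mul]; group
        rw [this, e2]; group
      rw [show ((N : ℝ) + 2) * (6 * Cu * δ) = e' by rw [he, hE]; ring, ← hy, ← e3] at hn
      have h1 := hTr.lowD _ y
      rw [if_pos ⟨(hV.left _ _ γ d hd).2 hR, hn.1, v, _, hv,
        (hTr.lowM _ _ _ (hTr.lowM _ _ _ h1 hlow).1 (hTr.lowM _ _ _ h1 h1).2).1, hn.2, e3⟩]
      simp [hγ]
    · have h1 : ∑' γ : GZ (N + 2), (if γ ∈ UZ (N + 2) ∧ Pos e' y γ u then (1 : ℝ≥0∞) else 0) ≤ 1 := by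
        have hc : ∀ γ : GZ (N + 2), γ ∈ UZ (N + 2) ∧ Pos e' y γ u → Cube (iz γ * u) := by
          rintro γ ⟨hγ, -, u', l, hu', hl, -, e2⟩
          have : l = 1 := hTr.lowU _ l (by
            rw [← inv_mul_eq_iff_eq_mul] at e2
            rw [← e2]
            exact hu'.1.inv.mul (IsU.mul hγ huU)) hl
          rwa [e2, this, mul_one]
        refine tsum_le_one _ _ (fun γ => by split_ifs <;> simp) fun γ γ' h h' => ?_
        have h2 := of_not_not (mt (if_neg (t := (1 : ℝ≥0∞)) (e := 0)) h)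
        have h3 := of_not_not (mt (if_neg (t := (1 : ℝ≥0∞)) (e := 0)) h')
        have := hTr.uniq _ (γ * γ'⁻¹) _ (mul_mem h2.1 (inv_mem h3.1)) (hc _ h3) (by
          rw [map_mul, map_inv, mul_assoc, inv_mul_cancel_left]; exact hc _ h2)
        exact mul_inv_eq_one.1 this
      refine le_trans ?_ (add_le_add_left h1 _)
      rw [← ENNReal.tsum_add]
      refine ENNReal.tsum_le_tsum fun γ => ?_
      by_cases h : Rel (zm (m1 N m)) γ ∧ Pos e' y γ u
      · rw [if_pos h]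
        rcases hcls T e' he0 he2 heT m (hme.trans (mul_le_mul_of_nonneg_right (min_le_left _ _)
          (by positivity))) γ u h.1 huU h.2.1 with h' | h'
        · rw [if_pos ⟨h', h.2⟩]; exact le_self_add
        · rw [if_pos (c := Wst γ ∧ _) ⟨h', h.2⟩]; exact le_add_self
      · rw [if_neg h]; exact zero_le
  · rw [mul_div_mul_left _ _ hD.ne', ← Real.exp_sub, Real.log_exp]
    have h1 : (Cd * δ - -(Cd * δ)) / Real.log 2 ≤ (2 * Cd / Real.log 2 + 1) * δ := by
      have : (Cd * δ - -(Cd * δ)) / Real.log 2 = 2 * Cd / Real.log 2 * δ := by ring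
      rw [this]; gcongr; linarith
    calc _ ≤ ((1 + Cn) * T ^ ε) * ((2 * Cd / Real.log 2 + 1) * δ) := by
          refine mul_le_mul (by linarith) h1 (div_nonneg (by linarith) hl2.le) (by positivity)
      _ = _ := by ring

end B

end Pool.Agent.Lib.MP_fa98d2_nt.D
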