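import Pool.Agent.Lib.MP_fa98d2_nt.B.Stm

/-! Density theorem with off-diagonal terms: Bruhat decomposition of relevant elements. -/

open MeasureTheory Filter Topology Matrix
open scoped ENNReal Real ComplexConjugate

noncomputable section

namespace Pool.Agent.Lib.MP_fa98d2_nt.D

namespace B

namespace Bru

variable {k : ℕ}

lemma exists_uq (A : Matrix (Fin k) (Fin k) ℚ)
    (h : ∀ i j, j ≤ i → A i j = if i = j then 1 else 0) :
    ∃ q : GQ k, q.val = A ∧ IsU (iq q) ∧ A.det = 1 := by
  have hd : A.det = 1 := by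
    rw [Matrix.det_of_isUpperTriangular fun i j hij => by
      have h' : j < i := hij
      rw [h i j h'.le, if_neg h'.ne']]
    exact Finset.prod_eq_one fun i _ => by rw [h i i le_rfl, if_pos rfl]
  refine ⟨Matrix.GeneralLinearGroup.mkOfDetNeZero A (by rw [hd]; exact one_ne_zero), rfl,
    fun i j hij => ?_, hd⟩
  change ((A i j : ℚ) : ℝ) = _
  rw [h i j hij]
  split_ifs <;> simp

lemma psi_conj (hW : WhStmt) (m : Fin k → ℝ) {a u : G (k + 1)} (ha : IsU a) (hu : IsU u) :
    psi m (a⁻¹ * u * a) = psi m u := by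
  have h1 : psi m (1 : G (k + 1)) = 1 := by
    simp [psi, Matrix.one_apply_ne (Fin.castSucc_lt_succ (i := _)).ne]
  have h2 := hW.psi_mul k m _ _ ha.inv ha
  rw [inv_mul_cancel, h1] at h2
  rw [hW.psi_mul k m _ _ (ha.inv.mul hu) ha, hW.psi_mul k m _ _ ha.inv hu]
  linear_combination (-psi m u) * h2

lemma ee_inj {x y : ℚ} (h : ∀ s : ℚ, ee ((s * x : ℚ) : ℝ) = ee ((s * y : ℚ) : ℝ)) : x = y := by
  by_contra hne
  have h0 : x - y ≠ 0 := sub_ne_zero.2 hne
  have h1 := h (1 / (2 * (x - y)))
  have e : (1 / (2 * (x - y)) * x : ℚ) = 1 / (2 * (x - y)) * y + 1 / 2 := by field_simp; ring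
  have h2 : ee (((1 / 2 : ℚ) : ℚ) : ℝ) = -1 := by
    rw [ee, ← Complex.exp_pi_mul_I]; congr 1; push_cast; ring
  rw [e, Rat.cast_add, ee_add, h2] at h1
  have h3 : ee ((1 / (2 * (x - y)) * y : ℚ) : ℝ) = 0 := by linear_combination (-1 / 2 : ℂ) * h1
  have := norm_ee ((1 / (2 * (x - y)) * y : ℚ) : ℝ)
  rw [h3, norm_zero] at this
  exact zero_ne_one this

lemma echelon (A : GQ k) : ∃ (q : GQ k) (lam : Equiv.Perm (Fin k)), IsU (iq q) ∧ q.val.det = 1 ∧
    (∀ j, (q * A).val j (lam j) ≠ 0) ∧ ∀ j i, i < lam j → (q * A).val j i = 0 := by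
  classical
  let P : Fin k → ℕ → Prop := fun j i => ∃ w : Fin k → ℚ, (w j = 1 ∧ ∀ l, l < j → w l = 0) ∧
    ∀ l : Fin k, l.val < i → (w ᵥ* A.val) l = 0
  have h0 : ∀ j, P j 0 := fun j => ⟨Pi.single j 1, ⟨by simp, fun l hl => by simp [hl.ne]⟩,
    fun l hl => absurd hl (Nat.not_lt_zero _)⟩
  have hk : ∀ j, ¬ P j k := by
    rintro j ⟨w, ⟨h1, -⟩, h2⟩
    have h3 : w ᵥ* A.val = 0 := funext fun l => h2 l l.isLt
    have := congrArg (· ᵥ* (A⁻¹).val) h3
    simp only [Matrix.vecMul_vecMul, ← Units.val_mul, mul_inv_cancel, Units.val_one,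
      Matrix.vecMul_one, Matrix.zero_vecMul] at this
    rw [this] at h1
    exact zero_ne_one h1
  have hs : ∀ j, P j (Nat.findGreatest (P j) k) := fun j =>
    Nat.findGreatest_spec (Nat.zero_le k) (h0 j)
  have hlt : ∀ j, Nat.findGreatest (P j) k < k := fun j =>
    lt_of_le_of_ne (Nat.findGreatest_le k) fun h => hk j (h ▸ hs j)
  let f : Fin k → Fin k := fun j => ⟨_, hlt j⟩
  have hmax : ∀ j (w : Fin k → ℚ), (w j = 1 ∧ ∀ l, l < j → w l = 0) →
      (∀ l, l < f j → (w ᵥ* A.val) l = 0) → (w ᵥ* A.val) (f j) ≠ 0 := fun j w h1 h2 h3 =>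
    Nat.findGreatest_is_greatest (Nat.lt_succ_self _) (hlt j) ⟨w, h1, fun l hl => by
      rcases (show l ≤ f j from Nat.lt_succ_iff.1 hl).eq_or_lt with h | h
      · rw [h, h3]
      · exact h2 l h⟩
  choose w hw hw' using hs
  have hne : ∀ j, (w j ᵥ* A.val) (f j) ≠ 0 := fun j => hmax j _ (hw j) (hw' j)
  have hinj : ∀ j j', j < j' → f j ≠ f j' := fun j j' hj e => by
    refine hmax j (w j - ((w j ᵥ* A.val) (f j) / (w j' ᵥ* A.val) (f j')) • w j')
      ⟨by simp [(hw j).1, (hw j').2 j hj], fun l hl => by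
        simp [(hw j).2 l hl, (hw j').2 l (hl.trans hj)]⟩ (fun l hl => ?_) ?_
    · simp [Matrix.sub_vecMul, Matrix.smul_vecMul, hw' j l hl, hw' j' l (show l < f j' from e ▸ hl)]
    · have := hne j'
      simp only [Matrix.sub_vecMul, Matrix.smul_vecMul, Pi.sub_apply, Pi.smul_apply, smul_eq_mul, e]
      field_simp; ring
  have hf : Function.Injective f := fun j j' e => by
    rcases lt_trichotomy j j' with h | h | h
    exacts [absurd e (hinj _ _ h), h, absurd e.symm (hinj _ _ h)]
  obtain ⟨q, hq, hU, hd⟩ := exists_uq (Matrix.of w) fun i j hij => by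
    split_ifs with h
    · rw [← h]; exact (hw i).1
    · exact (hw i).2 j (lt_of_le_of_ne hij (Ne.symm h))
  have e : ∀ j, (q * A).val j = w j ᵥ* A.val := fun j => by rw [Units.val_mul, hq]; rfl
  exact ⟨q, Equiv.ofBijective f (Finite.injective_iff_bijective.1 hf), hU, hq ▸ hd,
    fun j => e j ▸ hne j, fun j i hi => e j ▸ hw' j i hi⟩

lemma run (lam : Equiv.Perm (Fin (k + 1)))
    (h : ∀ j : Fin k, lam j.castSucc < lam j.succ → (lam j.succ).val = (lam j.castSucc).val + 1) :
    ∀ (d : ℕ) (j j' : Fin (k + 1)), j'.val = j.val + d → lam j ≤ lam j' →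
      ∀ t, t ≤ d → ∀ i : Fin (k + 1), i.val = j.val + t → (lam i).val = (lam j).val + t := by
  intro d
  induction d with
  | zero =>
    intro j j' _ _ t ht i hi
    rw [show i = j from Fin.ext (by omega)]; omega
  | succ d ih =>
    intro j j' hj hl t ht i hi
    have h1 := j'.isLt
    obtain ⟨a, rfl⟩ : ∃ a : Fin k, j = a.castSucc := ⟨⟨j.val, by omega⟩, rfl⟩
    simp only [Fin.val_castSucc] at hj hi
    have h2 : lam a.castSucc ≠ lam j' := fun e => by
      have := congrArg Fin.val (lam.injective e); simp at this; omega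
    have h3 := Fin.lt_def.1 (lt_of_le_of_ne hl h2)
    rcases lt_or_gt_of_ne (fun e => (Fin.castSucc_lt_succ (i := a)).ne (lam.injective e)) with
      h4 | h4
    · have h5 := h a h4
      rcases Nat.eq_zero_or_pos t with rfl | h6
      · rw [show i = a.castSucc from Fin.ext hi]; rfl
      · have := ih a.succ j' (by simp; omega) (by rw [Fin.le_def]; omega) (t - 1) (by omega) i
          (by simp; omega)
        omega
    · exfalso
      have h5 := Fin.lt_def.1 h4
      have h6 := ih a.succ j' (by simp; omega) (by rw [Fin.le_def]; omega)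
      have h7 := h6 d le_rfl j' (by simp; omega)
      have h8 := h6 ((lam a.castSucc).val - (lam a.succ).val) (by omega)
        ⟨a.val + 1 + ((lam a.castSucc).val - (lam a.succ).val), by omega⟩ (by simp)
      have := congrArg Fin.val (lam.injective (Fin.ext
        (h8.trans (show _ = (lam a.castSucc).val by omega))))
      simp at this; omega

lemma desc (lam : Equiv.Perm (Fin (k + 1)))
    (h : ∀ j : Fin k, lam j.castSucc < lam j.succ → (lam j.succ).val = (lam j.castSucc).val + 1)
    (j : Fin k) (hj : lam j.succ < lam j.castSucc) (i : Fin (k + 1)) (hi : j.succ ≤ i) :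
    (lam i).val + j.val + 1 ≤ k := by
  have hi' := Fin.le_def.1 hi
  have hj' := Fin.lt_def.1 hj
  simp only [Fin.val_succ] at hi'
  have h1 := Finset.card_le_card_of_injOn (s := Finset.Iic j.castSucc) (t := Finset.Ioi (lam i)) lam
    (fun a ha => by
      have ha' : a.val ≤ j.val := by simpa [Fin.le_def] using ha
      simp only [Finset.coe_Ioi, Set.mem_Ioi]
      by_contra hc
      have h2 := run lam h (i.val - a.val) a i (by omega) (not_lt.1 hc)
      have h3 := h2 (j.val - a.val) (by omega) j.castSucc (by simp; omega)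
      have h4 := h2 (j.val + 1 - a.val) (by omega) j.succ (by simp; omega)
      omega) lam.injective.injOn
  have := (lam i).isLt
  simp only [Fin.card_Iic, Fin.card_Ioi, Fin.val_castSucc] at h1
  omega

lemma elem {a b : Fin k} (h : a < b) (s : ℚ) :
    ∃ E : GQ k, E.val = 1 + Matrix.single a b s ∧ IsU (iq E) := by
  obtain ⟨q, h1, h2, -⟩ := exists_uq (1 + Matrix.single a b s) fun i j hij => by
    rw [Matrix.add_apply, Matrix.single_apply_of_ne, add_zero, Matrix.one_apply]
    rintro ⟨rfl, rfl⟩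
    exact absurd h (not_lt.2 hij)
  exact ⟨q, h1, h2⟩

lemma psi_elem (m : Fin k → ℤ) {a b : Fin (k + 1)} {s : ℚ} {E : GQ (k + 1)}
    (h : E.val = 1 + Matrix.single a b s) : psi (zv m) (iq E) =
      ee ((s * ∑ i : Fin k, if a = i.castSucc ∧ b = i.succ then (m i : ℚ) else 0 : ℚ) : ℝ) := by
  rw [psi]
  congr 1
  rw [Finset.mul_sum, Rat.cast_sum]
  refine Finset.sum_congr rfl fun i _ => ?_
  change _ * ((E.val _ _ : ℚ) : ℝ) = _
  rw [h, Matrix.add_apply, Matrix.one_apply_ne (Fin.castSucc_lt_succ (i := i)).ne,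
    Matrix.single_apply]
  split_ifs <;> simp [zv, mul_comm]

end Bru

open Bru in
theorem bru (hW : WhStmt) : BruStmt := by
  intro k m hm γ hR
  obtain ⟨q, lam, hq, hd, hne, hz⟩ := echelon (zq γ)
  set W := (q * zq γ).val with hWd
  obtain ⟨u, hu, huU, -⟩ := exists_uq
    (Matrix.of fun i l => W (lam.symm i) l / W (lam.symm i) i) fun i l h => by
      have h1 := hne (lam.symm i)
      have h2 := hz (lam.symm i) l
      rw [Equiv.apply_symm_apply] at h1 h2
      rw [Matrix.of_apply]
      split_ifs with e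
      · rw [← e, div_self h1]
      · rw [h2 (lt_of_le_of_ne h (Ne.symm e)), zero_div]
  have hn : (q * zq γ * u⁻¹).val = Matrix.of fun j i => if lam j = i then W j (lam j) else 0 := by
    have : W = (Matrix.of fun j i => if lam j = i then W j (lam j) else 0) * u.val := by
      ext j l
      have := hne j
      simp only [Matrix.mul_apply, Matrix.of_apply, hu, ite_mul, zero_mul, Finset.sum_ite_eq,
        Finset.mem_univ, if_true, Equiv.symm_apply_apply]
      field_simp
    rw [Units.val_mul, ← hWd]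
    conv_lhs => rw [this]
    rw [Matrix.mul_assoc, ← Units.val_mul, mul_inv_cancel, Units.val_one, Matrix.mul_one]
  have hasc : ∀ j : Fin k, lam j.castSucc < lam j.succ →
      (lam j.succ).val = (lam j.castSucc).val + 1 ∧ m j * W j.castSucc (lam j.castSucc) =
        mx m (lam j.castSucc) * W j.succ (lam j.succ) := by
    intro j hj
    have h1 := hne j.castSucc
    have h2 := hne j.succ
    set r := W j.castSucc (lam j.castSucc) / W j.succ (lam j.succ) with hr
    have key : r * m j = ∑ i : Fin k,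
        if lam j.castSucc = i.castSucc ∧ lam j.succ = i.succ then (m i : ℚ) else 0 := by
      refine ee_inj fun s => ?_
      obtain ⟨E, hE, hEU⟩ := elem hj s
      obtain ⟨E', hE', hEU'⟩ := elem (Fin.castSucc_lt_succ (i := j)) (s * r)
      have e1 : q * zq γ * u⁻¹ * E = E' * (q * zq γ * u⁻¹) := by
        apply Units.ext
        rw [Units.val_mul, Units.val_mul E', hn, hE, hE', Matrix.mul_add, Matrix.add_mul,
          Matrix.mul_one, Matrix.one_mul]
        congr 1
        ext x y
        rw [Matrix.mul_apply, Matrix.mul_apply, Finset.sum_eq_single (lam j.castSucc)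
          (fun l _ h => by rw [Matrix.single_apply_of_row_ne h.symm, mul_zero]) (by simp),
          Finset.sum_eq_single j.succ
          (fun l _ h => by rw [Matrix.single_apply_of_col_ne _ _ h.symm, zero_mul]) (by simp)]
        simp only [Matrix.of_apply, Matrix.single_apply, EmbeddingLike.apply_eq_iff_eq, true_and,
          and_true]
        by_cases hx : j.castSucc = x
        · subst hx
          by_cases hy : lam j.succ = y
          · subst hy
            simp [hr]; field_simp
          · simp [hy]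
        · simp [hx, Ne.symm hx]
      have e2 : iz γ * iq (u⁻¹ * E * u) * (iz γ)⁻¹ = (iq q)⁻¹ * iq E' * iq q := by
        have : zq γ * (u⁻¹ * E * u) * (zq γ)⁻¹ = q⁻¹ * E' * q := by
          calc _ = q⁻¹ * (q * zq γ * u⁻¹ * E) * u * (zq γ)⁻¹ := by group
            _ = _ := by rw [e1]; group
        simpa only [map_mul, map_inv, iq_zq] using congrArg iq this
      have e3 : iq (u⁻¹ * E * u) = (iq u)⁻¹ * iq E * iq u := by simp only [map_mul, map_inv]
      have h3 := hR (u⁻¹ * E * u) (e3 ▸ (huU.inv.mul hEU).mul huU) (e2 ▸ (hq.inv.mul hEU').mul hq)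
      rw [e2, e3, psi_conj hW _ hq hEU', psi_conj hW _ huU hEU, psi_elem m hE, psi_elem m hE']
        at h3
      rw [← h3]
      congr 2
      rw [Finset.sum_eq_single j (fun i _ hi => if_neg fun h => hi (Fin.succ_injective _ h.2).symm)
        (by simp), if_pos ⟨rfl, rfl⟩, mul_assoc]
    have h0 : r * m j ≠ 0 := mul_ne_zero (div_ne_zero h1 h2) (by exact_mod_cast hm j)
    rw [key] at h0
    obtain ⟨i, -, hi⟩ := Finset.exists_ne_zero_of_sum_ne_zero h0
    have hi' := of_not_not (mt (if_neg (t := (m i : ℚ)) (e := 0)) hi)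
    rw [Finset.sum_eq_single i (fun l _ hl => if_neg fun h => hl
      (Fin.succ_injective _ (h.2.symm.trans hi'.2))) (by simp), if_pos hi'] at key
    refine ⟨by rw [hi'.1, hi'.2]; rfl, ?_⟩
    have : mx m (lam j.castSucc) = m i := by rw [hi'.1, mx, Fin.lastCases_castSucc]
    rw [this, ← key, hr]; field_simp
  refine ⟨q, lam, hq, hne, hz, hasc, desc lam fun j hj => (hasc j hj).1, ?_⟩
  have h1 : (W.submatrix lam.symm id).det = ∏ j, W j (lam j) := by
    rw [Matrix.det_of_isUpperTriangular (M := W.submatrix lam.symm id) fun i j h => hz _ _ (by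
      rwa [Equiv.apply_symm_apply]), ← Equiv.prod_comp lam]
    simp
  have h2 : (zq γ).val.det = (γ.val.det : ℤ) := ((Int.castRingHom ℚ).map_det γ.val).symm
  rw [← h1, Matrix.det_permute, hWd, Units.val_mul, Matrix.det_mul, hd, h2, one_mul, abs_mul,
    ← Int.cast_abs, ← Int.cast_abs, abs_det_GZ]
  rcases Int.units_eq_one_or (Equiv.Perm.sign lam.symm) with h | h <;> simp [h]

end B

end Pool.Agent.Lib.MP_fa98d2_nt.D
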