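import Pool.Agent.Lib.MP_fa98d2_nt.D.Inj
import Pool.Agent.Lib.MP_fa98d2_nt.B.Stm

/-! Density theorem with off-diagonal terms: classification of the cells. -/

open MeasureTheory Filter Topology Matrix
open scoped ENNReal Real ComplexConjugate

noncomputable section

namespace Pool.Agent.Lib.MP_fa98d2_nt.D

namespace B

namespace Cls

variable {k N s : ℕ}

lemma den_ineq {c z : ℤ} (hc : c ≠ 0) {ρ : ℚ} (hρ : ρ ≠ 1) (h : (c : ℚ) * ρ ^ N = z) :
    (1 : ℚ) ≤ |(c : ℚ)| * |1 - ρ| ^ N := by
  have hd : (0 : ℚ) < ρ.den := by exact_mod_cast ρ.den_pos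
  have e : ρ * ρ.den = ρ.num := Rat.mul_den_eq_num ρ
  have h1 : c * ρ.num ^ N = z * (ρ.den : ℤ) ^ N := by
    have : (c : ℚ) * (ρ.num : ℚ) ^ N = z * (ρ.den : ℚ) ^ N := by rw [← e, ← h]; ring
    exact_mod_cast this
  have h2 : IsCoprime ((ρ.den : ℤ) ^ N) (ρ.num ^ N) :=
    (Int.isCoprime_iff_gcd_eq_one.2 (by simpa [Int.gcd] using ρ.reduced.symm)).pow
  have h3 : (ρ.den : ℤ) ^ N ∣ c := h2.dvd_of_dvd_mul_right ⟨z, by rw [h1]; ring⟩
  have h4 : (ρ.den : ℚ) ^ N ≤ |(c : ℚ)| := by
    have := Int.le_of_dvd (abs_pos.2 hc) ((dvd_abs _ _).2 h3)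
    exact_mod_cast this
  have h5 : 1 ≤ (ρ.den : ℚ) * |1 - ρ| := by
    have e2 : (ρ.den : ℚ) * |1 - ρ| = |(((ρ.den : ℤ) - ρ.num : ℤ) : ℚ)| := by
      nth_rewrite 1 [← abs_of_pos hd]
      rw [← abs_mul]; push_cast; rw [← e]; congr 1; ring
    have h0 : (ρ.den : ℤ) - ρ.num ≠ 0 := fun h0 => hρ (by
      have : ((ρ.den : ℤ) : ℚ) - ρ.num = 0 := by exact_mod_cast h0
      rw [← e] at this
      push_cast at this
      have h6 : (ρ.den : ℚ) * (1 - ρ) = 0 := by linarith
      rcases mul_eq_zero.1 h6 with h7 | h7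
      · exact absurd h7 hd.ne'
      · linarith)
    rw [e2]
    exact_mod_cast Int.one_le_abs h0
  calc (1 : ℚ) ≤ ((ρ.den : ℚ) * |1 - ρ|) ^ N := one_le_pow₀ h5
    _ ≤ _ := by rw [mul_pow]; gcongr

lemma det_bd (A : Mat s) (a b : Fin s → ℝ) (ha : ∀ i, 0 < a i) (hb : ∀ i, 0 < b i)
    (h : ∀ i j, |A i j| ≤ a i * b j) : |A.det| ≤ s.factorial * ∏ i, (a i * b i) := by
  have e : A = Matrix.of fun i j => a i * (Matrix.of fun i j => b j *
      (Matrix.of fun i j => A i j / (a i * b j)) i j) i j := by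
    ext i j
    have := (ha i).ne'
    have := (hb j).ne'
    simp only [Matrix.of_apply]; field_simp
  have h1 := Matrix.det_le (abv := AbsoluteValue.abs) (x := (1 : ℝ))
    (A := Matrix.of fun i j => A i j / (a i * b j)) fun i j => by
      have := mul_pos (ha i) (hb j)
      rw [AbsoluteValue.abs_apply, Matrix.of_apply, abs_div, abs_of_pos this, div_le_one this]
      exact h i j
  simp only [AbsoluteValue.abs_apply, Fintype.card_fin, one_pow, nsmul_eq_mul, mul_one] at h1
  have h2 : 0 < ∏ i, (a i * b i) := Finset.prod_pos fun i _ => mul_pos (ha i) (hb i)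
  rw [e, Matrix.det_mul_column, Matrix.det_mul_row, ← mul_assoc, ← Finset.prod_mul_distrib,
    abs_mul, abs_of_pos h2, mul_comm]
  gcongr

lemma det_sub {u : G k} (hu : IsU u) {f : Fin s → Fin k} (hf : StrictMono f) :
    (u.val.submatrix f f).det = 1 := by
  rw [Matrix.det_of_isUpperTriangular fun i j h => by
    have h' : f j < f i := hf h
    rw [Matrix.submatrix_apply, hu _ _ h'.le, if_neg h'.ne']]
  exact Finset.prod_eq_one fun i _ => by rw [Matrix.submatrix_apply, hu _ _ le_rfl, if_pos rfl]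

lemma minor_r {u : G k} (hu : IsU u) (A : Mat k) (r : Fin s → Fin k) {c : Fin s → Fin k}
    (hc : StrictMono c) (hc' : ∀ a l, l ≤ c a → l ∈ Set.range c) :
    ((A * u.val).submatrix r c).det = (A.submatrix r c).det := by
  have : (A * u.val).submatrix r c = A.submatrix r c * u.val.submatrix c c := by
    ext a b
    simp only [Matrix.submatrix_apply, Matrix.mul_apply]
    refine (Fintype.sum_of_injective c hc.injective _ _ (fun l hl => ?_) fun _ => rfl).symm
    have h := not_le.1 fun h => hl (hc' b l h)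
    rw [hu _ _ h.le, if_neg h.ne', mul_zero]
  rw [this, Matrix.det_mul, det_sub hu hc, mul_one]

lemma minor_l {u : G k} (hu : IsU u) (A : Mat k) {r : Fin s → Fin k} (c : Fin s → Fin k)
    (hr : StrictMono r) (hr' : ∀ a l, r a ≤ l → l ∈ Set.range r) :
    ((u.val * A).submatrix r c).det = (A.submatrix r c).det := by
  have : (u.val * A).submatrix r c = u.val.submatrix r r * A.submatrix r c := by
    ext a b
    simp only [Matrix.submatrix_apply, Matrix.mul_apply]
    refine (Fintype.sum_of_injective r hr.injective _ _ (fun l hl => ?_) fun _ => rfl).symm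
    have h := not_le.1 fun h => hl (hr' a l h)
    rw [hu _ _ h.le, if_neg h.ne', zero_mul]
  rw [this, Matrix.det_mul, det_sub hu hr, one_mul]

lemma det_ne_of (A : Mat s) (σ : Fin s → Fin s) (hσ : Function.Injective σ)
    (h1 : ∀ a, A a (σ a) ≠ 0) (h2 : ∀ a b, b < σ a → A a b = 0) : A.det ≠ 0 := by
  let τ := Equiv.ofBijective σ (Finite.injective_iff_bijective.1 hσ)
  have h3 : (A.submatrix τ.symm id).det ≠ 0 := by
    rw [Matrix.det_of_isUpperTriangular (M := A.submatrix τ.symm id) fun i j h => h2 _ _ (by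
      change j < τ (τ.symm i)
      rwa [Equiv.apply_symm_apply])]
    refine Finset.prod_ne_zero_iff.2 fun i _ => ?_
    have := h1 (τ.symm i)
    change A _ (τ (τ.symm i)) ≠ 0 at this
    rwa [Equiv.apply_symm_apply] at this
  rw [Matrix.det_permute] at h3
  exact right_ne_zero_of_mul h3

lemma left_exp {w : G (k + 1)} (hw : IsU w) (A : Mat (k + 1)) {j i : Fin (k + 1)}
    (hj : j ≠ Fin.last k) (h : ∀ l, j < l → l ≠ Fin.last k → A l i = 0) :
    (w.val * A) j i = A j i + w.val j (Fin.last k) * A (Fin.last k) i := by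
  rw [Matrix.mul_apply, ← Finset.add_sum_erase _ _ (Finset.mem_univ j), hw j j le_rfl, if_pos rfl,
    one_mul, Finset.sum_eq_single (Fin.last k)]
  · intro l hl hl'
    have h0 := (Finset.mem_erase.1 hl).1
    rcases lt_or_gt_of_ne h0 with h1 | h1
    · rw [hw j l h1.le, if_neg h0.symm, zero_mul]
    · rw [h l h1 hl', mul_zero]
  · intro h0; exact absurd (Finset.mem_erase.2 ⟨hj.symm, Finset.mem_univ _⟩) h0

lemma right_exp {u : G k} (hu : IsU u) (A : Mat k) {j l i : Fin k} {c p : ℝ}
    (h : ∀ i', i' < i → c * A j i' = p * A l i') :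
    c * (A * u.val) j i - p * (A * u.val) l i = c * A j i - p * A l i := by
  have := Inj.vecMul_first (v := fun i' => c * A j i' - p * A l i') hu (i := i)
    fun i' hi => sub_eq_zero.2 (h i' hi)
  rw [← this]
  simp only [Matrix.mul_apply, Matrix.vecMul, dotProduct, Finset.mul_sum, ← Finset.sum_sub_distrib]
  exact Finset.sum_congr rfl fun _ _ => by ring

lemma first_exp {u : G k} (hu : IsU u) (A : Mat k) {j i : Fin k} (h : ∀ i', i' < i → A j i' = 0) :
    (A * u.val) j i = A j i := by
  simpa using right_exp hu A (j := j) (l := j) (i := i) (c := 1) (p := 0) (by simpa using h)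

lemma yv_ne {T m : ℝ} {i : Fin (N + 2)} (hi : i ≠ 0) : yv N T m i = T ^ (N + 1 - i.val) :=
  if_neg hi

lemma yv_zero {T m : ℝ} : yv N T m 0 = T ^ (N + 1) / m := if_pos rfl

/-- the bottom left minors are small -/
lemma minor_lt {T e m : ℝ} (he : 0 < e) (he2 : 2 * e ≤ 1) (heT : 1 ≤ e * T) (hm : 0 < m)
    {Z : Mat (N + 2)} (hZ : Near e (yv N T m) Z) {t r : ℕ} (hN : N = t + r + 2)
    {ro co : Fin (t + 2) → Fin (N + 2)} (hr : ∀ a, (ro a).val = r + 2 + a.val)
    (hc : ∀ a, (co a).val = a.val) :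
    |(Z.submatrix ro co).det| * T ^ (N + 1) ≤
      (N + 2).factorial * 2 ^ (N + 2) * (m * e ^ (N + 1)) := by
  have hT : 1 ≤ T := by nlinarith
  have hT0 : 0 < T := by linarith
  have hy : ∀ i, 0 < yv N T m i := fun i => by unfold yv; split_ifs <;> positivity
  have hr0 : ∀ a, ro a ≠ 0 := fun a h => by have := hr a; rw [h] at this; simp at this; omega
  have h1 := det_bd (Z.submatrix ro co) (fun a => yv N T m (ro a))
    (fun b => (if b.val ≤ 1 then e else 2) / yv N T m (co b)) (fun a => hy _)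
    (fun b => div_pos (by split_ifs <;> positivity) (hy _)) fun a b => by
      obtain ⟨z1, z2, z3⟩ := hZ (ro a) (hr0 a)
      rw [Matrix.submatrix_apply, ← mul_div_assoc, mul_comm, mul_div_assoc]
      have hq := div_pos (hy (ro a)) (hy (co b))
      rcases lt_or_ge (co b) (ro a) with h | h
      · refine (z1 _ h).trans (mul_le_mul_of_nonneg_right ?_ hq.le)
        split_ifs <;> linarith
      · have h' := Fin.le_def.1 h
        rw [hr, hc] at h'
        rw [if_neg (by omega)]
        have h2 : 1 ≤ yv N T m (ro a) / yv N T m (co b) := by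
          rw [one_le_div (hy _), yv_ne (hr0 a), yv_ne fun h0 => hr0 a (Fin.le_zero_iff.1 (h0 ▸ h))]
          exact pow_le_pow_right₀ hT (by have := Fin.le_def.1 h; omega)
        have h3 : |Z (ro a) (co b)| ≤ 2 := by
          rcases h.eq_or_lt with h4 | h4
          · rw [← h4]
            have := abs_le.1 z2
            exact abs_le.2 ⟨by linarith, by linarith⟩
          · exact z3 _ h4
        linarith
  have h2 : ∀ a : Fin (t + 2), yv N T m (ro a) * ((if a.val ≤ 1 then e else 2) / yv N T m (co a)) =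
      (if a = 0 then m else 1) * (if a.val ≤ 1 then e else 2) / T ^ (r + 2) := fun a => by
    have e1 : N + 1 - a.val = N + 1 - (r + 2 + a.val) + (r + 2) := by have := a.isLt; omega
    rw [yv_ne (hr0 a), hr]
    by_cases h0 : a = 0
    · rw [if_pos h0, show co a = 0 from Fin.ext (by rw [hc, h0]; rfl), yv_zero]
      rw [h0, Fin.val_zero, Nat.sub_zero] at e1
      rw [h0, Fin.val_zero]
      nth_rewrite 2 [e1]
      rw [pow_add]; field_simp
    · rw [if_neg h0, yv_ne fun h => h0 (Fin.ext (by rw [← hc, h]; rfl)), hc, e1, pow_add]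
      field_simp
  simp only [h2, Finset.prod_div_distrib, Finset.prod_const, Finset.card_univ, Fintype.card_fin,
    Fin.prod_univ_succ] at h1
  simp only [Fin.succ_ne_zero, if_true, if_false, Fin.val_zero, zero_le, Fin.val_succ, zero_add,
    le_refl, add_le_iff_nonpos_left, nonpos_iff_eq_zero, Nat.add_eq_zero_iff, one_ne_zero,
    and_false, one_mul, Finset.prod_const, Finset.card_univ, Fintype.card_fin] at h1
  have h3 : T ^ (2 * N) ≤ (T ^ (r + 2)) ^ (t + 2) := by
    rw [← pow_mul]; exact pow_le_pow_right₀ hT (by rw [hN]; nlinarith)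
  have h4 : ((t + 2).factorial : ℝ) ≤ (N + 2).factorial := by
    exact_mod_cast Nat.factorial_le (by omega)
  have h5 : (2 : ℝ) ^ t ≤ 2 ^ (N + 2) := pow_le_pow_right₀ one_le_two (by omega)
  have h6 : 1 ≤ (e * T) ^ (t + r + 1) := one_le_pow₀ heT
  calc _ ≤ (N + 2).factorial * (m * e * (e * 2 ^ (N + 2)) / T ^ (2 * N)) * T ^ (N + 1) *
        (e * T) ^ (t + r + 1) := by
        refine le_trans ?_ (le_mul_of_one_le_right (by positivity) h6)
        refine mul_le_mul_of_nonneg_right (h1.trans ?_) (by positivity)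
        gcongr
    _ = _ := by rw [hN]; field_simp; ring

/-- the moduli of the middle rows are equal -/
lemma rho_lt {T e m ρ : ℝ} (he : 0 < e) (heT : 1 ≤ e * T) (hm : 0 < m)
    {Z : Mat (N + 2)} (hZ : Near e (yv N T m) Z) (hc : Z (Fin.last _) 0 ≠ 0)
    (h : ∀ j, j ≠ 0 → j ≠ Fin.last (N + 1) →
      (∀ i, i < j → Z (Fin.last _) 0 * Z j i = Z j 0 * Z (Fin.last _) i) ∧
      Z (Fin.last _) 0 * Z j j = Z (Fin.last _) 0 * ρ + Z j 0 * Z (Fin.last _) j) :
    |Z (Fin.last _) 0| * |1 - ρ| ^ N * T ^ (N + 1) ≤ 2 ^ N * (m * e ^ (N + 1)) := by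
  have hT0 : 0 < T := by nlinarith
  set c := Z (Fin.last _) 0 with hcd
  have hc0 := abs_pos.2 hc
  rcases le_total |1 - ρ| (2 * e) with hd | hd
  · have h1 := (hZ (Fin.last _) Fin.last_pos.ne').1 0 Fin.last_pos
    rw [yv_zero, yv_ne Fin.last_pos.ne', Fin.val_last, Nat.sub_self, pow_zero] at h1
    calc _ ≤ e * (1 / (T ^ (N + 1) / m)) * (2 * e) ^ N * T ^ (N + 1) := by gcongr
      _ = _ := by field_simp; ring
  · have key : ∀ t (ht : t + 1 < N + 2),
        |Z ⟨t + 1, ht⟩ 0| * |1 - ρ| ^ t * T ^ (t + 1) ≤ 2 ^ t * (m * e ^ (t + 1)) := by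
      intro t
      induction t with
      | zero =>
        intro ht
        have h0 : (⟨0 + 1, ht⟩ : Fin (N + 2)) ≠ 0 := by simp
        have h1 := (hZ _ h0).1 0 (Fin.pos_iff_ne_zero.2 h0)
        rw [yv_zero, yv_ne h0] at h1
        calc _ ≤ e * (T ^ (N + 1 - (0 + 1)) / (T ^ (N + 1) / m)) * |1 - ρ| ^ 0 * T ^ (0 + 1) := by
              gcongr
          _ = _ := by simp only [zero_add, Nat.add_sub_cancel]; field_simp; ring
      | succ t ih =>
        intro ht
        have ht' : t + 1 < N + 2 := by omega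
        set j : Fin (N + 2) := ⟨t + 1, ht'⟩ with hj
        set j' : Fin (N + 2) := ⟨t + 1 + 1, ht⟩ with hj'
        have hj0 : j ≠ 0 := by simp [hj]
        have hj0' : j' ≠ 0 := by simp [hj']
        have hjj : j < j' := by simp [hj, hj']
        have hjl : j ≠ Fin.last _ := (hjj.trans_le (Fin.le_last _)).ne
        have h1 := (h j hj0 hjl).2
        have h2 : c * Z j' j = Z j' 0 * Z (Fin.last _) j := by
          by_cases hl : j' = Fin.last _
          · rw [hl]
          · exact (h j' hj0' hl).1 j hjj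
        have h3 : |Z j' j| * T ≤ e := by
          have := (hZ j' hj0').1 j hjj
          rw [yv_ne hj0, yv_ne hj0', show N + 1 - j.val = N + 1 - j'.val + 1 by
            simp only [hj, hj']; omega, pow_succ] at this
          calc _ ≤ e * (T ^ (N + 1 - j'.val) / (T ^ (N + 1 - j'.val) * T)) * T := by gcongr
            _ = _ := by field_simp
        have h4 : |1 - ρ| ≤ 2 * |Z j j - ρ| := by
          have h5 := (hZ j hj0).2.1
          have h6 := abs_sub_le 1 (Z j j) ρ
          rw [abs_sub_comm 1 (Z j j)] at h6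
          linarith
        have h7 : |Z j' 0| * |Z j j - ρ| = |Z j 0| * |Z j' j| := by
          rw [← abs_mul, ← abs_mul]
          congr 1
          apply mul_left_cancel₀ hc
          linear_combination Z j' 0 * h1 - Z j 0 * h2
        calc _ = |Z j' 0| * |1 - ρ| * T * (|1 - ρ| ^ t * T ^ (t + 1)) := by ring
          _ ≤ |Z j' 0| * (2 * |Z j j - ρ|) * T * (|1 - ρ| ^ t * T ^ (t + 1)) := by gcongr
          _ = 2 * (|Z j' j| * T) * (|Z j 0| * |1 - ρ| ^ t * T ^ (t + 1)) := by
            linear_combination 2 * T * (|1 - ρ| ^ t * T ^ (t + 1)) * h7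
          _ ≤ 2 * e * (2 ^ t * (m * e ^ (t + 1))) := 
            mul_le_mul (by linarith) (ih ht') (by positivity) (by positivity)
          _ = _ := by ring
    exact key N (by omega)

end Cls

open Cls in
theorem clsB (hB : BruStmt) : ClsStmt := by
  intro N
  refine ⟨1 / ((N + 2).factorial * 2 ^ (N + 2) + 1), by positivity,
    fun T e he he2 heT m hm γ u hR hu hZ => ?_⟩
  have hT : 1 ≤ T := by nlinarith
  have hT0 : 0 < T := by linarith
  have hm0 : (0 : ℝ) < (m : ℕ) := by exact_mod_cast m.pos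
  have hC : (N + 2).factorial * 2 ^ (N + 2) * (((m : ℕ) : ℝ) * e ^ (N + 1)) < T ^ (N + 1) := by
    rw [div_mul_eq_mul_div, one_mul, le_div_iff₀ (by positivity)] at hm
    have : 0 < ((m : ℕ) : ℝ) * e ^ (N + 1) := by positivity
    linarith
  obtain ⟨q, lam, hq, hne, hz, hasc, hdes, hdet⟩ := hB (N + 1) (zm (m1 N m))
    (fun i => by simp only [zm]; exact_mod_cast (m1 N m i).pos.ne') γ hR
  set W := (q * zq γ).val with hW
  set V : Mat (N + 2) := (iq (q * zq γ)).val with hV
  have hVW : ∀ j i, V j i = (W j i : ℝ) := fun j i => rfl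
  set g : Mat (N + 2) := (iz γ).val with hg
  have hgγ : ∀ j i, g j i = (γ.val j i : ℝ) := fun j i => rfl
  have hVg : V = (iq q).val * g := by rw [hV, map_mul, iq_zq, Units.val_mul]
  have hgV : g = ((iq q)⁻¹).val * V := by
    rw [hVg, ← Matrix.mul_assoc, ← Units.val_mul, inv_mul_cancel, Units.val_one, Matrix.one_mul]
  have hVz : ∀ j i, i < lam j → V j i = 0 := fun j i h => by rw [hVW, hz j i h, Rat.cast_zero]
  have hVn : ∀ j, V j (lam j) ≠ 0 := fun j => by rw [hVW]; exact_mod_cast hne j
  have hl : ∀ i, g (Fin.last _) i = V (Fin.last _) i := fun i => by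
    have := congrFun (hq.lr_mul (iz γ)) i
    rw [hV, map_mul, iq_zq]; exact this.symm
  rw [Units.val_mul, ← hg] at hZ
  have hcs : ∀ j : Fin (N + 1), lam j.castSucc ≠ lam j.succ := fun j h =>
    (Fin.castSucc_lt_succ (i := j)).ne (lam.injective h)
  have hmid : ∀ j : Fin (N + 1), 1 ≤ j.val → j.val + 1 ≤ N → lam j.castSucc < lam j.succ := by
    intro j h1 h2
    by_contra hc
    have hd := hdes j (lt_of_le_of_ne (not_lt.1 hc) (hcs j).symm)
    obtain ⟨r, hr⟩ : ∃ r, j.val = r + 1 := ⟨j.val - 1, by omega⟩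
    obtain ⟨t, ht⟩ : ∃ t, N = t + r + 2 := ⟨N - r - 2, by omega⟩
    let ro : Fin (t + 2) → Fin (N + 2) := fun a => ⟨r + 2 + a.val, by omega⟩
    let co : Fin (t + 2) → Fin (N + 2) := fun a => ⟨a.val, by omega⟩
    have hro : StrictMono ro := fun a b h => by simpa [ro] using h
    have hco : StrictMono co := fun a b h => by simpa [co] using h
    have hlt : ∀ a, (lam (ro a)).val < t + 2 := fun a => by
      have := hd (ro a) (by simp [ro, Fin.le_def]; omega)
      omega
    have h3 := minor_lt he he2 heT hm0 hZ ht (ro := ro) (co := co) (fun _ => rfl) fun _ => rfl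
    rw [minor_r hu g ro hco fun a l h => ⟨⟨l.val, by have := Fin.le_def.1 h; simp [co] at this; omega⟩,
      rfl⟩] at h3
    have h4 : (V.submatrix ro co).det ≠ 0 :=
      det_ne_of _ (fun a => ⟨_, hlt a⟩) (fun a b h => hro.injective (lam.injective
        (Fin.ext (Fin.mk.inj h)))) (fun a => hVn (ro a)) fun a b h => hVz _ _ h
    rw [hVg, minor_l hq g co hro fun a l h => ⟨⟨l.val - (r + 2), by omega⟩, Fin.ext (by
      have := Fin.le_def.1 h; simp [ro] at this ⊢; omega)⟩] at h4
    have h5 : (g.submatrix ro co).det = ((γ.val.submatrix ro co).det : ℤ) :=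
      ((Int.castRingHom ℝ).map_det (γ.val.submatrix ro co)).symm
    rw [h5] at h3 h4
    have h6 : (1 : ℝ) ≤ |(((γ.val.submatrix ro co).det : ℤ) : ℝ)| := by
      exact_mod_cast Int.one_le_abs (by exact_mod_cast h4)
    have := pow_pos hT0 (N + 1)
    nlinarith
  have hlast : lam (Fin.last _) = Fin.last _ ∨ lam (Fin.last _) = 0 := by
    by_contra hc
    push Not at hc
    have h1 := (hZ _ Fin.last_pos.ne').1 _ (lt_of_le_of_ne (Fin.le_last _) hc.1)
    rw [first_exp hu g fun i hi => by rw [hl, hVz _ _ hi], yv_ne hc.2, yv_ne Fin.last_pos.ne',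
      Fin.val_last, Nat.sub_self, pow_zero] at h1
    have h2 := hVn (Fin.last _)
    rw [← hl, hgγ] at h2
    have h3 : (1 : ℝ) ≤ |g (Fin.last _) (lam (Fin.last _))| := by
      rw [hgγ]; exact_mod_cast Int.one_le_abs (by exact_mod_cast h2)
    have h4 : 1 / T ^ (N + 1 - (lam (Fin.last _)).val) ≤ 1 :=
      (div_le_one (by positivity)).2 (one_le_pow₀ hT)
    nlinarith
  rcases hlast with h0 | h0
  · left
    have hall : ∀ j : Fin (N + 1), lam j.castSucc < lam j.succ := fun j => by
      by_contra hc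
      have := hdes j (lt_of_le_of_ne (not_lt.1 hc) (hcs j).symm) _ (Fin.le_last _)
      rw [h0, Fin.val_last] at this
      omega
    have hlam : ∀ j, (lam j).val = (lam 0).val + j.val := fun j => by
      induction j using Fin.induction with
      | zero => simp
      | succ j ih => rw [(hasc j (hall j)).1, ih]; simp [add_assoc]
    have hid : ∀ j, lam j = j := fun j => by
      have h1 := hlam (Fin.last _)
      rw [h0] at h1
      exact Fin.ext (by rw [hlam j]; omega)
    simp only [hid] at hVz hasc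
    have hgv : ∀ j i, i ≤ j → g j i = V j i := fun j i h => by
      by_cases hj : j = Fin.last _
      · rw [hj, hl]
      · have hj' := lt_of_le_of_ne (Fin.le_last j) hj
        rw [hgV, left_exp hq.inv V hj fun l hl _ => hVz _ _ (h.trans_lt hl),
          hVz _ _ (h.trans_lt hj'), mul_zero, add_zero]
    have hd : ∀ j, j ≠ 0 → g j j = 1 := fun j hj => by
      have h1 := (hZ j hj).2.1
      rw [first_exp hu g fun i hi => by rw [hgv _ _ hi.le, hVz _ _ hi], hgγ] at h1
      have h2 : |γ.val j j - 1| < 1 := by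
        have : |((γ.val j j : ℤ) : ℝ) - 1| < 1 := by linarith
        exact_mod_cast this
      have := Int.abs_lt_one_iff.1 h2
      rw [hgγ, show γ.val j j = 1 by omega, Int.cast_one]
    intro i j hij
    split_ifs with h
    · subst h
      by_cases hi : i = 0
      · have h1 := (hasc 0 Fin.castSucc_lt_succ).2
        rw [mx, Fin.lastCases_castSucc] at h1
        have h2 : ((zm (m1 N m) 0 : ℤ) : ℚ) ≠ 0 := by
          simp only [zm]; exact_mod_cast (m1 N m 0).pos.ne'
        have h3 := hd (Fin.succ 0) (Fin.succ_ne_zero _)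
        rw [hgv _ _ le_rfl, hVW, ← mul_left_cancel₀ h2 h1] at h3
        rw [hi, ← hg, hgv _ _ le_rfl, hVW]
        exact h3
      · exact hd i hi
    · rw [← hg, hgv _ _ hij, hVz _ _ (lt_of_le_of_ne hij (Ne.symm h))]
  · right
    have hc : g (Fin.last _) 0 ≠ 0 := by rw [hl, ← h0]; exact hVn _
    have hcz : γ.val (Fin.last _) 0 ≠ 0 := by rw [hgγ] at hc; exact_mod_cast hc
    refine ⟨hcz, fun j0 hj0 hj0' => ?_⟩
    have hN : 1 ≤ N := by
      have h1 := Fin.pos_iff_ne_zero.2 hj0
      have h2 := lt_of_le_of_ne (Fin.le_last j0) hj0'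
      rw [Fin.lt_def] at h1 h2
      simp at h1 h2; omega
    set o : Fin (N + 2) := ⟨1, by omega⟩ with ho
    have hl0 : ∀ j, j ≠ Fin.last _ → lam j ≠ 0 := fun j hj h => hj (lam.injective (h.trans h0.symm))
    have hm1 : ∀ i : Fin (N + 2), i ≠ 0 → mx (zm (m1 N m)) i = 1 := fun i => by
      refine Fin.lastCases (fun _ => by simp [mx]) (fun i hi => ?_) i
      have : i ≠ 0 := fun h => hi (by simp [h])
      simp [mx, zm, m1, this]
    have hrun : ∀ j : Fin (N + 2), j ≠ 0 → j ≠ Fin.last _ →
        (lam j).val + 1 = (lam o).val + j.val ∧ W j (lam j) = W o (lam o) := fun j => by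
      induction j using Fin.induction with
      | zero => intro h; exact absurd rfl h
      | succ j ih =>
        intro _ h2
        by_cases hj : j = 0
        · subst hj
          exact ⟨rfl, rfl⟩
        · have h3 : j.val + 1 ≤ N := by
            have := j.isLt
            have h4 : j.val + 1 ≠ N + 1 := fun h => h2 (Fin.ext h)
            omega
          have h5 : j.castSucc ≠ 0 := fun h => hj (by simpa using h)
          obtain ⟨i1, i2⟩ := ih h5 (Fin.castSucc_ne_last j)
          obtain ⟨a1, a2⟩ := hasc j (hmid j (Fin.pos_iff_ne_zero.2 hj) h3)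
          have h6 := hm1 _ h5
          rw [mx, Fin.lastCases_castSucc] at h6
          rw [h6, hm1 _ (hl0 _ (Fin.castSucc_ne_last j))] at a2
          refine ⟨by rw [a1, i1]; simp [add_assoc], ?_⟩
          rw [← i2]; simpa using a2.symm
    have hol : o ≠ Fin.last _ := fun h => by have := congrArg Fin.val h; simp [ho] at this; omega
    have ho1 : 1 ≤ (lam o).val := Fin.pos_iff_ne_zero.2 (hl0 o hol)
    have hge : ∀ j, j ≠ 0 → j ≠ Fin.last _ → j ≤ lam j := fun j h1 h2 => by
      have := (hrun j h1 h2).1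
      rw [Fin.le_def]; omega
    obtain ⟨ρ, hρ1, hρ2⟩ : ∃ ρ : ℚ, (∀ j, j ≠ 0 → j ≠ Fin.last _ → W j j = ρ) ∧
        ∃ z : ℤ, (γ.val (Fin.last _) 0 : ℚ) * ρ ^ N = z := by
      rcases ho1.eq_or_lt with h1 | h1
      · have hid : ∀ j, j ≠ 0 → j ≠ Fin.last _ → lam j = j := fun j h2 h3 => by
          have := (hrun j h2 h3).1
          exact Fin.ext (by omega)
        have hl1 : lam 0 = Fin.last _ := by
          obtain ⟨j, hj⟩ := lam.surjective (Fin.last _)
          by_cases h2 : j = 0
          · rw [← hj, h2]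
          · by_cases h3 : j = Fin.last _
            · rw [h3, h0] at hj; exact absurd hj Fin.last_pos.ne
            · rw [hid j h2 h3] at hj; exact absurd hj h3
        refine ⟨W o (lam o), fun j h2 h3 => by rw [← (hrun j h2 h3).2, hid j h2 h3], ?_⟩
        have e1 : W 0 (Fin.last _) * ((γ⁻¹).val (Fin.last _) 0 : ℚ) = 1 := by
          have e2 : (W * (zq γ⁻¹).val) 0 0 = q.val 0 0 := by
            rw [hW, ← Units.val_mul, map_inv, mul_inv_cancel_right]
          have e3 : q.val 0 0 = 1 := by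
            have : ((q.val 0 0 : ℚ) : ℝ) = 1 := (hq 0 0 le_rfl).trans (if_pos rfl)
            exact_mod_cast this
          rw [e3, Matrix.mul_apply, Finset.sum_eq_single (Fin.last _) (fun l _ h2 => by
            rw [hz 0 l (hl1 ▸ lt_of_le_of_ne (Fin.le_last l) h2), zero_mul]) (by simp)] at e2
          exact e2
        have e4 : W (Fin.last _) 0 = γ.val (Fin.last _) 0 := by
          have := hl 0
          rw [hgγ, hVW] at this
          exact_mod_cast this.symm
        rw [Fin.prod_univ_succ, Fin.prod_univ_castSucc, hl1, Fin.succ_last, h0, e4,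
          Finset.prod_congr rfl fun i _ => (hrun _ (Fin.succ_ne_zero _) (by
            rw [Fin.succ_castSucc]; exact Fin.castSucc_ne_last _)).2, Finset.prod_const,
          Finset.card_univ, Fintype.card_fin] at hdet
        rcases abs_eq (zero_le_one) |>.1 hdet with h | h
        · exact ⟨(γ⁻¹).val (Fin.last _) 0, by
            linear_combination ((γ⁻¹).val (Fin.last _) 0 : ℚ) * h -
              (γ.val (Fin.last _) 0 : ℚ) * W o (lam o) ^ N * e1⟩
        · exact ⟨-(γ⁻¹).val (Fin.last _) 0, by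
            rw [Int.cast_neg]
            linear_combination ((γ⁻¹).val (Fin.last _) 0 : ℚ) * h -
              (γ.val (Fin.last _) 0 : ℚ) * W o (lam o) ^ N * e1⟩
      · refine ⟨0, fun j h2 h3 => hz j j ?_, 0, by simp [show N ≠ 0 by omega]⟩
        have := (hrun j h2 h3).1
        rw [Fin.lt_def]; omega
    have hrow : ∀ j, j ≠ 0 → j ≠ Fin.last _ →
        (∀ i, i < j → g (Fin.last _) 0 * g j i = g j 0 * g (Fin.last _) i) ∧
        g (Fin.last _) 0 * g j j = g (Fin.last _) 0 * ρ + g j 0 * g (Fin.last _) j := by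
      intro j h1 h2
      have h3 : ∀ i, i ≤ j → g j i = V j i + ((iq q)⁻¹).val j (Fin.last _) * g (Fin.last _) i :=
        fun i hi => by
          rw [hl]
          conv_lhs => rw [hgV]
          exact left_exp hq.inv V h2 fun l h4 h5 => hVz _ _
            ((hi.trans_lt h4).trans_le (hge l (h4.trans_le' (Fin.zero_le _)).ne' h5))
      have h4 : ∀ i, i < j → V j i = 0 := fun i hi => hVz _ _ (hi.trans_le (hge j h1 h2))
      have h5 := h3 0 (Fin.zero_le _)
      rw [h4 0 (Fin.pos_iff_ne_zero.2 h1)] at h5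
      refine ⟨fun i hi => by rw [h3 i hi.le, h4 i hi, h5]; ring, ?_⟩
      rw [h3 j le_rfl, h5, hVW, hρ1 j h1 h2]; ring
    have hZ0 : ∀ j, (g * u.val) j 0 = g j 0 := fun j =>
      first_exp hu g fun i hi => absurd hi (Fin.not_lt_zero i)
    have hρ : ρ = 1 := by
      by_contra hρ
      obtain ⟨z, hz'⟩ := hρ2
      have h1 : (1 : ℝ) ≤ |g (Fin.last _) 0| * |1 - (ρ : ℝ)| ^ N := by
        rw [hgγ]; exact_mod_cast den_ineq hcz hρ hz'
      have h2 := rho_lt (ρ := ρ) he heT hm0 hZ (by rwa [hZ0]) fun j h3 h4 => by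
        obtain ⟨r1, r2⟩ := hrow j h3 h4
        simp only [hZ0]
        exact ⟨fun i hi => by
          linear_combination right_exp hu g (fun i' h => r1 i' (h.trans hi)) + r1 i hi,
          by linear_combination right_exp hu g r1 + r2⟩
      rw [hZ0] at h2
      have h3 : (2 : ℝ) ^ N ≤ (N + 2).factorial * 2 ^ (N + 2) := by
        have : (1 : ℝ) ≤ (N + 2).factorial := by exact_mod_cast Nat.factorial_pos _
        exact (pow_le_pow_right₀ one_le_two (by omega)).trans
          (le_mul_of_one_le_left (by positivity) this)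
      have h4 : 0 < ((m : ℕ) : ℝ) * e ^ (N + 1) := by positivity
      have := pow_pos hT0 (N + 1)
      nlinarith
    obtain ⟨r1, r2⟩ := hrow j0 hj0 hj0'
    simp only [hgγ, hρ, Rat.cast_one, mul_one] at r1 r2
    exact ⟨fun i hi => by exact_mod_cast r1 i hi, by exact_mod_cast r2⟩

end B

end Pool.Agent.Lib.MP_fa98d2_nt.D
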