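import Pool.Agent.Lib.MP_fa98d2_nt.B.Stm

/-! Density theorem with off-diagonal terms: integration column by column. -/

open MeasureTheory Filter Topology Matrix
open scoped ENNReal Real ComplexConjugate

noncomputable section

namespace Pool.Agent.Lib.MP_fa98d2_nt.D

namespace B

namespace Col

variable {k : ℕ}

lemma cub_le {Φ : (Fin (k + 1) → ℝ) → ℝ≥0∞} (hΦ : Measurable Φ) {B : ℝ≥0∞}
    (h : ∀ x : Fin k → ℝ, ∫⁻ t in Set.Ico (0 : ℝ) 1, Φ (Fin.cons t x) ≤ B) :
    ∫⁻ b, Φ b ∂cub (k + 1) ≤ B := by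
  have e : ∀ n, cub n = Measure.pi fun _ => volume.restrict (Set.Ico (0 : ℝ) 1) := fun n => by
    rw [cub, volume_pi, Measure.restrict_pi_pi]
  have hm := (measurePreserving_piFinSuccAbove
    (fun _ : Fin (k + 1) => volume.restrict (Set.Ico (0 : ℝ) 1)) 0).symm
  rw [e, ← hm.lintegral_comp hΦ]
  refine (lintegral_prod_symm _ (hΦ.comp hm.measurable).aemeasurable).trans_le ?_
  rw [← e]
  refine (lintegral_mono (g := fun _ => B) fun x => ?_).trans (by simp)
  simpa [MeasurableEquiv.piFinSuccAbove_symm_apply, Fin.insertNthEquiv, Fin.insertNth_zero']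
    using h x

lemma erase_prod {M : Type} [CommMonoid M] (g : Fin (k + 1) → M) :
    ∏ j ∈ Finset.univ.erase 0, g j = ∏ j : Fin k, g j.succ := by
  rw [← Finset.compl_singleton, Fin.image_succ_univ (n := k) |>.symm,
    Finset.prod_image fun a _ b _ h => Fin.succ_injective _ h]

lemma erase_succ {M : Type} [CommMonoid M] (g : Fin (k + 2) → M) :
    ∏ j ∈ Finset.univ.erase 0, g j =
      (∏ j ∈ Finset.univ.erase (0 : Fin (k + 1)), g j.castSucc) * g (Fin.last _) := by
  rw [erase_prod, erase_prod, Fin.prod_univ_castSucc]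
  rfl

lemma meas_v (ξ : Fin k → ℤ) (j : Fin k) : Measurable fun y : Y k => (zv ξ ᵥ* (un k y).val) j := by
  simp only [Matrix.vecMul, dotProduct]
  exact Finset.measurable_sum _ fun i _ =>
    ((continuous_entry i j).measurable.comp (measurable_un k)).const_mul _

end Col

open Col in
theorem col : ColStmt := by
  intro k c
  induction k with
  | zero =>
    intro f b _ _
    simp only [erase_prod, Finset.univ_eq_empty, Finset.prod_empty, mul_one, lintegral_const,
      measure_univ]
    rw [tsum_eq_single (fun _ => c) fun ξ h => if_neg fun e => h (funext fun i => by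
      rw [Fin.eq_zero i, e])]
    simp
  | succ k ih =>
    intro f b hf hb
    have hm : ∀ n (f : Fin (n + 1) → ℝ → ℤ → ℝ≥0∞), (∀ j z, Measurable fun v => f j v z) →
        ∀ ξ : Fin (n + 1) → ℤ, Measurable fun y : Y (n + 1) => (if ξ 0 = c then 1 else 0) *
          ∏ j ∈ Finset.univ.erase 0, f j ((zv ξ ᵥ* (un (n + 1) y).val) j) (ξ j) :=
      fun n f hf ξ => (Finset.measurable_prod _ fun j _ => (hf j _).comp (meas_v ξ j)).const_mul _
    have h1 := ih (fun j => f j.castSucc) (fun j => b j.castSucc) (fun j => hf _)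
      fun j hj => hb _ (by simpa using hj)
    rw [erase_succ]
    refine le_trans ?_ (mul_le_mul_left h1 _)
    rw [← lintegral_mul_const _ (Measurable.tsum (hm k _ fun j => hf _))]
    refine (lintegral_prod (μ := cY (k + 1)) (ν := cub (k + 1)) _
      (Measurable.tsum (hm (k + 1) f hf)).aemeasurable).trans_le (lintegral_mono fun y => ?_)
    have e : ∀ (x : Fin (k + 1) → ℝ) (ξ : Fin (k + 1) → ℤ) (z : ℤ),
        (if (Fin.snoc ξ z : Fin (k + 2) → ℤ) 0 = c then 1 else 0) * ∏ j ∈ Finset.univ.erase 0,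
          f j ((zv (Fin.snoc ξ z) ᵥ* (un (k + 2) (y, x)).val) j) ((Fin.snoc ξ z : Fin (k + 2) → ℤ) j) =
        ((if ξ 0 = c then 1 else 0) * ∏ j ∈ Finset.univ.erase 0,
          f j.castSucc ((zv ξ ᵥ* (un (k + 1) y).val) j) (ξ j)) *
          f (Fin.last _) (∑ i, ξ i * x i + z) z := fun x ξ z => by
      have e1 : un (k + 2) (y, x) = pb (un (k + 1) y) x := nb_mul_up _ _
      rw [erase_succ, e1, mul_assoc]
      congr 2
      · refine Finset.prod_congr rfl fun j _ => ?_
        simp [zv, Matrix.vecMul, dotProduct, Fin.sum_univ_castSucc (n := k + 1)]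
      · simp [zv, Matrix.vecMul, dotProduct, Fin.sum_univ_castSucc (n := k + 1)]
    have m2 : ∀ ξ : Fin (k + 1) → ℤ, Measurable fun x : Fin (k + 1) → ℝ =>
        ∑' z : ℤ, f (Fin.last _) (∑ i, ξ i * x i + z) z := fun ξ =>
      Measurable.tsum fun z => (hf _ z).comp (by fun_prop)
    refine (lintegral_congr (g := fun x : Fin (k + 1) → ℝ => ∑' ξ : Fin (k + 1) → ℤ,
      ((if ξ 0 = c then 1 else 0) * ∏ j ∈ Finset.univ.erase 0,
        f j.castSucc ((zv ξ ᵥ* (un (k + 1) y).val) j) (ξ j)) *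
        ∑' z : ℤ, f (Fin.last _) (∑ i, (ξ i : ℝ) * x i + z) z) fun x => ?_).trans_le ?_
    · rw [← (Fin.snocEquiv fun _ : Fin (k + 2) => ℤ).tsum_eq, ENNReal.tsum_prod', ENNReal.tsum_comm]
      refine tsum_congr fun ξ => ?_
      rw [← ENNReal.tsum_mul_left]
      exact tsum_congr fun z => e x ξ z
    rw [lintegral_tsum fun ξ => ((m2 ξ).const_mul _).aemeasurable, ← ENNReal.tsum_mul_right]
    refine ENNReal.tsum_le_tsum fun ξ => ?_
    rw [lintegral_const_mul _ (m2 ξ)]
    by_cases h : ξ 0 = c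
    · refine mul_le_mul_right (cub_le (m2 ξ) fun x => ?_) _
      simpa [Fin.sum_univ_succ, h] using hb _ Fin.last_pos.ne' (∑ i : Fin k, ξ i.succ * x i)
    · simp [h]

end B

end Pool.Agent.Lib.MP_fa98d2_nt.D
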