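import Pool.Agent.Lib.MP_fa98d2_nt.B.Cls
import Pool.Agent.Lib.MP_fa98d2_nt.B.Col

/-! Density theorem with off-diagonal terms: the count. -/

open MeasureTheory Filter Topology Matrix
open scoped ENNReal Real ComplexConjugate

noncomputable section

namespace Pool.Agent.Lib.MP_fa98d2_nt.D

namespace B

namespace Cnt

variable {k N : ℕ}

lemma tsum_pi {α : Type} : ∀ (n : ℕ) (F : Fin n → α → ℝ≥0∞),
    ∑' x : Fin n → α, ∏ i, F i (x i) = ∏ i, ∑' a, F i a
  | 0, F => by simp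
  | n + 1, F => by
    rw [← (Fin.consEquiv fun _ : Fin (n + 1) => α).tsum_eq, ENNReal.tsum_prod', Fin.prod_univ_succ,
      ← tsum_pi n, ← ENNReal.tsum_mul_right]
    refine tsum_congr fun a => ?_
    rw [← ENNReal.tsum_mul_left]
    refine tsum_congr fun x => ?_
    simp [Fin.prod_univ_succ, Fin.consEquiv]

open Classical in
lemma le_inj {α β : Type} (p : α → Prop) [DecidablePred p] (φ : α → β) (hφ : ∀ a a', p a → p a' → φ a = φ a' → a = a')
    (w : β → ℝ≥0∞) (hw : ∀ a, p a → 1 ≤ w (φ a)) : ∑' a, (if p a then (1 : ℝ≥0∞) else 0) ≤ ∑' b, w b := by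
  have e := tsum_subtype {a | p a} fun _ => (1 : ℝ≥0∞)
  simp only [Set.indicator_apply, Set.mem_ofPred_eq] at e
  refine le_trans (le_of_eq ?_) ((ENNReal.tsum_le_tsum fun a : {a | p a} => hw a.1 a.2).trans
    (ENNReal.tsum_comp_le_tsum_of_injective (f := fun a : {a | p a} => φ a.1)
      (fun a a' h => Subtype.ext (hφ _ _ a.2 a'.2 h)) w))
  convert e.symm

lemma rowZ (γ : GZ k) (u : G k) (j i : Fin k) :
    (iz γ * u).val j i = (zv (γ.val j) ᵥ* u.val) i := rfl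

/-- the first row is determined by the others -/
lemma inj1 (hT : TriStmt) {e : ℝ} {y : Fin (N + 2) → ℝ} {u : G (N + 2)} {γ γ' : GZ (N + 2)}
    (h : Pos e y γ u) (h' : Pos e y γ' u) (hr : ∀ j, j ≠ 0 → γ'.val j = γ.val j) : γ = γ' := by
  obtain ⟨-, v, l, hv, hl, hl0, e1⟩ := h
  obtain ⟨-, v', l', hv', hl', hl0', e2⟩ := h'
  set τ := γ' * γ⁻¹ with hτ
  have h1 : ∀ j, j ≠ 0 → ∀ i, τ.val j i = if j = i then 1 else 0 := fun j hj i => by
    have : (γ * γ⁻¹).val j i = τ.val j i := by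
      simp only [hτ, Units.val_mul, Matrix.mul_apply, hr j hj]
    rw [← this, mul_inv_cancel, Units.val_one, Matrix.one_apply]
  have h2 : τ.val.det = τ.val 0 0 := by
    rw [Matrix.det_of_isUpperTriangular fun i j h => by
      have h' : j < i := h
      rw [h1 i (h'.trans_le' (Fin.zero_le _)).ne', if_neg h'.ne'], Fin.prod_univ_succ,
      Finset.prod_eq_one fun i _ => by rw [h1 _ (Fin.succ_ne_zero i), if_pos rfl], mul_one]
  have e3 : v'⁻¹ * (iz τ * v) * l = l' := by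
    rw [mul_assoc, mul_assoc, ← e1, hτ, map_mul, map_inv, mul_assoc, inv_mul_cancel_left, e2,
      inv_mul_cancel_left]
  have hlow : Low (v'⁻¹ * (iz τ * v)) := by
    rw [← eq_mul_inv_iff_mul_eq] at e3
    rw [e3]
    exact (hT.lowM _ _ _ hl' (hT.lowM _ _ _ hl hl).2).1
  have h3 : (τ.val 0 0 : ℝ) * l.val 0 0 = l'.val 0 0 := by
    have c0 : ∀ j, (iz τ * v).val j 0 = (τ.val j 0 : ℝ) := fun j =>
      Cls.first_exp hv.1 (iz τ).val fun i hi => absurd hi (Fin.not_lt_zero i)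
    have c1 : (v'⁻¹ * (iz τ * v)).val 0 0 = (τ.val 0 0 : ℝ) := by
      rw [Units.val_mul, Matrix.mul_apply, Finset.sum_eq_single 0 (fun j _ hj => by
        rw [c0, h1 j hj, if_neg hj]; simp) (by simp), c0, hv'.1.inv 0 0 le_rfl, if_pos rfl, one_mul]
    rw [← e3, Units.val_mul _ l, Matrix.mul_apply, Finset.sum_eq_single 0 (fun j _ hj => by
      rw [hlow 0 j (Fin.pos_iff_ne_zero.2 hj), zero_mul]) (by simp), c1]
  have h4 : τ.val 0 0 = 1 := by
    have h5 := abs_det_GZ τ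
    have h6 : (0 : ℝ) < τ.val 0 0 := by
      by_contra hc
      nlinarith [not_lt.1 hc]
    have h7 : 0 < τ.val 0 0 := by exact_mod_cast h6
    rwa [h2, abs_of_pos h7] at h5
  have hU : IsU (iz τ) := fun i j hij => by
    change ((τ.val i j : ℤ) : ℝ) = _
    by_cases hi : i = 0
    · subst hi
      rw [Fin.le_zero_iff.1 hij, h4]; simp
    · rw [h1 i hi]; split_ifs <;> simp
  have h5 := hT.lowU _ _ (hv'.1.inv.mul (hU.mul hv.1)) hlow
  rw [inv_mul_eq_one] at h5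
  exact (mul_inv_eq_one.1 (hT.uniq _ τ v hU hv (h5 ▸ hv'))).symm

/-- the condition on the first entry of a middle row -/
def Cd (e R : ℝ) (c : ℤ) (v : ℝ) (z a : ℤ) : Prop :=
  |(a : ℝ)| ≤ R ∧ c ∣ a * z ∧ |v| ≤ e ∧ |(a : ℝ)| * |v| ≤ e * |(c : ℝ)|

/-- the conditions on a middle row -/
def Row (e R : ℝ) (u : G (k + 1)) (j : Fin (k + 1)) (c : ℤ) (ξ v : Fin (k + 1) → ℤ) : Prop :=
  (∀ i, i < j → c * v i = v 0 * ξ i) ∧ c * v j = c + v 0 * ξ j ∧
    (∀ i, j < i → |(zv v ᵥ* u.val) i| ≤ 2) ∧ Cd e R c ((zv ξ ᵥ* u.val) j) (ξ j) (v 0)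

open Classical in
lemma row_le (hT : TriStmt) (e R : ℝ) {u : G (k + 1)} (hu : IsU u) (j : Fin (k + 1)) {c : ℤ}
    (hc : c ≠ 0) (ξ : Fin (k + 1) → ℤ) :
    ∑' v, (if Row e R u j c ξ v then (1 : ℝ≥0∞) else 0) ≤
      5 ^ (k + 1) * ∑' a : ℤ, if Cd e R c ((zv ξ ᵥ* u.val) j) (ξ j) a then 1 else 0 := by
  refine (le_inj _ (fun v => (v 0, fun i => if j < i then ⌊(zv v ᵥ* u.val) i⌋ else 0))
    (fun v v' h h' e' => ?_)
    (fun p => (if Cd e R c ((zv ξ ᵥ* u.val) j) (ξ j) p.1 then 1 else 0) *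
      ∏ i, if p.2 i ∈ Finset.Icc (-2 : ℤ) 2 then 1 else 0) fun v h => ?_).trans (le_of_eq ?_)
  · obtain ⟨e1, e2⟩ := Prod.mk.inj e'
    have h0 : ∀ i, i ≤ j → (v - v') i = 0 := fun i hi => by
      refine sub_eq_zero.2 (mul_left_cancel₀ hc ?_)
      rcases hi.eq_or_lt with rfl | hi
      · rw [h.2.1, h'.2.1, e1]
      · rw [h.1 i hi, h'.1 i hi, e1]
    refine sub_eq_zero.1 (hT.vec _ u hu _ fun i => ?_)
    rcases lt_or_ge j i with hi | hi
    · have := congrFun e2 i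
      simp only [if_pos hi] at this
      have e3 : zv (v - v') = zv v - zv v' := by ext i; simp [zv]
      rw [e3, Matrix.sub_vecMul]
      exact Int.abs_sub_lt_one_of_floor_eq_floor this
    · rw [Inj.vecMul_first hu fun l hl => by simp only [zv, h0 l (hl.le.trans hi), Int.cast_zero]]
      simp only [zv, h0 i hi, Int.cast_zero, abs_zero, zero_lt_one]
  · simp only [if_pos h.2.2.2, one_mul]
    refine (Finset.prod_eq_one fun i _ => if_pos ?_).ge
    split_ifs with hi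
    · have := abs_le.1 (h.2.2.1 i hi)
      exact Finset.mem_Icc.2 ⟨Int.le_floor.2 (by simpa using this.1),
        Int.floor_le_iff.2 (by push_cast; linarith)⟩
    · simp
  · have e5 : ∑' a : ℤ, (if a ∈ Finset.Icc (-2 : ℤ) 2 then (1 : ℝ≥0∞) else 0) = 5 := by
      rw [tsum_eq_sum (s := Finset.Icc (-2 : ℤ) 2) fun a ha => if_neg ha,
        Finset.sum_congr rfl fun a ha => if_pos ha]
      simp
    rw [ENNReal.tsum_prod']
    refine (tsum_congr fun a => ENNReal.tsum_mul_left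
      (a := if Cd e R c ((zv ξ ᵥ* u.val) j) (ξ j) a then 1 else 0)
      (f := fun b : Fin (k + 1) → ℤ => ∏ i, if b i ∈ Finset.Icc (-2 : ℤ) 2 then 1 else 0)).trans ?_
    rw [ENNReal.tsum_mul_right, tsum_pi (k + 1) fun _ a => if a ∈ Finset.Icc (-2 : ℤ) 2 then (1 : ℝ≥0∞) else 0, e5, mul_comm]
    simp

open Classical in
/-- the weight of one column -/
def ff (N : ℕ) (e R : ℝ) (c : ℤ) (j : Fin (N + 2)) (v : ℝ) (z : ℤ) : ℝ≥0∞ :=
  if j = Fin.last _ then (if |v - 1| ≤ e then 1 else 0)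
  else 5 ^ (N + 2) * ∑' a : ℤ, if Cd e R c v z a then 1 else 0

lemma ff_meas (e R : ℝ) (c : ℤ) (j : Fin (N + 2)) (z : ℤ) : Measurable fun v => ff N e R c j v z := by
  unfold ff
  split_ifs
  · exact Measurable.ite (measurableSet_le (by fun_prop) measurable_const) measurable_const
      measurable_const
  · refine (Measurable.tsum fun a => Measurable.ite ?_ measurable_const measurable_const).const_mul _
    exact (MeasurableSet.const _).inter ((MeasurableSet.const _).inter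
      ((measurableSet_le measurable_abs measurable_const).inter
        (measurableSet_le (measurable_abs.const_mul _) measurable_const)))

open Classical in
lemma pt (hT : TriStmt) {T e m : ℝ} (he : 0 < e) (he1 : e ≤ 1) (heT : 1 ≤ e * T) (hm : 0 < m)
    (hme : m * e ^ (N + 1) ≤ T ^ (N + 1)) {u : G (N + 2)} (hu : IsU u) :
    ∑' γ : GZ (N + 2), (if Wst γ ∧ Pos e (yv N T m) γ u then (1 : ℝ≥0∞) else 0) ≤
      ∑ c ∈ (Finset.Icc (-⌊e⁻¹ ^ N⌋) ⌊e⁻¹ ^ N⌋).erase 0, ∑' ξ : Fin (N + 2) → ℤ,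
        (if ξ 0 = c then 1 else 0) *
          ∏ j ∈ Finset.univ.erase 0, ff N e (T ^ (2 * N)) c j ((zv ξ ᵥ* u.val) j) (ξ j) := by
  have hT1 : 1 ≤ T := by nlinarith
  have hT0 : 0 < T := by linarith
  let F : ℤ → Fin (N + 2) → (Fin (N + 2) → ℤ) → (Fin (N + 2) → ℤ) → ℝ≥0∞ := fun c j ξ v =>
    if j = Fin.last _ then (if v = ξ then 1 else 0) * (if |(zv ξ ᵥ* u.val) j - 1| ≤ e then 1 else 0)
    else if Row e (T ^ (2 * N)) u j c ξ v then 1 else 0
  refine (le_inj (fun γ => Wst γ ∧ Pos e (yv N T m) γ u) (fun γ => (γ.val (Fin.last _), fun j : Fin (N + 1) => γ.val j.succ))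
    (fun γ γ' h h' e' => inj1 hT h.2 h'.2 fun j hj => ?_)
    (fun p => ∑ c ∈ (Finset.Icc (-⌊e⁻¹ ^ N⌋) ⌊e⁻¹ ^ N⌋).erase 0,
      (if p.1 0 = c then 1 else 0) * ∏ j : Fin (N + 1), F c j.succ p.1 (p.2 j))
    fun γ h => ?_).trans ?_
  · obtain ⟨j, rfl⟩ := Fin.exists_succ_eq.2 hj
    exact (congrFun (Prod.mk.inj e').2 j).symm
  · obtain ⟨⟨hc, hW⟩, hZ, -⟩ := h
    have hZ0 : ∀ j, (iz γ * u).val j 0 = (γ.val j 0 : ℝ) := fun j =>
      Cls.first_exp hu (iz γ).val fun i hi => absurd hi (Fin.not_lt_zero i)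
    have hem : e * m ≤ e⁻¹ ^ N * T ^ (N + 1) := by
      rw [inv_pow, le_inv_mul_iff₀ (by positivity)]
      exact le_of_eq_of_le (by ring) hme
    have hb : ∀ j, j ≠ 0 → |(γ.val j 0 : ℝ)| ≤ e⁻¹ ^ N * T ^ (N + 1 - j.val) := fun j hj => by
      have h1 := (hZ j hj).1 0 (Fin.pos_iff_ne_zero.2 hj)
      rw [hZ0, Cls.yv_zero, Cls.yv_ne hj] at h1
      calc _ ≤ _ := h1
        _ = e * m * T ^ (N + 1 - j.val) / T ^ (N + 1) := by field_simp
        _ ≤ e⁻¹ ^ N * T ^ (N + 1) * T ^ (N + 1 - j.val) / T ^ (N + 1) := by gcongr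
        _ = _ := by field_simp
    have hc1 := hb _ Fin.last_pos.ne'
    rw [Fin.val_last, Nat.sub_self, pow_zero, mul_one] at hc1
    have hmem : γ.val (Fin.last _) 0 ∈ (Finset.Icc (-⌊e⁻¹ ^ N⌋) ⌊e⁻¹ ^ N⌋).erase 0 :=
      Finset.mem_erase.2 ⟨hc, Finset.mem_Icc.2 (abs_le.1 (Int.le_floor.2 (by exact_mod_cast hc1)))⟩
    refine le_trans ?_ (Finset.single_le_sum (f := fun c => (if γ.val (Fin.last _) 0 = c then 1 else 0) *
      ∏ j : Fin (N + 1), F c j.succ (γ.val (Fin.last _)) (γ.val j.succ)) (fun _ _ => zero_le) hmem)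
    simp only [if_true, one_mul]
    refine (Finset.prod_eq_one fun j _ => ?_).ge
    have hj := Fin.succ_ne_zero j
    simp only [F]
    by_cases hl : j.succ = Fin.last _
    · rw [if_pos hl, hl, if_pos rfl, ← rowZ, if_pos (hZ _ Fin.last_pos.ne').2.1, mul_one]
    · obtain ⟨w1, w2⟩ := hW _ hj hl
      have hlt := lt_of_le_of_ne (Fin.le_last _) hl
      rw [if_neg hl, if_pos]
      refine ⟨w1, w2, (hZ _ hj).2.2, (hb _ hj).trans ?_, ⟨γ.val j.succ j.succ - 1, by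
        rw [mul_sub, w2]; ring⟩, ((hZ _ Fin.last_pos.ne').1 _ hlt).trans ?_, ?_⟩
      · have h1 : e⁻¹ ≤ T := by rw [inv_le_iff_one_le_mul₀' he]; exact heT
        rw [two_mul, pow_add]
        gcongr
        simp
      · rw [Cls.yv_ne hj, Cls.yv_ne Fin.last_pos.ne', Fin.val_last, Nat.sub_self, pow_zero]
        exact mul_le_of_le_one_right he.le ((div_le_one (by positivity)).2 (one_le_pow₀ hT1))
      · have h1 := Cls.right_exp hu (iz γ).val (j := j.succ) (l := Fin.last _) (i := j.succ)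
          (c := γ.val (Fin.last _) 0) (p := γ.val j.succ 0) fun i hi => by
            simp only [val_iz, Matrix.map_apply]; exact_mod_cast w1 i hi
        have h2 : (γ.val (Fin.last _) 0 : ℝ) * γ.val j.succ j.succ =
            γ.val (Fin.last _) 0 + γ.val j.succ 0 * γ.val (Fin.last _) j.succ := by exact_mod_cast w2
        have h3 : (γ.val j.succ 0 : ℝ) * (iz γ * u).val (Fin.last _) j.succ =
            ((iz γ * u).val j.succ j.succ - 1) * γ.val (Fin.last _) 0 := by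
          simp only [val_iz, Matrix.map_apply] at h1
          rw [Units.val_mul, val_iz]
          linear_combination -h1 - h2
        rw [← rowZ, ← abs_mul, h3, abs_mul]
        exact mul_le_mul_of_nonneg_right (hZ _ hj).2.1 (abs_nonneg _)
  · rw [Summable.tsum_finsetSum fun _ _ => ENNReal.summable]
    refine Finset.sum_le_sum fun c hc => ?_
    rw [ENNReal.tsum_prod']
    refine ENNReal.tsum_le_tsum fun ξ => ?_
    refine (ENNReal.tsum_mul_left (a := if ξ 0 = c then 1 else 0)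
      (f := fun b : Fin (N + 1) → Fin (N + 2) → ℤ => ∏ j, F c j.succ ξ (b j))).trans_le ?_
    rw [tsum_pi (N + 1) fun j v => F c j.succ ξ v, Col.erase_prod]
    refine mul_le_mul_right (Finset.prod_le_prod' fun j _ => ?_) _
    simp only [F, ff]
    split_ifs with h1 h2
    · simp
    · simp
    · exact row_le hT _ _ hu _ (Finset.mem_erase.1 hc).1 ξ

end Cnt

open Cnt in
theorem cnt (hO : OneStmt) (hC : ColStmt) (hT : TriStmt) : CntStmt := by
  intro N ε hε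
  obtain ⟨C, hC0, hO⟩ := hO N ε hε
  refine ⟨3 * ((5 ^ (N + 2)) ^ N * C * 2), by positivity, fun T e m he he1 heT hm hme => ?_⟩
  have hT1 : 1 ≤ T := by nlinarith
  have hT0 : 0 < T := by linarith
  have hB : 1 ≤ e⁻¹ ^ N := one_le_pow₀ ((one_le_inv₀ he).2 he1)
  have hfl := Int.floor_le (e⁻¹ ^ N)
  refine (lintegral_mono fun y => pt hT he he1 heT hm hme (isU_un _ y)).trans
    ((lintegral_finsetSum _ fun c _ => Measurable.tsum fun ξ => (Finset.measurable_prod _ fun j _ =>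
      (ff_meas _ _ c j _).comp (Col.meas_v ξ j)).const_mul _).trans_le ?_)
  refine (Finset.sum_le_card_nsmul _ _
    (ENNReal.ofReal ((5 ^ (N + 2)) ^ N * (C * T ^ ε) * e ^ N * 2)) fun c hc => ?_).trans ?_
  · obtain ⟨hc0, hc1⟩ := Finset.mem_erase.1 hc
    have h1 : e⁻¹ ≤ T := by rw [inv_le_iff_one_le_mul₀' he]; exact heT
    have h2 : |(c : ℝ)| ≤ T ^ N := by
      have h3 : ((|c| : ℤ) : ℝ) ≤ (⌊e⁻¹ ^ N⌋ : ℤ) := by exact_mod_cast abs_le.2 (Finset.mem_Icc.1 hc1)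
      rw [Int.cast_abs] at h3
      exact h3.trans (hfl.trans (by gcongr))
    obtain ⟨S, hS0, hS, H⟩ := hO T hT1 c hc0 h2
    refine (hC (N + 1) c (ff N e (T ^ (2 * N)) c) (fun j => if j = Fin.last _ then
      ENNReal.ofReal (2 * e) else 5 ^ (N + 2) * ENNReal.ofReal (S * e)) (ff_meas _ _ c)
      fun j _ s => ?_).trans ?_
    · obtain ⟨H1, H2⟩ := H e _ s he le_rfl
      simp only [ff]
      split_ifs
      · exact H2
      · simp only [ENNReal.tsum_mul_left]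
        rw [lintegral_const_mul' _ _ (by simp)]
        refine mul_le_mul_right (le_of_eq_of_le ?_ H1) _
        simp only [Cd]
        congr!
    · rw [Col.erase_prod, Fin.prod_univ_castSucc, Fin.succ_last, if_pos rfl,
        Finset.prod_congr rfl fun j _ => if_neg (by
          rw [Fin.succ_castSucc]; exact Fin.castSucc_ne_last _), Finset.prod_const, Finset.card_univ,
        Fintype.card_fin, ← ENNReal.ofReal_ofNat, ← ENNReal.ofReal_pow (by norm_num),
        ← ENNReal.ofReal_mul (by positivity), ← ENNReal.ofReal_pow (by positivity),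
        ← ENNReal.ofReal_mul (by positivity)]
      refine ENNReal.ofReal_le_ofReal ?_
      rw [mul_pow, mul_pow, ← mul_assoc ((5 ^ (N + 2)) ^ N : ℝ)]
      gcongr
      linarith
  · rw [nsmul_eq_mul, ← ENNReal.ofReal_natCast, ← ENNReal.ofReal_mul (by positivity)]
    refine ENNReal.ofReal_le_ofReal ?_
    have h1 : (((Finset.Icc (-⌊e⁻¹ ^ N⌋) ⌊e⁻¹ ^ N⌋).erase 0).card : ℝ) ≤ 3 * e⁻¹ ^ N := by
      have h2 := Finset.card_erase_le (s := Finset.Icc (-⌊e⁻¹ ^ N⌋) ⌊e⁻¹ ^ N⌋) (a := 0)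
      have h3 : 0 ≤ ⌊e⁻¹ ^ N⌋ := Int.floor_nonneg.2 (by positivity)
      have h4 := Int.card_Icc_of_le (-⌊e⁻¹ ^ N⌋) ⌊e⁻¹ ^ N⌋ (by omega)
      have h5 : ((Finset.Icc (-⌊e⁻¹ ^ N⌋) ⌊e⁻¹ ^ N⌋).card : ℝ) =
          (⌊e⁻¹ ^ N⌋ : ℤ) + 1 - -(⌊e⁻¹ ^ N⌋ : ℤ) := by exact_mod_cast h4
      have h6 : (((Finset.Icc (-⌊e⁻¹ ^ N⌋) ⌊e⁻¹ ^ N⌋).erase 0).card : ℝ) ≤
          (Finset.Icc (-⌊e⁻¹ ^ N⌋) ⌊e⁻¹ ^ N⌋).card := by exact_mod_cast h2
      linarith
    calc _ ≤ 3 * e⁻¹ ^ N * ((5 ^ (N + 2)) ^ N * (C * T ^ ε) * e ^ N * 2) := by gcongr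
      _ = _ := by rw [inv_pow]; field_simp

end B

end Pool.Agent.Lib.MP_fa98d2_nt.D
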