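import Pool.Agent.Lib.MP_fa98d2_nt.D.Main
import Pool.Agent.Lib.MP_fa98d2_nt.B.Stm

/-! Density theorem with off-diagonal terms: the duality argument and the final deduction. -/

open MeasureTheory Filter Topology Matrix
open scoped ENNReal Real ContDiff ComplexConjugate

noncomputable section

namespace Pool.Agent.Lib.MP_fa98d2_nt.D

namespace B

open Main

def MainBStmt : Prop :=
  ∀ (N : ℕ) (C0 ε : ℝ), 0 < ε → ∃ C : ℝ, ∀ p : ℕ, p.Prime → ∀ T : ℝ, 1 ≤ T → ∀ σ : ℝ, 0 ≤ σ →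
    ∀ (ι : Type) [Fintype ι] (α : ι → ℕ → Fin (N + 2) → ℂ) (γ : ι → ℕ → ℂ),
      (∀ j, Pr1 (α j)) → (∀ j, Gam (N + 2) C0 T (γ j)) →
      (∀ j, ∃ w, w ≠ 0 ∧ InV (α j) w ∧ Cen (γ j) w) →
      (∀ i j, i ≠ j → ∃ q : ℕ, q.Prime ∧ ∃ r, r ≤ N + 2 ∧ esy (α i q) r ≠ esy (α j q) r) →
      (∀ j, σ ≤ thetaP (α j) p) →
      (Fintype.card ι : ℝ) ≤ C * (p : ℝ) ^ (N + 2) *
        T ^ (((N + 1) * (N + 4) : ℝ) / 2 - 4 * (N + 1) * σ + ε)

/-- the mean square bound for the coefficients at one integer -/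
lemma coreB (hSh : ShinStmt) (hO : OrthStmt) (hI : IsoStmt) (hL : LocStmt) (hR : RBStmt)
    (hJ : InjBStmt) (hW : WhStmt) (hQ : QuotStmt) (N : ℕ) (C0 ε : ℝ) (hε : 0 < ε) :
    ∃ T1 c3 C : ℝ, 0 < c3 ∧ 0 < C ∧ ∀ T : ℝ, 1 ≤ T → T1 ≤ T →
      ∀ (ι : Type) [Fintype ι] (α : ι → ℕ → Fin (N + 2) → ℂ) (γ : ι → ℕ → ℂ)
        (S : ι → ℕ → (Fin (N + 2) → ℕ) → ℂ),
      (∀ j, Pr1 (α j)) → (∀ j, Gam (N + 2) C0 T (γ j)) →
      (∀ j, ∃ w, w ≠ 0 ∧ InV (α j) w ∧ Cen (γ j) w) →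
      (∀ i j, i ≠ j → ∃ q : ℕ, q.Prime ∧ ∃ r, r ≤ N + 2 ∧ esy (α i q) r ≠ esy (α j q) r) →
      (∀ j q, q.Prime → IsSch (α j q) (S j q)) →
      (∀ j q, q.Prime → ∀ i, ‖α j q i‖ ≤ Real.sqrt q) ∧
      ∀ m : ℕ+, ((m : ℕ) : ℝ) ≤ c3 * T ^ (2 * N + 2) →
        ∑ j, ‖mulf (fun q e => S j q (lam e)) (m1 N m)‖ ^ 2 ≤
          C * T ^ ((N + 1 + (N + 2).choose 2 : ℕ) + ε) := by
  obtain ⟨c, CL, CM, hc, hc1, hCL, hL⟩ := hL (N + 1) C0
  obtain ⟨d0, c3, CI, hd0, hc3, hCI, hJ0⟩ := hJ N (ε / 2) (half_pos hε)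
  obtain ⟨CR, hCR, hR⟩ := hR (N + 1) (by omega) CM (ε / 2) (half_pos hε)
  refine ⟨1 / d0, c3, CL * CI * CR, hc3, by positivity, ?_⟩
  intro T hT hT1 ι _ α γ S hP hG hw hne hS
  have hT0 : 0 < T := by linarith
  have hJ : ∀ m : ℕ+, ((m : ℕ) : ℝ) ≤ c3 * T ^ (2 * N + 2) → ∀ F : G (N + 2) → ℂ, Aut F →
      ENNReal.ofReal (dl (tm (m1 N m))) * II (N + 2) (fun g =>
        (Om (up (dg (tT (N + 1) T))) (c / T)).indicator 1 g *
          ‖Wf (zm (m1 N m)) F ((dg (tm (m1 N m)))⁻¹ * g)‖ₑ ^ 2) ≤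
        ENNReal.ofReal (CI * T ^ (ε / 2) / T) * N2 F := fun m hm F hF => by
    have h := hJ0 T hT (1 / T) le_rfl ((one_div_le hT0 hd0).2 hT1) m
      (hm.trans (le_of_eq (by rw [div_div_eq_mul_div, div_one, ← sq, ← pow_mul]; ring))) F hF
    rw [show CI * (1 / T) * T ^ (ε / 2) = CI * T ^ (ε / 2) / T by ring] at h
    refine le_trans (mul_le_mul_right (lintegral_mono fun x => mul_le_mul_left ?_ _) _) h
    refine Set.indicator_le_indicator_of_subset ?_ (fun _ => zero_le) _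
    rintro g ⟨u, hu, x, hx, rfl⟩
    refine ⟨u, hu, x, fun i j => (hx i j).trans_le ?_, rfl⟩
    have : (0 : ℝ) ≤ ((N + 1 : ℕ) : ℝ) := Nat.cast_nonneg _
    gcongr; nlinarith
  obtain ⟨Λ, b, hb, hlin, hup, hlow⟩ := hL T hT
  choose R hRi using fun j => hI (N + 1) (by omega) (α j) (hP j)
    (by obtain ⟨w, h1, h2, -⟩ := hw j; exact ⟨w, h1, h2⟩)
  have hA := fun j => hlow (α j) (γ j) (R j) (hG j) (hRi j) (hw j)
  choose w hw0 hwV hwl using fun j => (hA j).1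
  have hRb := fun j => hR T hT (α j) (R j) (hP j) (hRi j) (hA j).2
  refine ⟨fun j => (hRb j).2, fun m hm => ?_⟩
  set cc : ι → ℂ := fun j => mulf (fun q e => S j q (lam e)) (m1 N m) with hcc
  have hfin : ∀ j, N2 (w j) < ⊤ := fun j => by simpa [Rw] using (hwV j).l2 []
  have hL2 : ∀ j, MemLp (w j) 2 (nu (N + 2)) := fun j => memLp (hwV j).aut.cont (hfin j)
  have hn0 : ∀ j, N2 (w j) ≠ 0 := fun j h => hw0 j (hQ.pos _ _ (hwV j).aut h)
  have hn : ∀ j, 0 < (N2 (w j)).toReal := fun j => ENNReal.toReal_pos (hn0 j) (hfin j).ne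
  have hor : ∀ i j, i ≠ j → ip (w i) (w j) = 0 := fun i j hij =>
    hO.orth _ (α i) (α j) _ _ (hwV i).aut (hwV j).aut (hfin i) (hfin j) (hwV i).hk (hwV j).hk
      (hne i j hij)
  have hWc : ∀ j, Continuous (W1 (w j)) := fun j => hW.cont _ _ _ (hwV j).aut.cont
  set K : ℝ := CL * b * T ^ (N + 1 + 1 + (N + 1 + 1).choose 2) * (CI * T ^ (ε / 2) / T) with hK
  have hK0 : 0 ≤ K := by positivity
  have hd := dual (fun j => cc j * Λ (W1 (w j))) (fun j => (N2 (w j)).toReal) hn K hK0 (by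
    intro z
    set W : G (N + 2) → ℂ := fun g => ∑ j, (z j * cc j) * W1 (w j) g with hWdef
    have hWcont : Continuous W := continuous_finsetSum _ fun j _ => continuous_const.mul (hWc j)
    have hWU : UInv fun g => ‖W g‖ := by
      intro u hu g
      have : W (u * g) = psi (zv fun _ => 1) u * W g := by
        simp only [hWdef, Finset.mul_sum]
        refine Finset.sum_congr rfl fun j _ => ?_
        have := hW.eqv _ (fun _ => 1) (w j) (hwV j).aut.cont (uz_of_aut (hwV j).aut) u hu g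
        simp only [W1]
        rw [this]; ring
      simp only [this, norm_mul, norm_psi, one_mul]
    have e1 : Λ W = ∑ j, z j * (cc j * Λ (W1 (w j))) := by
      rw [hWdef, hlin ι Finset.univ _ _ hWc]
      exact Finset.sum_congr rfl fun j _ => by ring
    have h1 := hup W hWcont hWU
    have h2 := hJ m hm _ (aut_sum w (fun j => (hwV j).aut) z)
    rw [n2_sum w hL2 hor z, wf_sum hW _ _ w (fun j => (hwV j).aut.cont) z] at h2
    have hdl : 0 < dl (tm (m1 N m)) := dl_pos (tm_pos _)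
    have e2 : ∀ g, ∑ j, z j * Wf (zm (m1 N m)) (w j) ((dg (tm (m1 N m)))⁻¹ * g) =
        ((dl (tm (m1 N m)) ^ (-(1 / 2) : ℝ) : ℝ) : ℂ) * W g := by
      intro g
      simp only [hWdef, Finset.mul_sum]
      refine Finset.sum_congr rfl fun j _ => ?_
      rw [hSh (N + 1) (α j) (S j) (hS j) (w j) (hwV j).aut (hwV j).hk (m1 N m), mul_inv_cancel_left]
      simp only [hcc]; ring
    simp only [e2] at h2
    have e3 : ENNReal.ofReal (dl (tm (m1 N m))) * II (N + 2) (fun g =>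
        (Om (up (dg (tT (N + 1) T))) (c / T)).indicator 1 g *
          ‖((dl (tm (m1 N m)) ^ (-(1 / 2) : ℝ) : ℝ) : ℂ) * W g‖ₑ ^ 2) =
        II (N + 2) (fun g => (Om (up (dg (tT (N + 1) T))) (c / T)).indicator 1 g * ‖W g‖ₑ ^ 2) := by
      unfold II
      rw [← lintegral_const_mul' _ _ ENNReal.ofReal_ne_top]
      congr 1; ext x
      have : ENNReal.ofReal (dl (tm (m1 N m))) *
          ‖((dl (tm (m1 N m)) ^ (-(1 / 2) : ℝ) : ℝ) : ℂ)‖ₑ ^ 2 = 1 := by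
        rw [← ofReal_norm, Complex.norm_real,
          Real.norm_of_nonneg (Real.rpow_nonneg hdl.le _),
          ← ENNReal.ofReal_pow (Real.rpow_nonneg hdl.le _), ← ENNReal.ofReal_mul hdl.le,
          ← Real.rpow_natCast, ← Real.rpow_mul hdl.le]
        norm_num
        rw [Real.rpow_neg_one, mul_inv_cancel₀ hdl.ne']
      simp only []
      rw [enorm_mul, mul_pow]
      calc _ = (ENNReal.ofReal (dl (tm (m1 N m))) *
          ‖((dl (tm (m1 N m)) ^ (-(1 / 2) : ℝ) : ℝ) : ℂ)‖ₑ ^ 2) *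
          ((Om (up (dg (tT (N + 1) T))) (c / T)).indicator 1 (sg (N + 2) x) *
            ‖W (sg (N + 2) x)‖ₑ ^ 2) := by ring
        _ = _ := by rw [this, one_mul]
    rw [e3] at h2
    have h3 := h1.trans (mul_le_mul_right h2 _)
    have hs0 : 0 ≤ ∑ j, ‖z j‖ ^ 2 * (N2 (w j)).toReal :=
      Finset.sum_nonneg fun j _ => by positivity
    rw [← ofReal_norm, ← ENNReal.ofReal_pow (norm_nonneg _),
      ← ENNReal.ofReal_mul (by positivity), ← ENNReal.ofReal_mul (by positivity),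
      ENNReal.ofReal_le_ofReal_iff (by positivity), e1] at h3
    refine h3.trans (le_of_eq ?_)
    rw [hK]; ring)
  have hlow2 : ∀ j, b / (CR * T ^ (ε / 2)) * ‖cc j‖ ^ 2 ≤
      ‖cc j * Λ (W1 (w j))‖ ^ 2 / (N2 (w j)).toReal := by
    intro j
    have hRj := (hRi j).1
    have h1 := hwl j
    have h2 := (hRi j).2 (w j) (hwV j)
    have hKf : KK 1 (W1 (w j)) ≠ ⊤ := by
      intro h
      have := hfin j
      rw [h2, h, ENNReal.mul_top (by simpa using hRj)] at this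
      exact lt_irrefl _ this
    have h3 : b * (KK 1 (W1 (w j))).toReal ≤ ‖Λ (W1 (w j))‖ ^ 2 := by
      have := ENNReal.toReal_mono (by simp) h1
      simpa [ENNReal.toReal_mul, ENNReal.toReal_ofReal hb.le] using this
    have h4 : (N2 (w j)).toReal = R j * (KK 1 (W1 (w j))).toReal := by
      rw [h2, ENNReal.toReal_mul, ENNReal.toReal_ofReal hRj.le]
    have h5 := (hRb j).1
    have hTe : 0 < T ^ (ε / 2) := Real.rpow_pos_of_pos hT0 _
    rw [le_div_iff₀ (hn j), norm_mul, mul_pow, h4]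
    have hk0 : 0 ≤ (KK 1 (W1 (w j))).toReal := ENNReal.toReal_nonneg
    calc b / (CR * T ^ (ε / 2)) * ‖cc j‖ ^ 2 * (R j * (KK 1 (W1 (w j))).toReal)
        = ‖cc j‖ ^ 2 * (b * (KK 1 (W1 (w j))).toReal) * (R j / (CR * T ^ (ε / 2))) := by ring
      _ ≤ ‖cc j‖ ^ 2 * ‖Λ (W1 (w j))‖ ^ 2 * 1 := by
        gcongr
        exact (div_le_one (by positivity)).2 h5
      _ = _ := mul_one _
  have h6 : b / (CR * T ^ (ε / 2)) * ∑ j, ‖cc j‖ ^ 2 ≤ K := by
    rw [Finset.mul_sum]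
    exact (Finset.sum_le_sum fun j _ => hlow2 j).trans hd
  have hTe : 0 < T ^ (ε / 2) := Real.rpow_pos_of_pos hT0 _
  rw [div_mul_eq_mul_div, div_le_iff₀ (by positivity)] at h6
  rw [Real.rpow_add hT0, Real.rpow_natCast, ← add_halves ε, Real.rpow_add hT0]
  have e : K * (CR * T ^ (ε / 2)) = b * (CL * CI * CR * (T ^ (N + 1 + (N + 2).choose 2) *
      (T ^ (ε / 2) * T ^ (ε / 2)))) := by
    rw [hK, show N + 1 + 1 + (N + 1 + 1).choose 2 = (N + 1 + (N + 2).choose 2) + 1 by ring, pow_succ]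
    field_simp
  rw [e] at h6
  exact le_of_mul_le_mul_left h6 hb

theorem mainB (hS : SchurStmt) (hSh : ShinStmt) (hO : OrthStmt) (hI : IsoStmt) (hL : LocStmt)
    (hR : RBStmt) (hJ : InjBStmt) (hW : WhStmt) (hQ : QuotStmt) : MainBStmt := by
  intro N C0 ε hε
  obtain ⟨T1, c3, C, hc3, hC, hcore⟩ := coreB hSh hO hI hL hR hJ hW hQ N C0 ε hε
  set T0 : ℝ := max 1 (max c3⁻¹ T1) with hT0
  have hT01 : 1 ≤ T0 := le_max_left _ _
  set d : ℝ := ((N + 1) * (N + 4) : ℝ) / 2 with hd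
  refine ⟨4 ^ (N + 1) * (N + 2) ^ 2 * C * T0 * T0 ^ (d + ε), ?_⟩
  intro p hp T hT σ hσ ι _ α γ hP hG hw hne hθ
  have hp1 : (1 : ℝ) < p := by exact_mod_cast hp.one_lt
  have hp0 : (0 : ℝ) < p := by linarith
  have hTp : 0 < T := by linarith
  rcases isEmpty_or_nonempty ι with hι | ⟨⟨j0⟩⟩
  · rw [Fintype.card_eq_zero, Nat.cast_zero]; positivity
  have hC0 : 0 ≤ C0 := by simpa using (norm_nonneg _).trans (hG j0 0 (by omega))
  set T' := T0 * T with hT'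
  have hTT : T ≤ T' := le_mul_of_one_le_left hTp.le hT01
  have hT1 : 1 ≤ T' := hT.trans hTT
  have hT'p : 0 < T' := by linarith
  have hG' : ∀ j, Gam (N + 2) C0 T' (γ j) := fun j m hm =>
    (hG j m hm).trans (by gcongr)
  have hSe : ∀ j q, ∃ S, q.Prime → IsSch (α j q) S := by
    intro j q
    by_cases hq : q.Prime
    · obtain ⟨S, h⟩ := hS.isSch (α j q) (hP j q hq)
      exact ⟨S, fun _ => h⟩
    · exact ⟨0, fun h => (hq h).elim⟩
  choose S hSs using hSe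
  obtain ⟨hb, hsum⟩ := hcore T' hT1 (((le_max_right _ _).trans (le_max_right _ _)).trans
    (le_mul_of_one_le_right (by linarith) hT)) ι α γ S hP hG' hw hne hSs
  rw [cast_d] at hsum
  have hbig : ∀ j, ∃ i, (p : ℝ) ^ σ ≤ ‖α j p i‖ := by
    intro j
    obtain ⟨w, h0, hV, -⟩ := hw j
    exact exists_big (α j) hp (hP j p hp) (hO.unit _ (α j) w hV.aut
      (by simpa [Rw] using hV.l2 []) h0 hV.hk (hP j) p hp) (hθ j)
  have hσ2 : 2 * σ ≤ 1 := by
    obtain ⟨i, hi⟩ := hbig j0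
    have := hi.trans (hb j0 p hp i)
    rw [Real.sqrt_eq_rpow, Real.rpow_le_rpow_left_iff hp1] at this
    linarith
  set Xr := c3 * T' ^ (2 * N + 2) with hX
  have hc3T : 1 ≤ c3 * T0 := by
    have : c3⁻¹ ≤ T0 := (le_max_left _ _).trans (le_max_right _ _)
    calc (1 : ℝ) = c3 * c3⁻¹ := (mul_inv_cancel₀ hc3.ne').symm
      _ ≤ _ := by gcongr
  have hX1 : 1 ≤ Xr := by
    have h1 : T0 ≤ T' := le_mul_of_one_le_right (by linarith) hT
    have h2 : T' ≤ T' ^ (2 * N + 2) := le_self_pow₀ hT1 (by omega)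
    calc (1 : ℝ) ≤ c3 * T0 := hc3T
      _ ≤ c3 * T' ^ (2 * N + 2) := mul_le_mul_of_nonneg_left (h1.trans h2) hc3.le
  obtain ⟨l, hl1, hl2⟩ := exists_nat_pow_near hX1 hp1
  have hterm : ∀ t, ∑ j, ‖S j p (Pi.single 0 (l - t))‖ ^ 2 ≤ C * T' ^ (d + ε) := by
    intro t
    have h1 := hsum ⟨p ^ (l - t), pow_pos hp.pos _⟩ (by
      refine le_trans ?_ hl1
      simp only [PNat.mk_coe, Nat.cast_pow]
      exact pow_le_pow_right₀ hp1.le (by omega))
    refine le_of_eq_of_le (Finset.sum_congr rfl fun j _ => ?_) h1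
    rw [mulf_m1 hp _ _ (by
      have : lam (0 : Fin (N + 1) → ℕ) = 0 := by ext i; simp [lam]
      simp only [this]; exact (hSs j p hp).1), lam_single]
  have hA : (Fintype.card ι : ℝ) * (p : ℝ) ^ (2 * σ * l) ≤
      4 ^ (N + 1) * (p : ℝ) ^ (N + 1) * (N + 2) * ((N + 2) * (C * T' ^ (d + ε))) := by
    calc (Fintype.card ι : ℝ) * (p : ℝ) ^ (2 * σ * l) = ∑ _j : ι, (p : ℝ) ^ (2 * σ * l) := by simp
      _ ≤ ∑ j : ι, 4 ^ (N + 1) * (p : ℝ) ^ (N + 1) * (((N + 1 : ℕ) : ℝ) + 1) *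
          ∑ t ∈ Finset.range (min l (N + 1) + 1), ‖S j p (Pi.single 0 (l - t))‖ ^ 2 := by
        refine Finset.sum_le_sum fun j _ => ?_
        obtain ⟨i, hi⟩ := hbig j
        exact blomer (hSs j p hp) hp1.le (hb j p hp) hi l
      _ = 4 ^ (N + 1) * (p : ℝ) ^ (N + 1) * (N + 2) * ∑ t ∈ Finset.range (min l (N + 1) + 1),
          ∑ j : ι, ‖S j p (Pi.single 0 (l - t))‖ ^ 2 := by
        rw [← Finset.mul_sum, Finset.sum_comm]; push_cast; ring
      _ ≤ _ := by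
        gcongr
        refine (Finset.sum_le_sum fun t _ => hterm t).trans ?_
        rw [Finset.sum_const, Finset.card_range, nsmul_eq_mul]
        gcongr
        have : min l (N + 1) + 1 ≤ N + 2 := by omega
        exact_mod_cast this
  have hB : T ^ (4 * (N + 1) * σ) ≤ T0 * p * (p : ℝ) ^ (2 * σ * l) := by
    have h1 : T ^ (2 * N + 2) ≤ T0 * p * (p : ℝ) ^ l := by
      calc T ^ (2 * N + 2) ≤ (c3 * T0) * T' ^ (2 * N + 2) := by
            rw [← one_mul (T ^ (2 * N + 2))]; gcongr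
        _ = T0 * Xr := by rw [hX]; ring
        _ ≤ T0 * (p : ℝ) ^ (l + 1) := by gcongr
        _ = _ := by ring
    have h2 : T ^ (4 * (N + 1) * σ) = (T ^ (2 * N + 2)) ^ (2 * σ) := by
      rw [← Real.rpow_natCast, ← Real.rpow_mul hTp.le]; congr 1; push_cast; ring
    have h3 : (p : ℝ) ^ (2 * σ * l) = ((p : ℝ) ^ l) ^ (2 * σ) := by
      rw [← Real.rpow_natCast, ← Real.rpow_mul hp0.le]; congr 1; ring
    have h4 : 1 ≤ T0 * p := one_le_mul_of_one_le_of_one_le hT01 hp1.le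
    rw [h2, h3]
    calc (T ^ (2 * N + 2)) ^ (2 * σ) ≤ (T0 * p * (p : ℝ) ^ l) ^ (2 * σ) := by gcongr
      _ = (T0 * p) ^ (2 * σ) * ((p : ℝ) ^ l) ^ (2 * σ) := Real.mul_rpow (by positivity) (by positivity)
      _ ≤ (T0 * p) ^ (1 : ℝ) * ((p : ℝ) ^ l) ^ (2 * σ) := by gcongr
      _ = _ := by rw [Real.rpow_one]
  have hE : T ^ (d - 4 * (N + 1) * σ + ε) = T ^ (d + ε) / T ^ (4 * (N + 1) * σ) := by
    rw [← Real.rpow_sub hTp]; congr 1; ring
  rw [hE, ← mul_div_assoc, le_div_iff₀ (by positivity)]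
  have hF : T' ^ (d + ε) = T0 ^ (d + ε) * T ^ (d + ε) := Real.mul_rpow (by positivity) hTp.le
  calc (Fintype.card ι : ℝ) * T ^ (4 * (N + 1) * σ)
      ≤ (Fintype.card ι : ℝ) * (T0 * p * (p : ℝ) ^ (2 * σ * l)) := by gcongr
    _ = T0 * p * ((Fintype.card ι : ℝ) * (p : ℝ) ^ (2 * σ * l)) := by ring
    _ ≤ T0 * p * (4 ^ (N + 1) * (p : ℝ) ^ (N + 1) * (N + 2) * ((N + 2) * (C * T' ^ (d + ε)))) := by
      gcongr
    _ = _ := by rw [hF]; ring

theorem finalB (hM : MainBStmt) (hMu : MultStmt) (hB : BridgeStmt) (hV : ClassStmt) : FinalBStmt := by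
  intro n hn ε hε
  obtain ⟨N, rfl⟩ : ∃ N, n = N + 2 := ⟨n - 2, by omega⟩
  obtain ⟨C0, hB⟩ := hB (N + 2)
  obtain ⟨C, hM⟩ := hM N C0 ε hε
  refine ⟨C, fun p hp T hT σ hσ ι _ φ μ α hφ hnp hμ hθ => ?_⟩
  have h := fun j => hB (φ j) (μ j) (α j) (hφ j) T hT (hμ j)
  choose γ hγ using fun j => (h j).2.2.2
  have key := hM p hp T hT σ hσ ι α γ (fun j => (h j).2.2.1) (fun j => (hγ j).1) (fun j => by
    obtain ⟨f, hf, hf', h0⟩ := hV.init _ _ (h j).1.aut.cont (h j).1.ne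
    exact ⟨_, h0, hV.convV _ _ _ (h j).1.aut (h j).1.cusp (h j).1.hk (h j).1.l2 f hf hf',
      hV.convC _ _ _ (h j).2.1 (hγ j).2 f hf hf'⟩) (fun i j hij => by
    by_contra hcon
    push Not at hcon
    have hF : Form (α i) fun g : G (N + 2) => φ j g.val :=
      ⟨(h j).1.aut, (h j).1.cusp, fun q hq r hr g => by
        rw [hcon q hq _ (Nat.sub_le _ _)]; exact (h j).1.hk q hq r hr g,
        (h j).1.l2, (h j).1.ne, (h j).1.sph⟩
    obtain ⟨c, hc⟩ := hMu (N + 1) (by omega) (α i) _ _ (h i).2.2.1 (h i).1 hF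
    refine hnp i j hij ⟨c, fun g hg => ?_⟩
    have := congrFun hc (mkG g)
    simpa [val_mkG hg] using this) hθ
  convert key using 3
  push_cast; ring

end B

end Pool.Agent.Lib.MP_fa98d2_nt.D
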