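import Pool.Agent.Lib.MP_fa98d2_nt.B.Stm

/-! Density theorem with off-diagonal terms: the integral over one column. -/

open MeasureTheory Filter Topology Matrix
open scoped ENNReal Real ComplexConjugate

noncomputable section

namespace Pool.Agent.Lib.MP_fa98d2_nt.D

namespace B

namespace Oc

lemma divisor_bound {ε : ℝ} (hε : 0 < ε) :
    ∃ C : ℝ, 1 ≤ C ∧ ∀ n : ℕ, n ≠ 0 → (n.divisors.card : ℝ) ≤ C * (n : ℝ) ^ ε := by
  have hl : 0 < Real.log 2 := Real.log_pos (by norm_num)
  set c : ℝ := 1 + 1 / (ε * Real.log 2) with hc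
  have hc1 : 1 ≤ c := by rw [hc]; have : 0 < 1 / (ε * Real.log 2) := by positivity
                         linarith
  set L : ℕ := ⌈(2 : ℝ) ^ (1 / ε)⌉₊ with hL
  refine ⟨c ^ L, one_le_pow₀ hc1, fun n hn => ?_⟩
  have key : ∀ p ∈ n.primeFactors, ((n.factorization p + 1 : ℕ) : ℝ) ≤
      (if p < L then c else 1) * (((p : ℝ) ^ n.factorization p) ^ ε) := by
    intro p hp
    have hp2 : (2 : ℝ) ≤ p := by exact_mod_cast (Nat.prime_of_mem_primeFactors hp).two_le
    set a := n.factorization p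
    have ha0 : (0 : ℝ) ≤ a := Nat.cast_nonneg a
    split_ifs with h
    · have h1 : ((2 : ℝ) ^ a) ^ ε ≤ ((p : ℝ) ^ a) ^ ε := by gcongr
      have h2 : 1 + a * (ε * Real.log 2) ≤ ((2 : ℝ) ^ a) ^ ε := by
        rw [Real.rpow_def_of_pos (by positivity), Real.log_pow]
        have := Real.add_one_le_exp (a * Real.log 2 * ε)
        nlinarith
      have h3 : ((a + 1 : ℕ) : ℝ) ≤ c * (1 + a * (ε * Real.log 2)) := by
        have hx : 0 < ε * Real.log 2 := by positivity
        have : c * (1 + a * (ε * Real.log 2)) =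
            1 + a * (ε * Real.log 2) + 1 / (ε * Real.log 2) + a := by rw [hc]; field_simp; ring
        rw [this]; push_cast
        have : 0 < 1 / (ε * Real.log 2) := by positivity
        nlinarith [mul_nonneg ha0 hx.le]
      exact h3.trans (mul_le_mul_of_nonneg_left (h2.trans h1) (by linarith))
    · have h1 : (2 : ℝ) ^ (1 / ε) ≤ p := by
        have : (L : ℝ) ≤ p := by exact_mod_cast not_lt.mp h
        exact (Nat.le_ceil _).trans this
      have h2 : (2 : ℝ) ≤ (p : ℝ) ^ ε := by
        have := Real.rpow_le_rpow (by positivity) h1 hε.le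
        rwa [← Real.rpow_mul (by norm_num), one_div_mul_cancel hε.ne', Real.rpow_one] at this
      have h3 : ((p : ℝ) ^ a) ^ ε = ((p : ℝ) ^ ε) ^ a := by
        rw [← Real.rpow_natCast, ← Real.rpow_natCast, ← Real.rpow_mul (by positivity),
          ← Real.rpow_mul (by positivity), mul_comm]
      rw [one_mul, h3]
      have h4 : ((a + 1 : ℕ) : ℝ) ≤ 2 ^ a := by exact_mod_cast Nat.lt_two_pow_self
      exact h4.trans (pow_le_pow_left₀ (by norm_num) h2 a)
  rw [Nat.card_divisors hn, Nat.cast_prod]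
  refine (Finset.prod_le_prod (fun p _ => by positivity) key).trans ?_
  rw [Finset.prod_mul_distrib, Real.finsetProd_rpow _ _ (fun p _ => by positivity)]
  have h5 : ∏ p ∈ n.primeFactors, (p : ℝ) ^ n.factorization p = n := by
    have := Nat.prod_factorization_pow_eq_self hn
    rw [Finsupp.prod, Nat.support_factorization] at this
    exact_mod_cast this
  rw [h5]
  refine mul_le_mul_of_nonneg_right ?_ (by positivity)
  rw [← Finset.prod_filter, Finset.prod_const]
  refine pow_le_pow_right₀ hc1 ?_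
  calc (n.primeFactors.filter fun p => p < L).card ≤ (Finset.range L).card :=
        Finset.card_le_card fun p hp => Finset.mem_range.mpr (Finset.mem_filter.mp hp).2
    _ = L := Finset.card_range L

lemma gcd_sum (C M : ℕ) (hC : C ≠ 0) :
    ∑ k ∈ Finset.Icc 1 M, (Nat.gcd C k : ℝ) / k ≤ C.divisors.card * (1 + Real.log M) := by
  have h1 : ∑ k ∈ Finset.Icc 1 M, (Nat.gcd C k : ℝ) / k =
      ∑ p ∈ (Finset.Icc 1 M).image fun k => (Nat.gcd C k, k / Nat.gcd C k), ((p.2 : ℕ) : ℝ)⁻¹ := by
    rw [Finset.sum_image]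
    · refine Finset.sum_congr rfl fun k _ => ?_
      rw [Nat.cast_div (Nat.gcd_dvd_right C k) (by exact_mod_cast (Nat.gcd_ne_zero_left hC)),
        inv_div]
    · intro k _ l _ h
      obtain ⟨h2, h3⟩ := Prod.ext_iff.1 h
      simp only at h2 h3
      rw [← Nat.mul_div_cancel' (Nat.gcd_dvd_right C k), h3, h2,
        Nat.mul_div_cancel' (Nat.gcd_dvd_right C l)]
  have h2 : ((Finset.Icc 1 M).image fun k => (Nat.gcd C k, k / Nat.gcd C k)) ⊆
      C.divisors ×ˢ Finset.Icc 1 M := by
    intro p hp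
    obtain ⟨k, hk, rfl⟩ := Finset.mem_image.1 hp
    obtain ⟨a1, a2⟩ := Finset.mem_Icc.1 hk
    exact Finset.mem_product.2 ⟨Nat.mem_divisors.2 ⟨Nat.gcd_dvd_left C k, hC⟩, Finset.mem_Icc.2
      ⟨Nat.div_pos (Nat.gcd_le_right C a1) (Nat.gcd_pos_of_pos_right C a1),
        (Nat.div_le_self _ _).trans a2⟩⟩
  rw [h1]
  refine (Finset.sum_le_sum_of_subset_of_nonneg h2 fun _ _ _ => by positivity).trans ?_
  rw [Finset.sum_product]
  simp only [Finset.sum_const, nsmul_eq_mul]
  refine mul_le_mul_of_nonneg_left ?_ (by positivity)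
  have := harmonic_le_one_add_log M
  simpa only [harmonic_eq_sum_Icc, Rat.cast_sum, Rat.cast_inv, Rat.cast_natCast] using this

open Classical in
lemma line {c : ℝ} (hc : c ≠ 0) (s η : ℝ) :
    ∫⁻ t in Set.Ico (0 : ℝ) 1, ∑' v : ℤ, (if |c * (t + v) + s| ≤ η then (1 : ℝ≥0∞) else 0) =
      ENNReal.ofReal (2 * (η / |c|)) := by
  set A : Set ℝ := Metric.closedBall (-s / c) (η / |c|) with hA
  have hm : Measurable (A.indicator (1 : ℝ → ℝ≥0∞)) :=
    measurable_one.indicator Metric.isClosed_closedBall.measurableSet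
  have h1 : ∀ x, (if |c * x + s| ≤ η then (1 : ℝ≥0∞) else 0) = A.indicator 1 x := fun x => by
    have : c * x + s = c * (x - -s / c) := by field_simp; ring
    rw [Set.indicator_apply, hA, Metric.mem_closedBall, Real.dist_eq, le_div_iff₀ (abs_pos.2 hc),
      this, abs_mul, mul_comm, Pi.one_apply]
  simp only [h1]
  rw [lintegral_tsum (f := fun (v : ℤ) (t : ℝ) => A.indicator (1 : ℝ → ℝ≥0∞) (t + v))
    fun v => (hm.comp (measurable_add_const (v : ℝ))).aemeasurable]
  have h2 : ∀ v : ℤ, ∫⁻ t in Set.Ico (0 : ℝ) 1, A.indicator (1 : ℝ → ℝ≥0∞) (t + v) =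
      ∫⁻ t in Set.Ico (v : ℝ) (v + 1), A.indicator (1 : ℝ → ℝ≥0∞) t := fun v => by
    rw [← (measurePreserving_add_right volume (v : ℝ)).setLIntegral_comp_preimage
      measurableSet_Ico hm]
    simp
  simp only [h2]
  rw [← lintegral_iUnion (fun _ => measurableSet_Ico) (Set.pairwise_disjoint_Ico_intCast ℝ),
    iUnion_Ico_intCast, Measure.restrict_univ,
    lintegral_indicator_one Metric.isClosed_closedBall.measurableSet, Real.volume_closedBall]

open Classical in
lemma prog {d g : ℤ} (hd : d ≠ 0) (hg : g ≠ 0) (s η : ℝ) :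
    ∫⁻ t in Set.Ico (0 : ℝ) 1, ∑' z : ℤ,
      (if d ∣ z ∧ |((d * g : ℤ) : ℝ) * t + s + z| ≤ η then (1 : ℝ≥0∞) else 0) ≤
      ENNReal.ofReal (2 * (η / |(d : ℝ)|)) := by
  have hd' : (d : ℝ) ≠ 0 := by exact_mod_cast hd
  have hg' : (g : ℝ) ≠ 0 := by exact_mod_cast hg
  have hs : Function.Surjective fun p : Fin g.natAbs × ℤ => g * p.2 + (p.1.val : ℤ) := fun w => by
    have a1 := Int.emod_nonneg w hg
    have a2 := Int.emod_lt w hg
    refine ⟨(⟨(w % g).toNat, by omega⟩, w / g), ?_⟩
    simp only [Int.toNat_of_nonneg a1]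
    exact Int.mul_ediv_add_emod w g
  have h1 : ∀ t : ℝ, ∑' z : ℤ,
      (if d ∣ z ∧ |((d * g : ℤ) : ℝ) * t + s + z| ≤ η then (1 : ℝ≥0∞) else 0) ≤
      ∑ r : Fin g.natAbs, ∑' v : ℤ,
        (if |(d * g : ℝ) * (t + v) + (s + d * r.val)| ≤ η then (1 : ℝ≥0∞) else 0) := by
    intro t
    rw [← (mul_right_injective₀ hd).tsum_eq (f := fun z : ℤ =>
      if d ∣ z ∧ |((d * g : ℤ) : ℝ) * t + s + z| ≤ η then (1 : ℝ≥0∞) else 0) (by
        intro z hz
        by_contra h
        exact hz (if_neg fun h2 => h (by obtain ⟨w, rfl⟩ := h2.1; exact ⟨w, rfl⟩)))]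
    refine (ENNReal.tsum_le_tsum_comp_of_surjective hs _).trans (le_of_eq ?_)
    rw [ENNReal.tsum_prod', tsum_fintype]
    refine Finset.sum_congr rfl fun r _ => tsum_congr fun v => ?_
    refine if_congr ?_ rfl rfl
    rw [and_iff_right (Dvd.intro _ rfl)]
    push_cast
    rw [show (d * g : ℝ) * t + s + d * (g * v + r.val) = d * g * (t + v) + (s + d * r.val) by ring]
  refine (lintegral_mono h1).trans (le_of_eq ?_)
  rw [lintegral_finsetSum]
  · simp only [line (mul_ne_zero hd' hg')]
    rw [Finset.sum_const, Finset.card_univ, Fintype.card_fin, nsmul_eq_mul,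
      ← ENNReal.ofReal_natCast, ← ENNReal.ofReal_mul (Nat.cast_nonneg _), Nat.cast_natAbs,
      Int.cast_abs, abs_mul]
    congr 1
    have := abs_pos.2 hg'
    field_simp
  · exact fun r _ => Measurable.tsum fun v =>
      Measurable.ite (measurableSet_le (by fun_prop) measurable_const) measurable_const
        measurable_const

lemma tsum_natAbs (h : ℕ → ℝ≥0∞) : ∑' a : ℤ, h a.natAbs ≤ 2 * ∑' n, h n := by
  rw [tsum_of_nat_of_neg_add_one ENNReal.summable ENNReal.summable, two_mul]
  refine add_le_add (le_of_eq (tsum_congr fun n => by simp)) ?_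
  refine le_trans (le_of_eq (tsum_congr fun n => ?_))
    (ENNReal.tsum_comp_le_tsum_of_injective (add_left_injective 1) h)
  congr 1

open Classical in
lemma term {c : ℤ} (hc : c ≠ 0) {e R : ℝ} (s : ℝ) (he : 0 < e) {M : ℕ} (hM : R < M + 1) (a : ℤ) :
    ∫⁻ t in Set.Ico (0 : ℝ) 1, ∑' z : ℤ,
      (if |(a : ℝ)| ≤ R ∧ c ∣ a * z ∧ |c * t + s + z| ≤ e ∧
        |(a : ℝ)| * |c * t + s + z| ≤ e * |(c : ℝ)| then (1 : ℝ≥0∞) else 0) ≤
      if a.natAbs ∈ Finset.range (M + 1) then ENNReal.ofReal (2 * e *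
        if a.natAbs = 0 then 1 else (Nat.gcd c.natAbs a.natAbs : ℝ) / a.natAbs) else 0 := by
  split_ifs with h1 h2
  · refine le_trans (lintegral_mono fun t => ENNReal.tsum_le_tsum fun z => ?_)
      ((prog one_ne_zero hc s e).trans (le_of_eq (by simp)))
    split_ifs with a1 a2
    · exact le_rfl
    · exact absurd ⟨one_dvd _, by simpa using a1.2.2.1⟩ a2
    all_goals exact zero_le
  · have ha : a ≠ 0 := fun h => h2 (by simp [h])
    have ha' : (0 : ℝ) < |(a : ℝ)| := abs_pos.2 (by exact_mod_cast ha)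
    have hg : 0 < Int.gcd c a := Int.gcd_pos_of_ne_zero_left a hc
    obtain ⟨d, b, hdb, hd, hb⟩ := Int.exists_gcd_one hg
    set g : ℤ := (Int.gcd c a : ℤ) with hgd
    have hg0 : g ≠ 0 := by rw [hgd]; exact_mod_cast hg.ne'
    have hd0 : d ≠ 0 := fun h => hc (by rw [hd, h, zero_mul])
    refine le_trans (lintegral_mono fun t => ENNReal.tsum_le_tsum fun z => ?_)
      ((prog hd0 hg0 s (e * |(c : ℝ)| / |(a : ℝ)|)).trans (le_of_eq ?_))
    · split_ifs with a1 a2
      · exact le_rfl
      · refine absurd ⟨?_, ?_⟩ a2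
        · have a3 : d * g ∣ b * z * g := by
            rw [← hd, mul_right_comm, ← hb]; exact a1.2.1
          exact Int.dvd_of_dvd_mul_right_of_gcd_one ((mul_dvd_mul_iff_right hg0).1 a3) hdb
        · rw [← hd, le_div_iff₀ ha', mul_comm]
          exact a1.2.2.2
      all_goals exact zero_le
    · congr 1
      have a1 : |(c : ℝ)| = |(d : ℝ)| * (Nat.gcd c.natAbs a.natAbs : ℝ) := by
        have : (c : ℝ) = d * (Nat.gcd c.natAbs a.natAbs : ℝ) := by exact_mod_cast hd
        rw [this, abs_mul, Nat.abs_cast]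
      have a2 : (0 : ℝ) < |(d : ℝ)| := abs_pos.2 (by exact_mod_cast hd0)
      rw [a1, Nat.cast_natAbs a, Int.cast_abs]
      field_simp
  · refine le_of_eq ((lintegral_congr fun t => ?_).trans lintegral_zero)
    refine (tsum_congr fun z => if_neg fun a1 => h1 (Finset.mem_range.2 ?_)).trans tsum_zero
    have : ((a.natAbs : ℕ) : ℝ) < M + 1 := by
      rw [Nat.cast_natAbs, Int.cast_abs]; exact a1.1.trans_lt hM
    exact_mod_cast this

end Oc

open Oc in
theorem one : OneStmt := by
  intro N ε hε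
  set η : ℝ := ε / (N + 1) ^ 2 with hη
  have hη0 : 0 < η := by positivity
  obtain ⟨D, hD, hdiv⟩ := divisor_bound hη0
  set K : ℝ := 8 * (D * (1 + 2 * N / η)) with hK
  have hK1 : (1 : ℝ) ≤ 1 + 2 * N / η := le_add_of_nonneg_right (by positivity)
  refine ⟨K ^ N, by positivity, fun T hT c hc hcT => ⟨K * T ^ (η * (N + 1)), by positivity, ?_,
    fun e R s he hR => ⟨?_, ?_⟩⟩⟩
  · rw [mul_pow, ← Real.rpow_mul_natCast (by linarith)]
    refine mul_le_mul_of_nonneg_left (Real.rpow_le_rpow_of_exponent_le hT ?_) (by positivity)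
    rw [hη, div_mul_eq_mul_div, div_mul_eq_mul_div, div_le_iff₀ (by positivity)]
    nlinarith [mul_nonneg hε.le (Nat.cast_nonneg (α := ℝ) N)]
  · have hT0 : 0 < T := by linarith
    set M := ⌊T ^ (2 * N)⌋₊ with hM
    have hM1 : 1 ≤ M := Nat.le_floor (by rw [Nat.cast_one]; exact one_le_pow₀ hT)
    have hC : c.natAbs ≠ 0 := Int.natAbs_ne_zero.2 hc
    have hτ : (c.natAbs.divisors.card : ℝ) ≤ D * T ^ (η * N) := by
      refine (hdiv _ hC).trans (mul_le_mul_of_nonneg_left ?_ (by linarith))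
      rw [Nat.cast_natAbs, Int.cast_abs, mul_comm η, Real.rpow_natCast_mul hT0.le]
      exact Real.rpow_le_rpow (abs_nonneg _) hcT hη0.le
    have hlog : 1 + Real.log M ≤ (1 + 2 * N / η) * T ^ η := by
      have a1 : Real.log M ≤ Real.log (T ^ (2 * N)) :=
        Real.log_le_log (by exact_mod_cast hM1) (Nat.floor_le (by positivity))
      have a2 := mul_le_mul_of_nonneg_left (Real.log_le_rpow_div hT0.le hη0)
        (by positivity : (0 : ℝ) ≤ 2 * N)
      have a3 := Real.one_le_rpow hT hη0.le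
      rw [Real.log_pow] at a1
      push_cast at a1
      rw [add_mul, div_mul_eq_mul_div, mul_div_assoc]
      linarith
    have hP : (c.natAbs.divisors.card : ℝ) * (1 + Real.log M) ≤
        D * (1 + 2 * N / η) * T ^ (η * (N + 1)) := by
      rw [mul_add η, mul_one, Real.rpow_add hT0]
      have := Real.log_natCast_nonneg M
      calc _ ≤ D * T ^ (η * N) * ((1 + 2 * N / η) * T ^ η) := by gcongr
        _ = _ := by ring
    have hP1 : 1 ≤ D * (1 + 2 * N / η) * T ^ (η * (N + 1)) :=
      one_le_mul_of_one_le_of_one_le (one_le_mul_of_one_le_of_one_le hD hK1)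
        (Real.one_le_rpow hT (by positivity))
    refine (lintegral_congr fun t => ENNReal.tsum_comm).trans_le ?_
    rw [lintegral_tsum fun a => (Measurable.tsum fun z => Measurable.ite ?_ measurable_const
      measurable_const).aemeasurable]
    · refine (ENNReal.tsum_le_tsum (term hc s he (hR.trans_lt (Nat.lt_floor_add_one _)))).trans ?_
      refine (tsum_natAbs fun k => if k ∈ Finset.range (M + 1) then ENNReal.ofReal (2 * e *
        if k = 0 then 1 else (Nat.gcd c.natAbs k : ℝ) / k) else 0).trans ?_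
      rw [tsum_eq_sum (s := Finset.range (M + 1)) fun k hk => if_neg hk,
        Finset.sum_congr rfl fun k hk => if_pos hk,
        ← ENNReal.ofReal_sum_of_nonneg fun k _ => by split_ifs <;> positivity,
        ← ENNReal.ofReal_ofNat, ← ENNReal.ofReal_mul (by norm_num), ← Finset.mul_sum,
        Finset.range_eq_Ico, Finset.sum_eq_sum_Ico_succ_bot (Nat.add_one_pos M), if_pos rfl,
        Finset.Ico_add_one_right_eq_Icc, Finset.sum_congr rfl fun k hk =>
          if_neg (by have := (Finset.mem_Icc.1 hk).1; omega)]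
      refine ENNReal.ofReal_le_ofReal ?_
      have := (gcd_sum _ M hC).trans hP
      rw [hK, zero_add]
      nlinarith
    · have b1 : MeasurableSet {t : ℝ | |c * t + s + z| ≤ e} :=
        measurableSet_le (by fun_prop) measurable_const
      have b2 : MeasurableSet {t : ℝ | |(a : ℝ)| * |c * t + s + z| ≤ e * |(c : ℝ)|} :=
        measurableSet_le (by fun_prop) measurable_const
      exact (MeasurableSet.const _).inter ((MeasurableSet.const _).inter (b1.inter b2))
  · refine le_trans (lintegral_mono fun t => ENNReal.tsum_le_tsum fun z => ?_)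
      ((prog one_ne_zero hc (s - 1) e).trans (le_of_eq (by simp)))
    split_ifs with a1 a2
    · exact le_rfl
    · exact absurd ⟨one_dvd _, by
        rw [one_mul, show c * t + (s - 1) + z = c * t + s + z - 1 by ring]; exact a1⟩ a2
    all_goals exact zero_le

end B

end Pool.Agent.Lib.MP_fa98d2_nt.D
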