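import Pool.Agent.Lib.MP_fa98d2_nt.B.Poi

/-! Density theorem with off-diagonal terms: weights and tilings. -/

open MeasureTheory Filter Topology Matrix
open scoped ENNReal Real ComplexConjugate

noncomputable section

namespace Pool.Agent.Lib.MP_fa98d2_nt.D

namespace B

namespace Tile

variable {k : ℕ}

lemma meas (S : Subgroup (GZ k)) : Measurable (wS S) :=
  Quot.measurable_th.div (Measurable.tsum fun _ => Quot.measurable_th.comp (measurable_const_mul _))

lemma sum (S : Subgroup (GZ k)) (g : G k) : ∑' δ : S, wS S (iz δ.1 * g) = 1 := by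
  have h : ∀ δ : S, ∑' γ : S, th (iz γ.1 * (iz δ.1 * g)) = ∑' γ : S, th (iz γ.1 * g) :=
    fun δ => by
      rw [← (Equiv.mulRight δ).tsum_eq fun γ : S => th (iz γ.1 * g)]
      simp [mul_assoc]
  simp only [wS, h, div_eq_mul_inv]
  rw [ENNReal.tsum_mul_right]
  exact ENNReal.mul_inv_cancel (fun h0 => Quot.th_ne _ (ENNReal.tsum_eq_zero.1 h0 1))
    (ne_top_of_le_ne_top (Quot.tsum_th_ne_top g) (ENNReal.tsum_comp_le_tsum_of_injective
      Subtype.val_injective fun γ : GZ k => th (iz γ * g)))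

lemma ex : ∀ (k : ℕ) (u : G k), IsU u → ∃ δ ∈ UZ k, Cube (iz δ * u)
  | 0, _, _ => ⟨1, one_mem _, fun i => i.elim0, fun i => i.elim0⟩
  | k + 1, u, hu => by
    obtain ⟨u', b, hu', rfl⟩ := hu.exists_pb
    obtain ⟨d, hd, hc⟩ := ex k u' hu'
    refine ⟨pb d fun i => -⌊((iz d).val *ᵥ b) i⌋, by rw [mem_UZ, iz_pb]; exact isU_pb.2 hd, ?_⟩
    rw [iz_pb, pb_mul]
    refine ⟨isU_pb.2 hc.1, fun i j => ?_⟩
    refine Fin.lastCases ?_ (fun i => ?_) i <;> refine Fin.lastCases ?_ (fun j => ?_) j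
    · intro h; exact absurd h (lt_irrefl _)
    · intro h; exact absurd h (not_lt.2 (Fin.le_last _))
    · intro _
      simp only [val_pb, blk_cl, Pi.add_apply, zv, Int.cast_neg, ← sub_eq_add_neg, Int.self_sub_floor]
      exact ⟨Int.fract_nonneg _, Int.fract_lt_one _⟩
    · intro h
      simpa using hc.2 i j (Fin.castSucc_lt_castSucc_iff.1 h)

/-- the integral unitriangular group in coordinates -/
def pU (p : UZ k × (Fin k → ℤ)) : UZ (k + 1) :=
  ⟨pb p.1.1 0 * pb 1 p.2, by
    rw [mem_UZ, map_mul, iz_pb_zero, iz_pb_one]; exact (IsU.up p.1.2).mul (isU_nb _)⟩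

lemma bij : Function.Bijective (pU (k := k)) := by
  constructor
  · rintro ⟨h, z⟩ ⟨h', z'⟩ e
    have e' := congrArg Subtype.val e
    simp only [pU, pb_mul, mul_one, add_zero] at e'
    obtain ⟨e1, e2⟩ := pb_inj e'
    obtain rfl : h = h' := Subtype.ext e1
    have e3 := congrArg (fun v => (h.1⁻¹).val *ᵥ v) e2
    simp only [Matrix.mulVec_mulVec, ← Units.val_mul, inv_mul_cancel, Units.val_one,
      Matrix.one_mulVec] at e3
    rw [e3]
  · rintro ⟨γ, hγ⟩
    obtain ⟨h, z, rfl⟩ := exists_pb (g := γ) (by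
      ext j
      have h1 : ((γ.val (Fin.last k) j : ℤ) : ℝ) = _ := hγ _ _ (Fin.le_last j)
      rw [Pi.single_apply]
      by_cases h : j = Fin.last k
      · rw [if_pos h.symm] at h1; rw [if_pos h]; exact_mod_cast h1
      · rw [if_neg (Ne.symm h)] at h1; rw [if_neg h]; exact_mod_cast h1)
    rw [mem_UZ, iz_pb, isU_pb] at hγ
    refine ⟨(⟨h, hγ⟩, (h⁻¹).val *ᵥ z), Subtype.ext ?_⟩
    simp only [pU, pb_mul, mul_one, add_zero, Matrix.mulVec_mulVec, ← Units.val_mul, mul_inv_cancel,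
      Units.val_one, Matrix.one_mulVec]

lemma tileU (hT : TorusStmt) : ∀ (k : ℕ) (Φ : G k → ℝ≥0∞), Measurable Φ →
    ∫⁻ y, Φ (un k y) ∂mY k = ∫⁻ y, ∑' d : UZ k, Φ (iz d.1 * un k y) ∂cY k
  | 0, Φ, _ => by
    refine lintegral_congr fun y => ?_
    rw [tsum_eq_single 1 fun b hb => absurd (Subtype.ext (Subsingleton.elim _ _)) hb]
    simp
  | k + 1, Φ, hΦ => by
    have mn := continuous_nb (k := k).measurable
    have mu' := continuous_up (k := k).measurable
    have m0 : Measurable fun p : G k × (Fin k → ℝ) => Φ (nb p.2 * up p.1) :=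
      hΦ.comp ((mn.comp measurable_snd).mul (mu'.comp measurable_fst))
    have m1 : Measurable fun p : Y k × (Fin k → ℝ) => Φ (nb p.2 * up (un k p.1)) :=
      hΦ.comp (measurable_un (k + 1))
    have m2 : Measurable fun p : Y k × (Fin k → ℝ) =>
        ∑' d : UZ (k + 1), Φ (iz d.1 * (nb p.2 * up (un k p.1))) :=
      Measurable.tsum fun d => hΦ.comp ((measurable_un (k + 1)).const_mul _)
    change ∫⁻ p : Y k × (Fin k → ℝ), Φ (nb p.2 * up (un k p.1)) ∂(mY k).prod volume =
      ∫⁻ p : Y k × (Fin k → ℝ), ∑' d : UZ (k + 1), Φ (iz d.1 * (nb p.2 * up (un k p.1)))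
        ∂(cY k).prod (cub k)
    rw [lintegral_prod _ m1.aemeasurable, lintegral_prod _ m2.aemeasurable,
      tileU hT k (fun h => ∫⁻ b, Φ (nb b * up h)) m0.lintegral_prod_right']
    refine lintegral_congr fun y => ?_
    simp only [← (Equiv.ofBijective _ bij).tsum_eq, ENNReal.tsum_prod']
    refine Eq.trans ?_ (lintegral_tsum fun d => (Measurable.tsum fun z =>
      hΦ.comp ((mn.mul_const _).const_mul _)).aemeasurable).symm
    refine tsum_congr fun d => ?_
    have m3 : Measurable fun b => Φ (nb b * up (iz d.1 * un k y)) := hΦ.comp (mn.mul_const _)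
    have m4 : Measurable fun b => Φ (up (iz d.1) * (nb b * up (un k y))) :=
      hΦ.comp ((mn.mul_const _).const_mul _)
    rw [Quot.vol_iz d.1 m3]
    simp only [up_mul, ← mul_assoc, ← up_mul_nb]
    simp only [mul_assoc]
    rw [hT.tile k _ m4]
    refine lintegral_congr fun b => tsum_congr fun z => ?_
    simp only [Function.comp_apply, Equiv.ofBijective_apply, pU, map_mul, iz_pb_zero, iz_pb_one, nb_add, mul_assoc]

lemma unf (hH : HaarStmt) (hT : TorusStmt) (H : G k → ℝ≥0∞) (hm : Measurable H) (hz : UZInv H) :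
    ∫⁻ g, wS (UZ k) g * H g ∂mu k = II k fun g => ∫⁻ y, H (un k y * g) ∂cY k := by
  have m := (meas (UZ k)).fun_mul hm
  rw [hH.unf k _ m]
  congr 1
  funext g
  rw [tileU hT k (fun u => wS (UZ k) (u * g) * H (u * g)) (m.comp (measurable_mul_const g))]
  refine lintegral_congr fun y => ?_
  simp only [mul_assoc, fun d : UZ k => hz d.1 d.2]
  rw [ENNReal.tsum_mul_right, sum, one_mul]

lemma unfC (hH : HaarStmt) (hT : TorusStmt) (f : G k → ℂ) (hm : Measurable f) (hz : UZInv f)
    (hf : ∫⁻ g, wS (UZ k) g * ‖f g‖ₑ ∂mu k < ⊤) :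
    ∫ g, ((wS (UZ k) g).toReal : ℂ) * f g ∂mu k =
      ∫ x, ∫ y, f (un k y * sg k x) ∂cY k ∂mX k := by
  have hp : Measurable fun p : X k × Y k => un k p.2 * sg k p.1 :=
    ((measurable_un k).comp measurable_snd).mul ((measurable_sg k).comp measurable_fst)
  have hfp : Measurable fun p : X k × Y k => f (un k p.2 * sg k p.1) := hm.comp hp
  have key : ∀ Φ : ℂ → ℝ≥0∞, Measurable Φ →
      ∫⁻ g, Φ (f g) ∂(mu k).withDensity (wS (UZ k)) =
        ∫⁻ p : X k × Y k, Φ (f (un k p.2 * sg k p.1)) ∂(mX k).prod (cY k) := fun Φ hΦ => by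
    have h1 : Measurable fun g => Φ (f g) := hΦ.comp hm
    have h2 : Measurable fun p : X k × Y k => Φ (f (un k p.2 * sg k p.1)) := hΦ.comp hfp
    rw [lintegral_withDensity_eq_lintegral_mul _ (meas _) h1, lintegral_prod _ h2.aemeasurable]
    exact unf hH hT _ h1 fun γ h g => by simp only [hz γ h g]
  have hmap : ((mu k).withDensity (wS (UZ k))).map f =
      ((mX k).prod (cY k)).map fun p => f (un k p.2 * sg k p.1) := by
    ext s hs
    rw [← lintegral_indicator_one hs, ← lintegral_indicator_one hs,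
      lintegral_map (measurable_one.indicator hs) hm,
      lintegral_map (measurable_one.indicator hs) hfp, key _ (measurable_one.indicator hs)]
  have hi : Integrable (fun p : X k × Y k => f (un k p.2 * sg k p.1)) ((mX k).prod (cY k)) := by
    refine ⟨hfp.aestronglyMeasurable, ?_⟩
    rw [HasFiniteIntegral, ← key _ measurable_enorm,
      lintegral_withDensity_eq_lintegral_mul _ (meas _) hm.enorm]
    exact hf
  have ht : ∀ g, wS (UZ k) g < ⊤ := fun g => by
    have h := ENNReal.le_tsum (f := fun δ : UZ k => wS (UZ k) (iz δ.1 * g)) 1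
    rw [sum, OneMemClass.coe_one, map_one, one_mul] at h
    exact h.trans_lt ENNReal.one_lt_top
  rw [← integral_prod _ hi, ← integral_map (f := fun z => z) hfp.aemeasurable
    aestronglyMeasurable_id, ← hmap,
    integral_map (f := fun z => z) hm.aemeasurable aestronglyMeasurable_id,
    integral_withDensity_eq_integral_toReal_smul (meas _) (Eventually.of_forall ht)]
  simp

lemma fin (K : Set (G k)) (hK : IsCompact K) : ∃ M : ℝ≥0∞, M ≠ ⊤ ∧
    ∀ g, ∑' γ : GZ k, K.indicator (1 : G k → ℝ≥0∞) (iz γ * g) ≤ M := by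
  obtain ⟨B, hB⟩ := (hK.prod hK).exists_bound_of_continuousOn
    (f := fun p : G k × G k => co (p.1 * p.2⁻¹))
    (continuous_co.comp (continuous_fst.mul continuous_snd.inv)).continuousOn
  have hS : {γ : GZ k | ‖co (iz γ)‖ ≤ B}.Finite := by
    refine Set.Finite.of_finite_image (f := fun γ i j => γ.val i j) ?_
      fun a _ b _ h => Units.ext h
    refine (Set.Finite.pi' fun _ : Fin k => Set.Finite.pi' fun _ : Fin k =>
      Set.finite_Icc (-⌈B⌉) ⌈B⌉).subset ?_
    rintro _ ⟨γ, hγ, rfl⟩ i j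
    have h1 : |((γ.val i j : ℤ) : ℝ)| ≤ ‖co (iz γ)‖ :=
      (norm_le_pi_norm (co (iz γ) i) j).trans (norm_le_pi_norm (co (iz γ)) i)
    have h2 : |γ.val i j| ≤ ⌈B⌉ := by
      have := (h1.trans hγ).trans (Int.le_ceil B)
      exact_mod_cast this
    exact abs_le.1 h2
  refine ⟨hS.toFinset.card, ENNReal.natCast_ne_top _, fun g => ?_⟩
  by_cases h : ∃ γ0 : GZ k, iz γ0 * g ∈ K
  · obtain ⟨γ0, h0⟩ := h
    rw [← (Equiv.mulRight γ0).tsum_eq, tsum_eq_sum (s := hS.toFinset) fun γ hγ =>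
      Set.indicator_of_notMem (fun h1 => hγ (by
        simpa [mul_assoc] using hB (_, _) ⟨h1, h0⟩)) _]
    refine (Finset.sum_le_card_nsmul _ _ 1 fun γ _ => ?_).trans (by simp)
    exact Set.indicator_le_self' (fun _ _ => zero_le) _
  · push Not at h
    simp [h]

end Tile

theorem tile (hH : HaarStmt) (hT : TorusStmt) : TileStmt :=
  ⟨fun _ => Tile.meas, fun _ => Tile.sum, Tile.ex, fun _ => Tile.unf hH hT,
    fun _ => Tile.unfC hH hT, fun _ => Tile.fin⟩

end B

end Pool.Agent.Lib.MP_fa98d2_nt.D
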