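import Pool.Agent.Lib.MP_fa98d2_nt.D.Inj
import Pool.Agent.Lib.MP_fa98d2_nt.B.Stm

/-! Density theorem with off-diagonal terms: triangular matrices. -/

open MeasureTheory Filter Topology Matrix
open scoped ENNReal Real ComplexConjugate

noncomputable section

namespace Pool.Agent.Lib.MP_fa98d2_nt.D

namespace B

namespace Tri

variable {k N : ℕ}

lemma vec {u : G k} (hu : IsU u) (d : Fin k → ℤ) (h : ∀ i, |(zv d ᵥ* u.val) i| < 1) : d = 0 := by
  have h0 : ∀ n : ℕ, ∀ i : Fin k, i.val = n → d i = 0 := by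
    intro n
    induction n using Nat.strong_induction_on with
    | _ n ih =>
      intro i hi
      have h1 := h i
      rw [Inj.vecMul_first hu fun j hj => by simp [zv, ih j.val (hi ▸ hj) j rfl]] at h1
      have h2 : |d i| < 1 := by simp only [zv] at h1; exact_mod_cast h1
      exact Int.abs_lt_one_iff.1 h2
  exact funext fun i => h0 _ i rfl

lemma uniq {δ : GZ k} {u : G k} (_hδ : δ ∈ UZ k) (h1 : Cube u) (h2 : Cube (iz δ * u)) : δ = 1 := by
  apply Units.ext
  ext j i
  have := vec h1.1 (fun i => δ.val j i - (1 : Matrix (Fin k) (Fin k) ℤ) j i) fun i => by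
    have e : (zv (fun i => δ.val j i - (1 : Matrix (Fin k) (Fin k) ℤ) j i) ᵥ* u.val) i =
        (iz δ * u).val j i - u.val j i := by
      simp [zv, Matrix.vecMul, dotProduct, Matrix.mul_apply, val_iz, sub_mul, Matrix.one_apply,
        Finset.sum_sub_distrib]
    rw [e]
    rcases lt_or_ge j i with h | h
    · have := h1.2 j i h
      have := h2.2 j i h
      rw [abs_lt]; constructor <;> linarith
    · rw [h1.1 j i h, h2.1 j i h]; simp
  exact sub_eq_zero.1 (congrFun this i)

lemma lowU {b : G k} (h1 : IsU b) (h2 : Low b) : b = 1 := by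
  apply Units.ext
  ext i j
  rcases lt_or_ge i j with h | h
  · rw [h2 i j h, Units.val_one, Matrix.one_apply_ne h.ne]
  · rw [h1 i j h, Units.val_one, Matrix.one_apply]

lemma low_iff {b : G k} : Low b ↔ b.val.BlockTriangular OrderDual.toDual :=
  ⟨fun h i j hij => h i j hij, fun h _ _ hij => h hij⟩

lemma lowM {b b' : G k} (h : Low b) (h' : Low b') : Low (b * b') ∧ Low b⁻¹ := by
  refine ⟨low_iff.2 ((low_iff.1 h).mul (low_iff.1 h')), low_iff.2 ?_⟩
  have := b.invertible
  rw [Matrix.coe_units_inv]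
  exact Matrix.blockTriangular_inv_of_blockTriangular (low_iff.1 h)

lemma low_one : Low (1 : G k) := fun _ _ h => Matrix.one_apply_ne h.ne

lemma lowD (a : Fin k → ℝ) : Low (dg a) := by
  by_cases h : (Matrix.diagonal a).det ≠ 0
  · intro i j hij
    rw [dg, val_mkG h, Matrix.diagonal_apply_ne _ hij.ne]
  · rw [dg, mkG, dif_neg h]; exact low_one

lemma low_sr (r : Fin (k + 1) → ℝ) : Low (sr r) := by
  by_cases h : r (Fin.last k) ≠ 0
  · intro i j hij
    rw [val_sr h, Matrix.updateRow_ne (hij.trans_le (Fin.le_last j)).ne, Matrix.one_apply_ne hij.ne]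
  · rw [sr, mkG, dif_neg (by rwa [det_updateRow_last])]; exact low_one

lemma low_up {b : G k} (h : Low b) : Low (up b) := by
  intro i j
  refine Fin.lastCases ?_ (fun i => ?_) i <;> refine Fin.lastCases ?_ (fun j => ?_) j
  · intro h; exact absurd h (lt_irrefl _)
  · intro h; exact absurd h (not_lt.2 (Fin.le_last _))
  · intro _; simp [up]
  · intro h'; simpa [up] using h i j (Fin.castSucc_lt_castSucc_iff.1 h')

lemma lowS : ∀ (k : ℕ) (x : X k), Low (sg k x)
  | 0, _ => low_one
  | k + 1, x => (lowM (low_up (lowS k x.1)) (low_sr x.2)).1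

lemma ul (hL : Loc0Stmt) : ∀ k : ℕ, ∃ C : ℝ, 1 ≤ C ∧ ∀ δ : ℝ, 0 < δ → C * δ * (2 * k + 2) ≤ 1 →
    ∀ x ∈ Bl k δ, ∃ u b, IsU u ∧ Low b ∧ b ∈ Bl k (C * δ) ∧ x = u * b
  | 0 => ⟨1, le_rfl, fun _ _ _ x _ => ⟨1, x, isU_one, fun i => i.elim0, fun i => i.elim0, by simp⟩⟩
  | k + 1 => by
    obtain ⟨C, hC, ih⟩ := ul hL k
    refine ⟨2 * (6 * C + 1), by linarith, fun δ hδ h x hx => ?_⟩
    have hk : (0 : ℝ) ≤ k := Nat.cast_nonneg k
    have h0 : 0 < δ * (2 * ((k + 1 : ℕ) : ℝ) + 2) := by positivity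
    have h6 : C * (6 * δ) * (2 * ((k + 1 : ℕ) : ℝ) + 2) ≤ 1 := by nlinarith
    have h2 : 2 * δ * (2 * ((k + 1 : ℕ) : ℝ) + 2) ≤ 1 := by nlinarith
    have h1 : δ * (2 * ((k + 1 : ℕ) : ℝ) + 2) ≤ 1 := by linarith
    have hr : lr x (Fin.last k) ≠ 0 := fun e => by
      have := hx (Fin.last k) (Fin.last k)
      rw [show x.val (Fin.last k) (Fin.last k) = 0 from e] at this
      push_cast at h1
      simp at this; nlinarith
    have hs : sr (lr x) ∈ Bl (k + 1) δ := fun i j => by
      rw [val_sr hr]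
      by_cases hi : i = Fin.last k
      · rw [hi, Matrix.updateRow_self]; exact hx _ j
      · simpa [Matrix.updateRow_ne hi] using hδ
    have h3 := (hL.mul _ _ _ h1 h2 x hx _ (hL.mul _ _ _ h1 h1 _ hs _ hs).2).1
    obtain ⟨g, b, e⟩ := exists_pb (g := x * (sr (lr x))⁻¹) (by
      change lr (x * (sr (lr x))⁻¹) = _
      rw [lr_mul]
      nth_rewrite 1 [← lr_sr hr]
      rw [← lr_mul, mul_inv_cancel, ← pb_one, lr_pb])
    rw [e] at h3
    obtain ⟨u', b', hu', hb', hb'', rfl⟩ := ih (6 * δ) (by positivity)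
      (by push_cast at h6; nlinarith [mul_pos (by linarith : 0 < C) hδ]) g fun i j => by
        have := h3 i.castSucc j.castSucc
        simp only [val_pb, blk_cc, Matrix.one_apply, Fin.castSucc_inj] at this ⊢
        linarith
    have h4 : up b' ∈ Bl (k + 1) (C * (6 * δ)) := fun i j => by
      have : 0 < C * (6 * δ) := by positivity
      refine Fin.lastCases ?_ (fun i => ?_) i <;> refine Fin.lastCases ?_ (fun j => ?_) j
      · simpa [up] using this
      · simpa [up, Matrix.one_apply_ne (Fin.castSucc_ne_last j).symm] using this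
      · simpa [up, Matrix.one_apply_ne (Fin.castSucc_ne_last i)] using this
      · simpa [up, Matrix.one_apply] using hb'' i j
    refine ⟨nb b * up u', up b' * sr (lr x), (isU_nb b).mul hu'.up, (lowM (low_up hb') (low_sr _)).1,
      ?_, ?_⟩
    · have := (hL.mul _ _ _ h6 h1 _ h4 _ hs).1
      rwa [show 2 * (C * (6 * δ) + δ) = 2 * (6 * C + 1) * δ by ring] at this
    · rw [mul_inv_eq_iff_eq_mul, ← nb_mul_up, up_mul] at e
      rw [mul_assoc, ← mul_assoc (up u'), ← mul_assoc]
      exact e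

lemma near {T m δ : ℝ} (hT : 1 ≤ T) (hm : 0 < m) (hδ : (N + 2) * δ ≤ 1) {u x : G (N + 2)}
    (hu : Cube u) (hl : Low x) (hx : x ∈ Bl (N + 2) δ) :
    Near ((N + 2) * δ) (yv N T m) (u * (dg (yv N T m) * x * (dg (yv N T m))⁻¹)).val ∧
      0 < (dg (yv N T m) * x * (dg (yv N T m))⁻¹).val 0 0 := by
  set y := yv N T m with hy
  have hp : ∀ i, 0 < y i := fun i => by simp only [hy, yv]; split_ifs <;> positivity
  have hn : ∀ i, y i ≠ 0 := fun i => (hp i).ne'
  have hδ0 : 0 < δ := (abs_nonneg _).trans_lt (hx 0 0)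
  have hN : (0 : ℝ) ≤ N := Nat.cast_nonneg N
  have e : ∀ i j, (dg y * x * (dg y)⁻¹).val i j = y i * x.val i j * (y j)⁻¹ := fun i j => by
    rw [dg_inv hn, Units.val_mul, Units.val_mul, val_dg hn, val_dg fun i => inv_ne_zero (hn i),
      Matrix.mul_diagonal, Matrix.diagonal_mul]
  have hu1 : ∀ i j, |u.val i j| ≤ 1 := fun i j => by
    rcases lt_or_ge i j with h | h
    · rw [abs_of_nonneg (hu.2 i j h).1]; exact (hu.2 i j h).2.le
    · rw [hu.1 i j h]; split_ifs <;> simp
  have key : ∀ j i p, p ≠ 0 → (∀ l, l < p → l < j ∨ l < i) →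
      |(u * (dg y * x * (dg y)⁻¹)).val j i - u.val j i| ≤ (N + 2) * δ * (y p / y i) := by
    intro j i p hp0 h
    have e2 : (u * (dg y * x * (dg y)⁻¹)).val j i - u.val j i =
        ∑ l, u.val j l * (x.val l i - (1 : Mat (N + 2)) l i) * (y l / y i) := by
      rw [Units.val_mul, Matrix.mul_apply]
      simp only [e, mul_sub, sub_mul, Finset.sum_sub_distrib, Matrix.one_apply, mul_ite, ite_mul,
        mul_zero, zero_mul, Finset.sum_ite_eq', Finset.mem_univ, if_true, div_self (hn i), mul_one]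
      congr 1
      exact Finset.sum_congr rfl fun l _ => by ring
    rw [e2]
    have hq := div_pos (hp p) (hp i)
    refine (Finset.abs_sum_le_sum_abs _ _).trans ((Finset.sum_le_card_nsmul _ _ (δ * (y p / y i))
      fun l _ => ?_).trans (le_of_eq (by simp; ring)))
    rcases lt_or_ge l p with h1 | h1
    · rcases h l h1 with h2 | h2
      · rw [hu.1 j l h2.le, if_neg h2.ne']; simp; positivity
      · rw [hl l i h2, Matrix.one_apply_ne h2.ne]; simp; positivity
    · have h2 : y l ≤ y p := by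
        have hl0 : l ≠ 0 := fun h0 => hp0 (Fin.le_zero_iff.1 (h0 ▸ h1))
        simp only [hy, yv, if_neg hl0, if_neg hp0]
        exact pow_le_pow_right₀ hT (by have := Fin.le_def.1 h1; omega)
      rw [abs_mul, abs_mul, abs_of_pos (div_pos (hp l) (hp i))]
      calc _ ≤ 1 * δ * (y p / y i) := by
            have := hp i
            have := hp l
            gcongr
            exacts [hu1 j l, (hx l i).le]
        _ = _ := by ring
  refine ⟨fun j hj => ⟨fun i hi => ?_, ?_, fun i hi => ?_⟩, ?_⟩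
  · have := key j i j hj fun l h => Or.inl h
    rwa [hu.1 j i hi.le, if_neg hi.ne', sub_zero] at this
  · have := key j j j hj fun l h => Or.inl h
    rwa [hu.1 j j le_rfl, if_pos rfl, div_self (hn j), mul_one] at this
  · have h1 := key j i i (hi.trans_le' (Fin.zero_le _)).ne' fun l h => Or.inr h
    rw [div_self (hn i), mul_one] at h1
    have h2 := abs_le.1 h1
    have h3 := abs_le.1 (hu1 j i)
    exact abs_le.2 ⟨by linarith, by linarith⟩
  · have h1 := (abs_lt.1 (hx 0 0)).1
    rw [Matrix.one_apply_eq] at h1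
    have h2 : 0 < x.val 0 0 := by nlinarith
    have := hp 0
    rw [e]; positivity

lemma cpt (a : G k) {δ : ℝ} (hδ : δ * (2 * k + 2) ≤ 1) : ∃ K : Set (G k), IsCompact K ∧
    ∀ u x, Cube u → x ∈ Bl k δ → u * a * x ∈ K := by
  have h1 : IsCompact (co ⁻¹' Set.Icc (fun i j : Fin k => if i = j then (1 : ℝ) else 0)
      fun i j => if i ≤ j then 1 else 0) := by
    refine isOpenEmbedding_co.isInducing.isCompact_preimage' isCompact_Icc fun x hx => ?_
    rw [range_co, Set.mem_ofPred_eq, Matrix.det_of_isUpperTriangular fun i j h => by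
      have h' : j < i := h
      have h2 := hx.1 i j
      have h3 := hx.2 i j
      simp only [h'.ne', h'.not_ge, if_false] at h2 h3
      exact le_antisymm h3 h2]
    refine Finset.prod_ne_zero_iff.2 fun i _ => ?_
    have h2 := hx.1 i i
    simp only [if_true] at h2
    exact (one_pos.trans_le h2).ne'
  have h2 : IsCompact (co ⁻¹' Set.Icc (fun i j : Fin k => (1 : Mat k) i j - δ)
      fun i j => (1 : Mat k) i j + δ) := by
    refine isOpenEmbedding_co.isInducing.isCompact_preimage' isCompact_Icc fun x hx => ?_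
    rw [range_co]
    refine det_ne_zero_of_sum_row_lt_diag fun i => ?_
    have h3 := hx.1 i i
    have h4 := hx.2 i i
    simp only [Matrix.one_apply_eq] at h3 h4
    have h5 : ∑ j ∈ Finset.univ.erase i, ‖Matrix.of x i j‖ ≤ k * δ := by
      refine (Finset.sum_le_card_nsmul _ _ δ fun j hj => ?_).trans ?_
      · have h6 := hx.1 i j
        have h7 := hx.2 i j
        simp only [Matrix.one_apply_ne (Finset.mem_erase.1 hj).1.symm] at h6 h7
        exact abs_le.2 ⟨by simpa using h6, by simpa using h7⟩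
      · rw [nsmul_eq_mul]
        refine mul_le_mul_of_nonneg_right ?_ (by linarith)
        exact_mod_cast (Finset.card_le_univ _).trans (by simp)
    refine h5.trans_lt (lt_of_lt_of_le ?_ (le_abs_self _))
    rw [Matrix.of_apply]
    linarith
  refine ⟨_, (h1.prod h2).image (f := fun p => p.1 * a * p.2) (by fun_prop), fun u x hu hx =>
    ⟨(u, x), ⟨⟨fun i j => ?_, fun i j => ?_⟩, fun i j => ?_, fun i j => ?_⟩, rfl⟩⟩
  · rcases lt_or_ge i j with h | h
    · simpa [h.ne, co] using (hu.2 i j h).1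
    · exact (hu.1 i j h).ge
  · rcases lt_or_ge i j with h | h
    · simpa [h.le, co] using (hu.2 i j h).2.le
    · refine (hu.1 i j h).le.trans ?_
      by_cases e : i = j
      · simp [e]
      · simp only [e, if_false]; split_ifs <;> simp
  · have := abs_lt.1 (hx i j)
    change _ ≤ x.val i j
    linarith
  · have := abs_lt.1 (hx i j)
    change x.val i j ≤ _
    linarith

end Tri

theorem tri (hL : Loc0Stmt) : TriStmt :=
  ⟨fun _ _ => Tri.vec, fun _ _ _ => Tri.uniq, fun _ _ => Tri.lowU, fun _ _ _ => Tri.lowM,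
    fun _ => Tri.lowD, Tri.lowS, Tri.ul hL, fun _ _ _ _ hT hm hδ _ _ => Tri.near hT hm hδ,
    fun _ a _ => Tri.cpt a⟩

end B

end Pool.Agent.Lib.MP_fa98d2_nt.D
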