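import Pool.Agent.Lib.MP_fa98d2_nt.B.Poi
import Pool.Agent.Lib.MP_fa98d2_nt.B.Bru

/-! Density theorem with off-diagonal terms: non relevant double cosets. -/

open MeasureTheory Filter Topology Matrix
open scoped ENNReal Real ComplexConjugate

noncomputable section

namespace Pool.Agent.Lib.MP_fa98d2_nt.D

namespace B

namespace Van

variable {k : ℕ}

lemma psi_int (m : Fin k → ℤ) (δ : GZ (k + 1)) : psi (zv m) (iz δ) = 1 := by
  have : ∑ i, zv m i * (iz δ).val i.castSucc i.succ =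
      ((∑ i, m i * δ.val i.castSucc i.succ : ℤ) : ℝ) := by
    simp [zv, val_iz]
  rw [psi, this, ee_int]

lemma isU_conj {a u : G k} (ha : IsU a) : IsU (a⁻¹ * u * a) ↔ IsU u :=
  ⟨fun h => by simpa [mul_assoc] using (ha.mul h).mul ha.inv, fun h => (ha.inv.mul h).mul ha⟩

lemma left (hW : WhStmt) {m : Fin k → ℤ} {γ δ : GZ (k + 1)} (hδ : δ ∈ UZ (k + 1)) (h : Rel m γ) :
    Rel m (δ * γ) := by
  intro u hu h1
  have hd : IsU (iz δ)⁻¹ := IsU.inv hδ
  have e : iz (δ * γ) * iq u * (iz (δ * γ))⁻¹ =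
      (iz δ)⁻¹⁻¹ * (iz γ * iq u * (iz γ)⁻¹) * (iz δ)⁻¹ := by rw [map_mul]; group
  rw [e] at h1 ⊢
  have h2 := (isU_conj hd).1 h1
  rw [Bru.psi_conj hW _ hd h2, h u hu h2]

lemma inv {m : Fin k → ℤ} {γ : GZ (k + 1)} (h : Rel m γ) : Rel m γ⁻¹ := by
  intro u hu h1
  have e : iq (zq γ⁻¹ * u * (zq γ⁻¹)⁻¹) = iz γ⁻¹ * iq u * (iz γ⁻¹)⁻¹ := by
    simp only [map_mul, map_inv, iq_zq]
  have e2 : iz γ * (iz γ⁻¹ * iq u * (iz γ⁻¹)⁻¹) * (iz γ)⁻¹ = iq u := by rw [map_inv]; group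
  have := h (zq γ⁻¹ * u * (zq γ⁻¹)⁻¹) (e ▸ h1) (by rw [e, e2]; exact hu)
  rw [e, e2] at this
  exact this.symm

lemma right (hW : WhStmt) {m : Fin k → ℤ} {γ δ : GZ (k + 1)} (hδ : δ ∈ UZ (k + 1)) (h : Rel m γ) :
    Rel m (γ * δ) := by
  simpa using inv (left hW (inv_mem hδ) (inv h))

/-- the diagonal matrix that clears denominators -/
def dd (k M : ℕ) : G k := dg fun i => (M : ℝ) ^ i.val

lemma exists_int {M : ℕ} (hM : 0 < M) {v : G k} (hv : IsU v)
    (h : ∀ i j, ∃ z : ℤ, (M : ℝ) * v.val i j = z) :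
    ∃ g : GZ k, dd k M * iz g * (dd k M)⁻¹ = v := by
  choose z hz using h
  have hM' : (M : ℝ) ≠ 0 := by exact_mod_cast hM.ne'
  let A : Matrix (Fin k) (Fin k) ℤ := Matrix.of fun i j =>
    if i < j then (M : ℤ) ^ (j.val - i.val - 1) * z i j else if i = j then 1 else 0
  have hd : A.det = 1 := by
    rw [Matrix.det_of_isUpperTriangular fun i j hij => by
      have h' : j < i := hij
      simp [A, h'.le, h'.ne']]
    simp [A]
  have hu : IsUnit A := (Matrix.isUnit_iff_isUnit_det A).2 (hd ▸ isUnit_one)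
  refine ⟨hu.unit, Units.ext ?_⟩
  have h0 : ∀ i : Fin k, (M : ℝ) ^ i.val ≠ 0 := fun i => pow_ne_zero _ hM'
  ext i j
  rw [dd, dg_inv h0, Units.val_mul, Units.val_mul, val_dg h0, val_dg fun i => inv_ne_zero (h0 i),
    Matrix.mul_diagonal, Matrix.diagonal_mul, val_iz, IsUnit.unit_spec, Matrix.map_apply]
  simp only [A, Matrix.of_apply]
  split_ifs with h1 h2
  · have e : j.val = i.val + (j.val - i.val - 1) + 1 := by have := Fin.lt_def.1 h1; omega
    push_cast
    rw [← hz]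
    nth_rewrite 2 [e]
    field_simp; ring
  · subst h2
    rw [hv i i le_rfl]; simp [h0 i]
  · rw [hv i j (not_lt.1 h1), if_neg h2]; simp

/-- the lattice attached to a double coset and a denominator -/
def LL (d g : G k) : Subgroup (GZ k) where
  carrier := {x | IsU (d * iz x * d⁻¹) ∧ IsU (g * (d * iz x * d⁻¹) * g⁻¹)}
  mul_mem' := fun {a b} ha hb =>
    ⟨by convert ha.1.mul hb.1 using 1; rw [map_mul]; group,
      by convert ha.2.mul hb.2 using 1; rw [map_mul]; group⟩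
  one_mem' := by simp [isU_one]
  inv_mem' := fun {a} ha =>
    ⟨by convert ha.1.inv using 1; rw [map_inv]; group,
      by convert ha.2.inv using 1; rw [map_inv]; group⟩

/-- its embedding -/
def sL (d g : G k) : LL d g →* G k :=
  (MulAut.conj d).toMonoidHom.comp (iz.comp (LL d g).subtype)

lemma sL_apply (d g : G k) (l : LL d g) : sL d g l = d * iz l.1 * d⁻¹ := rfl

lemma sL_inj (d g : G k) : Function.Injective (sL d g) :=
  (MulAut.conj d).injective.comp (iz_inj.comp Subtype.val_injective)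

/-- the stabiliser of a double coset representative -/
def St (g : GZ k) : Subgroup (UZ k × UZ k) where
  carrier := {l | l.1.1 * g = g * l.2.1}
  mul_mem' := fun {a b} ha hb => by
    change (a.1.1 * b.1.1) * g = g * (a.2.1 * b.2.1)
    rw [mul_assoc, hb, ← mul_assoc, ha, mul_assoc]
  one_mem' := by simp
  inv_mem' := fun {a} ha => by
    change (a.1.1)⁻¹ * g = g * (a.2.1)⁻¹
    rw [inv_mul_eq_iff_eq_mul, ← mul_assoc, ha, mul_inv_cancel_right]

/-- the double coset relation -/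
def dc (k : ℕ) : Setoid (GZ k) where
  r a b := ∃ d : UZ k × UZ k, a = d.1.1 * b * (d.2.1)⁻¹
  iseqv := ⟨fun a => ⟨1, by simp⟩, fun ⟨d, h⟩ => ⟨d⁻¹, by simp [h, mul_assoc]⟩,
    fun ⟨d, h⟩ ⟨d', h'⟩ => ⟨d * d', by simp [h, h', mul_assoc]⟩⟩

lemma orbit (hA : VanAStmt) (hT : TileStmt) (hW : WhStmt) {m : Fin k → ℤ} {β : G (k + 1) → ℂ}
    (hβ : Measurable β) (hE : Eqv (zv m) β) (hJ : ∑' γ, JA β γ ≠ ⊤) {g : GZ (k + 1)}
    (hg : ¬ Rel m g) (D : Set (GZ (k + 1))) (hD : ∀ γ, γ ∈ D ↔ dc (k + 1) γ g) :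
    ∑' γ : D, JT β γ = 0 := by
  choose r hr using fun γ : D => (hD γ).1 γ.2
  set a := wS (UZ (k + 1)) with ha
  have ham : Measurable a := hT.meas _ _
  have hat : ∀ h, a h ≠ ⊤ := wS_ne_top hT _
  set A : UZ (k + 1) × UZ (k + 1) → G (k + 1) → ℝ≥0∞ :=
    fun d h => a (iz d.1.1 * (iz g * h)) * a (iz d.2.1 * h) with hAd
  have hAm : ∀ d, Measurable (A d) := fun d =>
    (ham.comp ((measurable_const_mul _).const_mul _)).mul (ham.comp (measurable_const_mul _))
  have hAt : ∀ d h, A d h ≠ ⊤ := fun d h => ENNReal.mul_ne_top (hat _) (hat _)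
  set j : G (k + 1) → ℂ := fun h => β (iz g * h) * conj (β h) with hj
  have hjm : Measurable j := (hβ.comp (measurable_const_mul _)).mul (meas_conj hβ)
  have hz : ∀ (d : UZ (k + 1)) h, β (iz d.1 * h) = β h := fun d h => by
    rw [hE _ d.2, psi_int, one_mul]
  have e0 : ∀ (γ : D) h, iz γ.1 * (iz (r γ).2.1 * h) = iz (r γ).1.1 * (iz g * h) := fun γ h => by
    have := congrArg iz (hr γ)
    rw [map_mul, map_mul, map_inv] at this
    rw [this]; group
  have e1 : ∀ γ : D, JT β γ = ∫ h, ((A (r γ) h).toReal : ℂ) * j h ∂mu (k + 1) := fun γ => by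
    rw [JT, ← integral_mul_left_eq_self _ (iz (r γ).2.1)]
    refine integral_congr_ae (Eventually.of_forall fun h => ?_)
    simp only [e0, hz, hAd, hj, ENNReal.toReal_mul, map_mul, Complex.conj_ofReal, ← ha]
    push_cast; ring
  have e2 : ∀ γ : D, JA β γ = ∫⁻ h, A (r γ) h * ‖j h‖ₑ ∂mu (k + 1) := fun γ => by
    rw [JA, ← lintegral_mul_left_eq_self _ (iz (r γ).2.1)]
    refine lintegral_congr fun h => ?_
    simp only [e0, hz, hAd, hj, enorm_mul, enorm_conj, ← ha]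
    ring
  have hfin : ∑' γ : D, ∫⁻ h, A (r γ) h * ‖j h‖ₑ ∂mu (k + 1) ≠ ⊤ := by
    simp only [← e2]
    exact ne_top_of_le_ne_top hJ
      (ENNReal.tsum_comp_le_tsum_of_injective Subtype.val_injective (JA β))
  have m1 : ∀ γ : D, Measurable fun h => ((A (r γ) h).toReal : ℂ) * j h := fun γ =>
    (meas_toR (hAm _)).mul hjm
  simp only [e1]
  rw [← integral_tsum (fun γ => (m1 γ).aestronglyMeasurable)
    (by simpa only [enorm_toReal_mul (hAt _ _)] using hfin)]
  simp only [tsum_mul_right, ← Complex.ofReal_tsum, ← ENNReal.tsum_toReal_eq fun _ => hAt _ _]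
  simp only [Rel, not_forall] at hg
  obtain ⟨η, hη1, hη2, hη3⟩ := hg
  set M : ℕ := ∏ p : Fin (k + 1) × Fin (k + 1), (η.val p.1 p.2).den with hM
  have hM0 : 0 < M := Finset.prod_pos fun p _ => Rat.den_pos _
  set d := dd (k + 1) M with hd
  obtain ⟨η', hη'⟩ := exists_int hM0 hη1 fun i l => by
    obtain ⟨c, hc⟩ : (η.val i l).den ∣ M := Finset.dvd_prod_of_mem _ (Finset.mem_univ (i, l))
    refine ⟨c * (η.val i l).num, ?_⟩
    change (M : ℝ) * ((η.val i l : ℚ) : ℝ) = _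
    have : ((η.val i l).den : ℚ) * η.val i l = (η.val i l).num := Rat.den_mul_eq_num _
    rw [hc]
    exact_mod_cast (by push_cast; rw [← this]; ring :
      ((((η.val i l).den * c : ℕ) : ℚ)) * η.val i l = ((c * (η.val i l).num : ℤ) : ℚ))
  have hst : ∀ l : St g, iz g * iz l.1.2.1 * (iz g)⁻¹ = iz l.1.1.1 := fun l => by
    rw [← map_mul, ← show l.1.1.1 * g = g * l.1.2.1 from l.2, map_mul, mul_inv_cancel_right]
  have hι : ∀ l : St g, ∃ x : LL d (iz g), sL d (iz g) x = iz l.1.2.1 := fun l => by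
    obtain ⟨x, hx⟩ := exists_int hM0 (v := iz l.1.2.1) l.1.2.2 fun i j =>
      ⟨M * l.1.2.1.val i j, by simp [val_iz]⟩
    exact ⟨⟨x, hx ▸ l.1.2.2, by rw [hx, hst]; exact l.1.1.2⟩, hx⟩
  choose ι0 hι0 using hι
  let ι : St g →* LL d (iz g) := MonoidHom.mk' ι0 fun x y => sL_inj _ _ (by
    simp [hι0])
  have hι1 : ∀ l, sL d (iz g) (ι l) = iz l.1.2.1 := hι0
  let χ : LL d (iz g) →* ℂ :=
    { toFun := fun l => psi (zv m) (iz g * sL d (iz g) l * (iz g)⁻¹) *
        conj (psi (zv m) (sL d (iz g) l))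
      map_one' := by
        have := psi_int m 1
        rw [map_one] at this
        simp [this]
      map_mul' := fun x y => by
        have e : iz g * sL d (iz g) (x * y) * (iz g)⁻¹ =
            iz g * sL d (iz g) x * (iz g)⁻¹ * (iz g * sL d (iz g) y * (iz g)⁻¹) := by
          rw [map_mul]; group
        rw [e, map_mul, hW.psi_mul k _ (iz g * sL d (iz g) x * (iz g)⁻¹)
          (iz g * sL d (iz g) y * (iz g)⁻¹) x.2.2 y.2.2,
          hW.psi_mul k _ (sL d (iz g) x) (sL d (iz g) y) x.2.1 y.2.1, map_mul]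
        ring }
  have hχ : ∀ l, χ l = psi (zv m) (iz g * sL d (iz g) l * (iz g)⁻¹) *
      conj (psi (zv m) (sL d (iz g) l)) := fun _ => rfl
  refine hA (k + 1) (St g) (LL d (iz g)) ι (sL d (iz g)) (fun h => ∑' γ : D, A (r γ) h)
    (fun h => wS (LL d (iz g)) (d⁻¹ * h)) j χ (Measurable.tsum fun γ => hAm _)
    ((hT.meas _ _).comp (measurable_const_mul _)) hjm (fun h => ?_) (fun h => ?_) (fun l h => ?_)
    (fun l => by simp [hχ, psi]) (fun l => ?_) ⟨⟨η', hη' ▸ hη1, hη' ▸ hη2⟩, fun h => hη3 ?_⟩ ?_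
  · have hb : Function.Bijective fun p : St g × D => r p.2 * p.1.1 := by
      have h1 : ∀ p : St g × D, (r p.2 * p.1.1).1.1 * g * ((r p.2 * p.1.1).2.1)⁻¹ = p.2.1 :=
        fun p => by
          have : p.1.1.1.1 * g = g * p.1.1.2.1 := p.1.2
          conv_rhs => rw [hr p.2]
          simp [mul_assoc, this]
      refine ⟨fun p p' e => ?_, fun x => ?_⟩
      · have e' : r p.2 * p.1.1 = r p'.2 * p'.1.1 := e
        have h2 : p.2 = p'.2 := Subtype.ext (by rw [← h1 p, ← h1 p', e'])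
        rw [h2] at e'
        exact Prod.ext (Subtype.ext (mul_left_cancel e')) h2
      · let γ : D := ⟨_, (hD _).2 ⟨x, rfl⟩⟩
        refine ⟨(⟨(r γ)⁻¹ * x, ?_⟩, γ), by simp⟩
        have : x.1.1 * g * (x.2.1)⁻¹ = (r γ).1.1 * g * ((r γ).2.1)⁻¹ := hr γ
        change ((r γ).1.1)⁻¹ * x.1.1 * g = g * (((r γ).2.1)⁻¹ * x.2.1)
        rw [mul_assoc, mul_inv_eq_iff_eq_mul.1 this]
        group
    have h2 : ∑' x, A x h = 1 := by
      rw [ENNReal.tsum_prod']
      simp only [hAd, ENNReal.tsum_mul_left, ha, hT.sum, mul_one]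
    rw [← h2, ← (Equiv.ofBijective _ hb).tsum_eq, ENNReal.tsum_prod']
    refine tsum_congr fun l => tsum_congr fun γ => ?_
    simp [hAd, hι1, mul_assoc, ← hst l]
  · rw [← hT.sum _ (LL d (iz g)) (d⁻¹ * h)]
    simp [sL_apply, mul_assoc]
  · have e : iz g * (sL d (iz g) l * h) = iz g * sL d (iz g) l * (iz g)⁻¹ * (iz g * h) := by group
    simp only [hj, hχ]
    rw [e, hE (iz g * sL d (iz g) l * (iz g)⁻¹) l.2.2, hE (sL d (iz g) l) l.2.1, map_mul]
    ring
  · rw [hχ, hι1, hst, psi_int, psi_int]; simp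
  · rw [hχ, sL_apply, hη'] at h
    have h2 : conj (psi (zv m) (iq η)) * psi (zv m) (iq η) = 1 := by
      rw [psi, conj_ee, ← ee_add, neg_add_cancel, ee_zero]
    linear_combination psi (zv m) (iq η) * h - psi (zv m) (iz g * iq η * (iz g)⁻¹) * h2
  · simp only [← ENNReal.tsum_mul_right]
    rw [lintegral_tsum fun γ => ((hAm _).fun_mul hjm.enorm).aemeasurable]
    exact hfin.lt_top

end Van

open Van Classical in
theorem van (hA : VanAStmt) (hT : TileStmt) (hW : WhStmt) : VanStmt := by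
  refine ⟨fun k m γ δ hδ => ⟨fun h => by simpa using left hW (inv_mem hδ) h, left hW hδ⟩,
    fun k m γ δ hδ => ⟨fun h => by simpa using right hW (inv_mem hδ) h, right hW hδ⟩,
    fun k m γ => ⟨fun h => by simpa using Van.inv h, Van.inv⟩, fun k m β hβ hE hJ => ?_⟩
  have hs : Summable fun γ => if Rel m γ then 0 else JT β γ := by
    refine Summable.of_enorm (ne_top_of_le_ne_top hJ (ENNReal.tsum_le_tsum fun γ => ?_))
    split_ifs
    · simp
    · refine (enorm_integral_le_lintegral_enorm _).trans (le_of_eq ?_)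
      simp only [JA, enorm_mul (_ * β _), enorm_conj, enorm_toReal_mul (wS_ne_top hT _ _)]
  have h := hs.hasSum.tsum_fiberwise (Quotient.mk (dc (k + 1)))
  refine h.unique ?_
  convert hasSum_zero with c
  obtain ⟨g, rfl⟩ := Quotient.exists_rep c
  have hD : ∀ γ, γ ∈ Quotient.mk (dc (k + 1)) ⁻¹' {Quotient.mk (dc (k + 1)) g} ↔
      dc (k + 1) γ g := fun γ => Quotient.eq
  by_cases hg : Rel m g
  · refine (tsum_congr fun γ => if_pos ?_).trans tsum_zero
    obtain ⟨d, hd⟩ := (hD γ).1 γ.2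
    rw [hd]
    exact right hW (inv_mem d.2.2) (left hW d.1.2 hg)
  · refine (tsum_congr fun γ => if_neg fun h => hg ?_).trans (orbit hA hT hW hβ hE hJ hg _ hD)
    obtain ⟨d, hd⟩ := (dc (k + 1)).symm ((hD γ).1 γ.2)
    rw [hd]
    exact right hW (inv_mem d.2.2) (left hW d.1.2 h)

end B

end Pool.Agent.Lib.MP_fa98d2_nt.D
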