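import Pool.Agent.Lib.MP_fa98d2_nt.B.Poi

/-! Density theorem with off-diagonal terms: the abstract vanishing lemma. -/

open MeasureTheory Filter Topology Matrix
open scoped ENNReal Real ComplexConjugate

noncomputable section

namespace Pool.Agent.Lib.MP_fa98d2_nt.D

namespace B

theorem vanA : VanAStmt := by
  intro k L L' _ _ _ _ ι s ω ω' j χ hω hω' hj h1 h1' hjχ hχ hχι hη hfin
  have hχe : ∀ l, ‖χ l‖ₑ = 1 := fun l => by rw [← ofReal_norm, hχ, ENNReal.ofReal_one]
  have hωt : ∀ h, ω h ≠ ⊤ := fun h => by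
    have := ENNReal.le_tsum (f := fun l : L => ω (s (ι l) * h)) 1
    rw [h1, map_one, map_one, one_mul] at this
    exact ne_top_of_le_ne_top ENNReal.one_ne_top this
  have hωt' : ∀ h, ω' h ≠ ⊤ := fun h => by
    have := ENNReal.le_tsum (f := fun l : L' => ω' (s l * h)) 1
    rw [h1', map_one, one_mul] at this
    exact ne_top_of_le_ne_top ENNReal.one_ne_top this
  have h2 : ∀ h, ∑' μ : L, ω (s (ι μ⁻¹) * h) = 1 := fun h =>
    ((Equiv.inv L).tsum_eq fun μ => ω (s (ι μ) * h)).trans (h1 h)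
  have hre : ∀ {β : Type} [AddCommMonoid β] [TopologicalSpace β] (f : L' → L' → β) (μ : L),
      ∑' l, f l (ι μ * l) = ∑' l, f (ι μ⁻¹ * l) l := fun f μ => by
    rw [← (Equiv.mulLeft (ι μ⁻¹)).tsum_eq]
    simp
  set θ : G k → ℝ≥0∞ := fun h => ∑' l : L', ω (s l * h) with hθ
  have hθc : ∀ h h', θ h = θ h' := fun h h' => by
    calc θ h = ∑' l : L', ∑' μ : L, ω (s l * h) * ω (s (ι μ * l) * h') :=
          tsum_congr fun l => by
            simp only [ENNReal.tsum_mul_left, map_mul, mul_assoc, h1, mul_one]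
      _ = ∑' μ : L, ∑' l : L', ω (s (ι μ⁻¹ * l) * h) * ω (s l * h') := by
          rw [ENNReal.tsum_comm]
          exact tsum_congr fun μ => hre (fun a b => ω (s a * h) * ω (s b * h')) μ
      _ = θ h' := by
          rw [ENNReal.tsum_comm]
          exact tsum_congr fun l => by
            simp only [ENNReal.tsum_mul_right, map_mul, mul_assoc, h2, one_mul]
  have hθi : ∀ h, ∑' l : L', ω ((s l)⁻¹ * h) = θ 1 := fun h => by
    rw [hθc 1 h, hθ, ← (Equiv.inv L').tsum_eq]
    simp
  have hjn : ∀ l h, ‖j (s l * h)‖ₑ = ‖j h‖ₑ := fun l h => by rw [hjχ, enorm_mul, hχe, one_mul]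
  have e1 : ∫⁻ h, ω h * ‖j h‖ₑ ∂mu k = θ 1 * ∫⁻ h, ω' h * ‖j h‖ₑ ∂mu k := by
    have := Quot.unfold (fun l : L' => s l) hω (hω'.fun_mul hj.enorm)
    simp only [hjn, ENNReal.tsum_mul_right, h1', one_mul, hθi] at this
    rw [this, lintegral_const_mul _ (hω'.fun_mul hj.enorm)]
  by_cases ht : θ 1 = ⊤
  · have h0 : ∫⁻ h, ω h * ‖j h‖ₑ ∂mu k = 0 := by
      by_contra h0
      rw [e1] at h0 hfin
      rw [ht, ENNReal.top_mul (right_ne_zero_of_mul h0)] at hfin
      exact lt_irrefl _ hfin
    rw [← enorm_eq_zero, ← le_zero_iff, ← h0]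
    refine (enorm_integral_le_lintegral_enorm _).trans (le_of_eq ?_)
    simp only [enorm_toReal_mul (hωt _)]
  set Θ : G k → ℂ := fun h => ∑' l : L', ((ω (s l * h)).toReal : ℂ) * χ l with hΘ
  have hΘc : ∀ h h', Θ h = Θ h' := fun h h' => by
    have hs : Summable (Function.uncurry fun (l : L') (μ : L) =>
        ((ω (s l * h) * ω (s (ι μ * l) * h')).toReal : ℂ) * χ l) := by
      refine Summable.of_enorm ?_
      rw [ENNReal.tsum_prod']
      simp only [Function.uncurry_apply_pair, enorm_toReal_mul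
        (ENNReal.mul_ne_top (hωt _) (hωt _)), hχe, ENNReal.tsum_mul_left, map_mul, mul_assoc, h1,
        mul_one]
      exact ne_of_eq_of_ne (hθc h 1) ht
    have hs' : Summable (Function.uncurry fun (l : L') (μ : L) =>
        ((ω (s (ι μ⁻¹ * l) * h) * ω (s l * h')).toReal : ℂ) * χ l) := by
      refine Summable.of_enorm ?_
      rw [ENNReal.tsum_prod']
      simp only [Function.uncurry_apply_pair, enorm_toReal_mul
        (ENNReal.mul_ne_top (hωt _) (hωt _)), hχe, ENNReal.tsum_mul_right, map_mul, mul_assoc, h2,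
        mul_one, one_mul]
      exact ne_of_eq_of_ne (hθc h' 1) ht
    have c1 : ∀ x, ∑' μ : L, (((ω (s (ι μ) * x)).toReal : ℝ) : ℂ) = 1 := fun x => by
      rw [← Complex.ofReal_tsum, ← ENNReal.tsum_toReal_eq fun _ => hωt _, h1]; simp
    have c2 : ∀ x, ∑' μ : L, (((ω (s (ι μ⁻¹) * x)).toReal : ℝ) : ℂ) = 1 := fun x => by
      rw [← Complex.ofReal_tsum, ← ENNReal.tsum_toReal_eq fun _ => hωt _, h2]; simp
    calc Θ h = ∑' l : L', ∑' μ : L, ((ω (s l * h) * ω (s (ι μ * l) * h')).toReal : ℂ) * χ l :=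
          tsum_congr fun l => by
            simp only [ENNReal.toReal_mul, Complex.ofReal_mul, tsum_mul_right, tsum_mul_left,
              map_mul, mul_assoc (s _), c1, mul_one]
      _ = ∑' μ : L, ∑' l : L', ((ω (s (ι μ⁻¹ * l) * h) * ω (s l * h')).toReal : ℂ) * χ l := by
          rw [← hs.tsum_comm]
          refine tsum_congr fun μ => (hre (fun a b =>
            ((ω (s a * h) * ω (s b * h')).toReal : ℂ) * χ a) μ).trans ?_
          simp only [map_mul χ, hχι, one_mul]
      _ = Θ h' := by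
          rw [hs'.tsum_comm]
          exact tsum_congr fun l => by
            simp only [ENNReal.toReal_mul, Complex.ofReal_mul, tsum_mul_right,
              map_mul, mul_assoc (s _), c2, one_mul]
  have hΘ0 : ∀ h, Θ h = 0 := fun h => by
    obtain ⟨η, hη⟩ := hη
    have e : Θ (s η * h) * χ η = Θ h := by
      simp only [hΘ]
      rw [← tsum_mul_right, ← (Equiv.mulRight η).tsum_eq fun l => ((ω (s l * h)).toReal : ℂ) * χ l]
      simp [mul_assoc]
    rw [hΘc _ h] at e
    have : Θ h * (χ η - 1) = 0 := by rw [mul_sub, e, mul_one, sub_self]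
    exact (mul_eq_zero.1 this).resolve_right (sub_ne_zero.2 hη)
  have m1 : ∀ l : L', Measurable fun h => ((ω h * ω' (s l * h)).toReal : ℂ) * j h := fun l =>
    (meas_toR (hω.fun_mul (hω'.comp (measurable_const_mul _)))).mul hj
  have m2 : ∀ l : L', Measurable fun h => ((ω' h * ω (s l * h)).toReal : ℂ) * j (s l * h) :=
    fun l => (meas_toR (hω'.fun_mul (hω.comp (measurable_const_mul _)))).mul
      (hj.comp (measurable_const_mul _))
  have f1 : ∑' l : L', ∫⁻ h, ‖((ω h * ω' (s l * h)).toReal : ℂ) * j h‖ₑ ∂mu k ≠ ⊤ := by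
    rw [← lintegral_tsum fun l => (m1 l).enorm.aemeasurable]
    simp only [enorm_toReal_mul (ENNReal.mul_ne_top (hωt _) (hωt' _)), ENNReal.tsum_mul_right,
      ENNReal.tsum_mul_left, h1', mul_one]
    exact hfin.ne
  have f2 : ∑' l : L', ∫⁻ h, ‖((ω' h * ω (s l * h)).toReal : ℂ) * j (s l * h)‖ₑ ∂mu k ≠ ⊤ := by
    rw [← lintegral_tsum fun l => (m2 l).enorm.aemeasurable]
    simp only [enorm_toReal_mul (ENNReal.mul_ne_top (hωt' _) (hωt _)), hjn, ENNReal.tsum_mul_right,
      ENNReal.tsum_mul_left]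
    refine ne_of_eq_of_ne ?_ hfin.ne
    rw [e1, ← lintegral_const_mul _ (hω'.fun_mul hj.enorm)]
    refine lintegral_congr fun h => ?_
    rw [hθc 1 h]; simp only [hθ]; ring
  calc _ = ∫ h, ∑' l : L', ((ω h * ω' (s l * h)).toReal : ℂ) * j h ∂mu k := by
        refine integral_congr_ae (Eventually.of_forall fun h => ?_)
        simp only []
        rw [tsum_mul_right, ← Complex.ofReal_tsum,
          ← ENNReal.tsum_toReal_eq fun _ => ENNReal.mul_ne_top (hωt _) (hωt' _),
          ENNReal.tsum_mul_left, h1', mul_one]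
    _ = ∑' l : L', ∫ h, ((ω' h * ω (s l * h)).toReal : ℂ) * j (s l * h) ∂mu k := by
        rw [integral_tsum (fun l => (m1 l).aestronglyMeasurable) f1, ← (Equiv.inv L').tsum_eq]
        refine tsum_congr fun l => ?_
        rw [← integral_mul_left_eq_self _ (s l)]
        simp [mul_comm]
    _ = 0 := by
        rw [← integral_tsum (fun l => (m2 l).aestronglyMeasurable) f2]
        refine (integral_congr_ae (Eventually.of_forall fun h => ?_)).trans (integral_zero _ _)
        have : ∀ l, ((ω' h * ω (s l * h)).toReal : ℂ) * j (s l * h) =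
            ((ω' h).toReal : ℂ) * j h * (((ω (s l * h)).toReal : ℂ) * χ l) := fun l => by
          rw [hjχ, ENNReal.toReal_mul]; push_cast; ring
        simp only [this, tsum_mul_left]
        rw [show (∑' l : L', ((ω (s l * h)).toReal : ℂ) * χ l) = 0 from hΘ0 h, mul_zero]

end B

end Pool.Agent.Lib.MP_fa98d2_nt.D
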