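import Pool.Agent.Lib.MP_fa98d2_nt.D.Final
import Pool.Agent.Lib.MP_fa98d2_nt.B.Main
import Pool.Agent.Lib.MP_fa98d2_nt.B.Asm
import Pool.Agent.Lib.MP_fa98d2_nt.B.Tile
import Pool.Agent.Lib.MP_fa98d2_nt.B.Tri
import Pool.Agent.Lib.MP_fa98d2_nt.B.VanA
import Pool.Agent.Lib.MP_fa98d2_nt.B.Van
import Pool.Agent.Lib.MP_fa98d2_nt.B.Bru
import Pool.Agent.Lib.MP_fa98d2_nt.B.Cls
import Pool.Agent.Lib.MP_fa98d2_nt.B.One
import Pool.Agent.Lib.MP_fa98d2_nt.B.Col
import Pool.Agent.Lib.MP_fa98d2_nt.B.Cnt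

/-! Density theorem with off-diagonal terms: assembly. -/

namespace Pool.Agent.Lib.MP_fa98d2_nt.D

namespace B

theorem injBS : InjBStmt :=
  have hH := haar
  have hT := torus
  have hW := wh hT calcS
  have hL0 := loc0 hH calcS
  have hTi := tile hH hT
  have hTr := tri hL0
  injB hH (quot hH hT) hW hL0 hTi hTr (van vanA hTi hW) (clsB (bru hW)) (cnt one col hTr)

theorem finalBS : FinalBStmt :=
  have hH := haar
  have hT := torus
  have hQ := quot hH hT
  have hC := calcS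
  have hW := wh hT hC
  have hPar := par hT prim hQ hW
  have hSh := shin hW (hw hT hW)
  have hR := rs prim hH hQ hW hPar
  have hL0 := loc0 hH hC
  have hV := cls hC hQ hW hL0
  have hD := cd lat hC hQ hW hPar hR hV
  have hIso := iso kappa schur lat hC hH hQ hW hR hSh hV hD
  have hI := irr hT hH hW
  have hL := loc3 hC hQ hW hR hV hL0 (loc1 kaz hC hW hV hL0) (loc2 hH hQ hW hV hI hL0)
  finalB (mainB schur hSh (orth hnf hQ) hIso hL (rb schur euler lat hQ hW hR hSh hV hD)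
    injBS hW hQ) (mult hQ hW hV hL0 hIso hI gelf) (bridge hc hC hQ) hV

end B

end Pool.Agent.Lib.MP_fa98d2_nt.D
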